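import Mathlib

/-!
# MP_decea1_gt, block D: homogeneous bounded cocycles (pure algebra)

`HC G c D`: `c` is a 2-cocycle on the group `G`, bounded by `D`, which vanishes on cyclic subgroups
(the coboundary of a homogeneous quasimorphism, and every limit of such coboundaries, has these
properties). We work in the central extension `HX` of `G` by `ℝ` and with its section `sg`.
-/

set_option autoImplicit false

namespace Pool.Agent.QM59

/-- homogeneous bounded cocycles -/
structure HC (G : Type*) [Group G] (c : G → G → ℝ) (D : ℝ) : Prop where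
  coc : ∀ x y z, c x y + c (x * y) z = c y z + c x (y * z)
  bdd : ∀ x y, |c x y| ≤ D
  hom : ∀ (x : G) (m n : ℤ), c (x ^ m) (x ^ n) = 0

namespace HC

variable {G : Type*} [Group G] {c : G → G → ℝ} {D : ℝ}

theorem one_left (h : HC G c D) (x : G) : c 1 x = 0 := by
  simpa using h.hom x 0 1

theorem one_right (h : HC G c D) (x : G) : c x 1 = 0 := by
  simpa using h.hom x 1 0

theorem mul_inv (h : HC G c D) (x : G) : c x x⁻¹ = 0 := by
  simpa using h.hom x 1 (-1)

theorem inv_mul (h : HC G c D) (x : G) : c x⁻¹ x = 0 := by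
  simpa using h.hom x (-1) 1

end HC

/-- the central extension -/
@[ext] structure HX {G : Type*} [Group G] {c : G → G → ℝ} {D : ℝ} (h : HC G c D) where
  /-- the group component -/
  g : G
  /-- the real component -/
  r : ℝ

namespace HX

variable {G : Type*} [Group G] {c : G → G → ℝ} {D : ℝ} {h : HC G c D}

instance : Mul (HX h) := ⟨fun a b => ⟨a.g * b.g, a.r + b.r + c a.g b.g⟩⟩
instance : One (HX h) := ⟨⟨1, 0⟩⟩
instance : Inv (HX h) := ⟨fun a => ⟨a.g⁻¹, -a.r⟩⟩

@[simp] theorem mul_g (a b : HX h) : (a * b).g = a.g * b.g := rfl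
@[simp] theorem mul_r (a b : HX h) : (a * b).r = a.r + b.r + c a.g b.g := rfl
@[simp] theorem one_g : (1 : HX h).g = 1 := rfl
@[simp] theorem one_r : (1 : HX h).r = 0 := rfl
@[simp] theorem inv_g (a : HX h) : (a⁻¹).g = a.g⁻¹ := rfl
@[simp] theorem inv_r (a : HX h) : (a⁻¹).r = -a.r := rfl

instance : Group (HX h) :=
  Group.ofLeftAxioms
    (fun a b d => by
      ext
      · simp [mul_assoc]
      · have := h.coc a.g b.g d.g
        simp only [mul_r, mul_g]
        linarith)
    (fun a => by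
      ext
      · simp
      · simp [h.one_left])
    (fun a => by
      ext
      · simp
      · simp [h.inv_mul])

/-- the section -/
def sg (h : HC G c D) (x : G) : HX h := ⟨x, 0⟩

/-- the centre -/
def zz (h : HC G c D) (t : ℝ) : HX h := ⟨1, t⟩

@[simp] theorem sg_g (x : G) : (sg h x).g = x := rfl
@[simp] theorem sg_r (x : G) : (sg h x).r = 0 := rfl
@[simp] theorem zz_g (t : ℝ) : (zz h t).g = 1 := rfl
@[simp] theorem zz_r (t : ℝ) : (zz h t).r = t := rfl

theorem zz_mul (t : ℝ) (a : HX h) : zz h t * a = a * zz h t := by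
  ext
  · simp
  · simp [h.one_left, h.one_right, add_comm]

theorem mul_zz_r (t : ℝ) (a : HX h) : (a * zz h t).r = a.r + t := by
  simp [h.one_right]

theorem eq_iff (a b : HX h) : a = b ↔ a.g = b.g ∧ a.r = b.r :=
  ⟨fun e => by rw [e]; exact ⟨rfl, rfl⟩, fun e => HX.ext e.1 e.2⟩

theorem eq_sg (a : HX h) : a = sg h a.g * zz h a.r := by
  ext
  · simp
  · simp [h.one_right]

/-- the projection -/
def pr (h : HC G c D) : HX h →* G where
  toFun a := a.g
  map_one' := rfl
  map_mul' _ _ := rfl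

@[simp] theorem pow_g (a : HX h) (n : ℕ) : (a ^ n).g = a.g ^ n :=
  map_pow (pr h) a n

@[simp] theorem zpow_g (a : HX h) (n : ℤ) : (a ^ n).g = a.g ^ n :=
  map_zpow (pr h) a n

theorem sg_one : sg h (1 : G) = 1 := rfl

theorem sg_inv (x : G) : sg h x⁻¹ = (sg h x)⁻¹ := by
  ext <;> simp

theorem sg_pow (x : G) (n : ℕ) : (sg h x) ^ n = sg h (x ^ n) := by
  induction n with
  | zero => simp [sg_one]
  | succ n ih =>
    rw [pow_succ, ih]
    ext
    · simp [pow_succ]
    · have := h.hom x n 1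
      simpa using this

theorem sg_mul_iff (x y : G) : sg h x * sg h y = sg h (x * y) ↔ c x y = 0 := by
  rw [eq_iff]
  simp

theorem sg_mul (x y : G) : sg h x * sg h y = sg h (x * y) * zz h (c x y) := by
  ext
  · simp
  · simp [h.one_right]

/-- a power of `a` has real component `n * a.r` -/
theorem pow_r (a : HX h) (n : ℕ) : (a ^ n).r = n * a.r := by
  have h1 : a ^ n = sg h (a.g ^ n) * zz h (n * a.r) := by
    have h2 : ∀ m : ℕ, (zz h a.r) ^ m = zz h (m * a.r) := by
      intro m
      induction m with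
      | zero => ext <;> simp
      | succ m ih =>
        rw [pow_succ, ih]
        ext
        · simp
        · simp [h.one_right]
          ring
    conv_lhs => rw [eq_sg a]
    have hc : Commute (sg h a.g) (zz h a.r) := (zz_mul _ _).symm
    rw [hc.mul_pow, sg_pow, h2]
  rw [h1]
  simp [h.one_right]

/-- if `a.r` is known to be bounded along powers, it vanishes -/
theorem r_eq_zero_of_bdd (a : HX h) (C : ℝ) (hC : ∀ n : ℕ, |(a ^ n).r| ≤ C) : a.r = 0 := by
  by_contra hne
  have hpos : 0 < |a.r| := abs_pos.2 hne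
  obtain ⟨n, hn⟩ := exists_nat_gt (C / |a.r|)
  have h1 := hC n
  rw [pow_r, abs_mul, Nat.abs_cast] at h1
  rw [div_lt_iff₀ hpos] at hn
  linarith

/-- the section is equivariant under conjugation -/
theorem sg_conj (x y : G) : sg h (x * y * x⁻¹) = sg h x * sg h y * (sg h x)⁻¹ := by
  have key : (sg h x * sg h y * (sg h x)⁻¹).r = 0 := by
    apply r_eq_zero_of_bdd _ (2 * D)
    intro n
    rw [conj_pow, sg_pow]
    simp only [mul_r, sg_r, mul_g, sg_g, inv_r, inv_g, neg_zero, add_zero, zero_add]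
    have h1 := h.bdd x (y ^ n)
    have h2 := h.bdd (x * y ^ n) x⁻¹
    calc |c x (y ^ n) + c (x * y ^ n) x⁻¹| ≤ |c x (y ^ n)| + |c (x * y ^ n) x⁻¹| := abs_add_le _ _
      _ ≤ 2 * D := by linarith
  ext
  · simp
  · rw [key]; rfl

end HX

namespace HC

variable {G : Type*} [Group G] {c : G → G → ℝ} {D : ℝ}

open HX

/-- invariance under conjugation -/
theorem conj (h : HC G c D) (g x y : G) :
    c (g * x * g⁻¹) (g * y * g⁻¹) = c x y := by
  have e : sg h (g * x * g⁻¹) * sg h (g * y * g⁻¹)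
      = sg h g * (sg h x * sg h y) * (sg h g)⁻¹ := by
    rw [sg_conj, sg_conj]; group
  have e2 : sg h g * (sg h x * sg h y) * (sg h g)⁻¹
      = sg h (g * (x * y) * g⁻¹) * zz h (c x y) := by
    rw [HX.sg_mul x y, sg_conj]
    have := zz_mul (h := h) (c x y) ((sg h g)⁻¹)
    rw [mul_assoc, mul_assoc, mul_assoc, this, ← mul_assoc, ← mul_assoc]
  have e3 := congrArg HX.r (e.trans e2)
  simpa [h.one_right] using e3

/-- the cocycle vanishes on commuting pairs -/
theorem comm (h : HC G c D) {x y : G} (hxy : x * y = y * x) : c x y = 0 := by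
  have e1 : sg h x * sg h y = sg h y * sg h x := by
    have h1 : x * y * x⁻¹ = y := by rw [hxy]; group
    have h2 := sg_conj (h := h) x y
    rw [h1] at h2
    calc sg h x * sg h y = sg h x * sg h y * (sg h x)⁻¹ * sg h x := by group
      _ = sg h y * sg h x := by rw [← h2]
  have hc : Commute (sg h x) (sg h y) := e1
  have key : (sg h x * sg h y).r = 0 := by
    apply r_eq_zero_of_bdd _ D
    intro n
    rw [hc.mul_pow, sg_pow, sg_pow]
    simpa using h.bdd (x ^ n) (y ^ n)
  simpa using key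

theorem inv_inv (h : HC G c D) (x y : G) : c y⁻¹ x⁻¹ = - c x y := by
  have e : sg h y⁻¹ * sg h x⁻¹ = (sg h x * sg h y)⁻¹ := by
    rw [sg_inv, sg_inv]; group
  have e1 : (sg h y⁻¹ * sg h x⁻¹).r = c y⁻¹ x⁻¹ := by simp only [mul_r, sg_r, sg_g]; ring
  have e2 : ((sg h x * sg h y)⁻¹).r = - c x y := by
    rw [inv_r]; simp only [mul_r, sg_r, sg_g]; ring
  rw [← e1, e, e2]

/-- normal subgroup lemma: if `c` vanishes on `N` and `x` normalises `N`, then `c t x = 0` for
`t ∈ N` -/
theorem normal (h : HC G c D) (N : Subgroup G) (hN : ∀ s ∈ N, ∀ t ∈ N, c s t = 0) {x : G}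
    (hx : ∀ t ∈ N, x * t * x⁻¹ ∈ N) {t : G} (ht : t ∈ N) : c t x = 0 := by
  -- `(σ t σ x)^n = σ t_n σ (x ^ n)` with `t_n ∈ N`
  have key : ∀ n : ℕ, ∃ s ∈ N, (sg h t * sg h x) ^ n = sg h s * sg h (x ^ n) := by
    intro n
    induction n with
    | zero => exact ⟨1, N.one_mem, by simp [sg_one]⟩
    | succ n ih =>
      obtain ⟨s, hs, e⟩ := ih
      refine ⟨t * (x * s * x⁻¹), N.mul_mem ht (hx s hs), ?_⟩
      rw [pow_succ', e]
      have e1 : sg h (t * (x * s * x⁻¹)) = sg h t * sg h (x * s * x⁻¹) :=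
        ((sg_mul_iff t _).2 (hN t ht _ (hx s hs))).symm
      have e2 : sg h (x ^ (n + 1)) = sg h x * sg h (x ^ n) := by
        rw [← sg_pow, ← sg_pow, pow_succ']
      rw [e1, sg_conj, e2]
      group
  have h0 : (sg h t * sg h x).r = 0 := by
    apply r_eq_zero_of_bdd _ D
    intro n
    obtain ⟨s, -, e⟩ := key n
    rw [e]
    simpa using h.bdd s (x ^ n)
  simpa using h0

theorem normal' (h : HC G c D) (N : Subgroup G) (hN : ∀ s ∈ N, ∀ t ∈ N, c s t = 0) {x : G}
    (hx : ∀ t ∈ N, x⁻¹ * t * x ∈ N) {t : G} (ht : t ∈ N) : c x t = 0 := by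
  have h1 := h.inv_inv x t
  have h2 : c t⁻¹ x⁻¹ = 0 := by
    apply h.normal N hN (x := x⁻¹) _ (N.inv_mem ht)
    intro s hs
    simpa using hx s hs
  linarith

/-- the cocycle vanishes on finite subgroups -/
theorem finite (h : HC G c D) (F : Subgroup G) [Finite F] : ∀ x ∈ F, ∀ y ∈ F, c x y = 0 := by
  classical
  have := Fintype.ofFinite F
  set N : ℝ := (Fintype.card F : ℝ) with hNdef
  have hNpos : 0 < N := by
    rw [hNdef]; exact_mod_cast Fintype.card_pos
  let ψ : G → ℝ := fun x => ∑ z : F, c x z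
  have key : ∀ x ∈ F, ∀ y ∈ F, N * c x y = ψ x + ψ y - ψ (x * y) := by
    intro x _ y hy
    have e1 : ∑ z : F, (c x y + c (x * y) z) = ∑ z : F, (c y z + c x (y * z)) :=
      Finset.sum_congr rfl fun z _ => h.coc x y z
    have e2 : ∑ z : F, c x (y * z) = ∑ z : F, c x z := by
      have := Equiv.sum_comp (Equiv.mulLeft (⟨y, hy⟩ : F)) (fun z : F => c x (z : G))
      simpa using this
    rw [Finset.sum_add_distrib, Finset.sum_add_distrib, e2, Finset.sum_const,
      Finset.card_univ, nsmul_eq_mul] at e1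
    simp only [ψ]
    linarith
  have hψ1 : ψ 1 = 0 := by
    simp only [ψ]
    exact Finset.sum_eq_zero fun z _ => h.one_left _
  have hpow : ∀ x ∈ F, ∀ n : ℕ, ψ (x ^ n) = n * ψ x := by
    intro x hx n
    induction n with
    | zero => simpa using hψ1
    | succ n ih =>
      have e := key (x ^ n) (F.pow_mem hx n) x hx
      have e2 : c (x ^ n) x = 0 := by simpa using h.hom x n 1
      rw [e2, mul_zero, ← pow_succ] at e
      push_cast
      linarith
  have hz : ∀ x ∈ F, ψ x = 0 := by
    intro x hx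
    have e0 : (⟨x, hx⟩ : F) ^ (Fintype.card F) = 1 := pow_card_eq_one
    have e : x ^ (Fintype.card F) = 1 := by
      have e3 : ((⟨x, hx⟩ : F) ^ (Fintype.card F) : F).1 = (1 : F).1 := congrArg Subtype.val e0
      rw [Subgroup.coe_pow] at e3
      exact e3
    have e2 := hpow x hx (Fintype.card F)
    rw [e, hψ1] at e2
    have : ((Fintype.card F : ℕ) : ℝ) ≠ 0 := hNpos.ne'
    rcases mul_eq_zero.1 e2.symm with h3 | h3
    · exact absurd h3 this
    · exact h3
  intro x hx y hy
  have e := key x hx y hy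
  rw [hz x hx, hz y hy, hz _ (F.mul_mem hx hy)] at e
  have : N * c x y = 0 := by linarith
  rcases mul_eq_zero.1 this with h3 | h3
  · exact absurd h3 hNpos.ne'
  · exact h3

/-- the cocycle vanishes on locally finite subgroups -/
theorem locFinite (h : HC G c D) (x y : G) (hf : Finite (Subgroup.closure {x, y})) : c x y = 0 :=
  h.finite (Subgroup.closure {x, y}) x (Subgroup.subset_closure (by simp)) y
    (Subgroup.subset_closure (by simp))

/-- bounded coboundaries: if `c x y = ψ x + ψ y - ψ (x * y)` on a subgroup `H` with `ψ` bounded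
there, then `c = 0` on `H` -/
theorem of_bdd (h : HC G c D) (H : Subgroup G) (ψ : G → ℝ) (C : ℝ) (hb : ∀ x ∈ H, |ψ x| ≤ C)
    (he : ∀ x ∈ H, ∀ y ∈ H, c x y = ψ x + ψ y - ψ (x * y)) : ∀ x ∈ H, ∀ y ∈ H, c x y = 0 := by
  have hψ1 : ψ 1 = 0 := by
    have e := he 1 H.one_mem 1 H.one_mem
    rw [h.one_left, mul_one] at e
    linarith
  have hpow : ∀ x ∈ H, ∀ n : ℕ, ψ (x ^ n) = n * ψ x := by
    intro x hx n
    induction n with
    | zero => simpa using hψ1
    | succ n ih =>
      have e := he (x ^ n) (H.pow_mem hx n) x hx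
      have e2 : c (x ^ n) x = 0 := by simpa using h.hom x n 1
      rw [e2, ← pow_succ] at e
      push_cast
      linarith
  have hz : ∀ x ∈ H, ψ x = 0 := by
    intro x hx
    by_contra hne
    have hpos : 0 < |ψ x| := abs_pos.2 hne
    obtain ⟨n, hn⟩ := exists_nat_gt (C / |ψ x|)
    have h1 := hb _ (H.pow_mem hx n)
    rw [hpow x hx n, abs_mul, Nat.abs_cast] at h1
    rw [div_lt_iff₀ hpos] at hn
    linarith
  intro x hx y hy
  rw [he x hx y hy, hz x hx, hz y hy, hz _ (H.mul_mem hx hy)]
  ring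

end HC

end Pool.Agent.QM59
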