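import Mathlib
import Pool.Agent.Lib.MP_decea1_gt_D.HC

/-!
# MP_decea1_gt, block D, module Abs: two abstract lemmas
-/

set_option autoImplicit false

namespace Pool.Agent.QM59

variable {G : Type*} [Group G] {c : G → G → ℝ} {D : ℝ}

open HX

/-- MAIN TRICK: a subset of the extension which is closed under products and on which `r` is
bounded lies in the image of the section -/
theorem HX.r_zero_of_closed {h : HC G c D} (S : Set (HX h)) (hS : ∀ a ∈ S, ∀ b ∈ S, a * b ∈ S)
    (B : ℝ) (hB : ∀ a ∈ S, |a.r| ≤ B) : ∀ a ∈ S, a.r = 0 := by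
  intro a ha
  have hB0 : 0 ≤ B := le_trans (abs_nonneg _) (hB a ha)
  have hp : ∀ n : ℕ, a ^ (n + 1) ∈ S := by
    intro n
    induction n with
    | zero => simpa using ha
    | succ n ih =>
      rw [pow_succ]
      exact hS _ ih _ ha
  apply r_eq_zero_of_bdd a B
  intro n
  cases n with
  | zero => simpa using hB0
  | succ n => exact hB _ (hp n)

/-- products of commuting pairs -/
theorem HC.prod2 (h : HC G c D) {a b a' b' : G} (h1 : a * b = b * a) (h2 : a * b' = b' * a)
    (h3 : a' * b = b * a') (h4 : a' * b' = b' * a') (ha : c a a' = 0) (hb : c b b' = 0) :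
    c (a * b) (a' * b') = 0 := by
  have e1 : sg h (a * b) = sg h a * sg h b := ((sg_mul_iff a b).2 (h.comm h1)).symm
  have e2 : sg h (a' * b') = sg h a' * sg h b' := ((sg_mul_iff a' b').2 (h.comm h4)).symm
  have e3 : sg h (a' * b) = sg h a' * sg h b := ((sg_mul_iff a' b).2 (h.comm h3)).symm
  have e4 : sg h (b * a') = sg h b * sg h a' := ((sg_mul_iff b a').2 (h.comm h3.symm)).symm
  have e5 : sg h (a * a') = sg h a * sg h a' := ((sg_mul_iff a a').2 ha).symm
  have e6 : sg h (b * b') = sg h b * sg h b' := ((sg_mul_iff b b').2 hb).symm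
  have h5 : (a * a') * (b * b') = (b * b') * (a * a') := by
    calc (a * a') * (b * b') = a * (a' * b) * b' := by group
      _ = a * (b * a') * b' := by rw [h3]
      _ = (a * b) * (a' * b') := by group
      _ = (b * a) * (b' * a') := by rw [h1, h4]
      _ = b * (a * b') * a' := by group
      _ = b * (b' * a) * a' := by rw [h2]
      _ = (b * b') * (a * a') := by group
  have e7 : sg h ((a * a') * (b * b')) = sg h (a * a') * sg h (b * b') :=
    ((sg_mul_iff _ _).2 (h.comm h5)).symm
  rw [← sg_mul_iff (h := h)]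
  have h6 : (a * b) * (a' * b') = (a * a') * (b * b') := by
    calc (a * b) * (a' * b') = a * (b * a') * b' := by group
      _ = a * (a' * b) * b' := by rw [h3]
      _ = _ := by group
  rw [h6, e7, e1, e2, e5, e6]
  calc sg h a * sg h b * (sg h a' * sg h b') = sg h a * (sg h b * sg h a') * sg h b' := by group
    _ = sg h a * (sg h a' * sg h b) * sg h b' := by rw [← e4, ← e3, h3]
    _ = _ := by group

end Pool.Agent.QM59
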