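import Mathlib
import Pool.Agent.Lib.MP_decea1_gt_Q0.Defs
import Pool.Agent.Lib.MP_decea1_gt_D.HC

/-!
# MP_decea1_gt, block D: extension of the coboundary to the group of approximable permutations

`hatG hΓ` is the group of all permutations `T` of `E3` such that for every `v > 0` there is
`s ∈ Γ` with `s = T` on the cube off a closed set of measure `< v`. Under the conclusion of
`NAc` (block B, here the hypothesis `UC Γ φ`) the coboundary `dphi φ` extends to a homogeneous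
bounded cocycle `cc` on `hatG hΓ` (`HC`), which is uniformly continuous.
-/

set_option autoImplicit false

open MeasureTheory Set Filter Topology

namespace Pool.Agent.QM59

/-- the conclusion of `NAc` (block B) -/
def UC (Γ : Subgroup (Equiv.Perm E3)) (φ : Equiv.Perm E3 → ℝ) : Prop :=
  ∀ ε : ℝ, 0 < ε → ∃ v : ℝ, 0 < v ∧
    ∀ x ∈ Γ, ∀ y ∈ Γ, ∀ u ∈ Γ, ∀ w ∈ Γ, ∀ K : Set E3, K ⊆ Cube → IsCompact K →
      volume K < ENNReal.ofReal v → IdOff K u → IdOff K w →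
        |dphi φ (x * u) (y * w) - dphi φ x y| ≤ ε

variable {Γ : Subgroup (Equiv.Perm E3)} {φ : Equiv.Perm E3 → ℝ} {D : ℝ}

theorem Good.cube_iff (hΓ : Good Γ) {f : Equiv.Perm E3} (hf : f ∈ Γ) (x : E3) :
    f x ∈ Cube ↔ x ∈ Cube := by
  obtain ⟨K, hK, -, hf0⟩ := hΓ.supp f hf
  by_cases hx : x ∈ K
  · have hfx : f x ∈ K := by
      by_contra h
      have h1 := hf0 _ h
      have h2 := f.injective h1
      rw [h2] at h
      exact h hx
    exact ⟨fun _ => hK hx, fun _ => hK hfx⟩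
  · rw [hf0 x hx]

theorem Good.continuous (hΓ : Good Γ) {f : Equiv.Perm E3} (hf : f ∈ Γ) :
    Continuous (fun x => f x) :=
  (hΓ.dif f hf).1.continuous

theorem Good.vol_image (hΓ : Good Γ) {f : Equiv.Perm E3} (hf : f ∈ Γ) {K : Set E3}
    (hK : MeasurableSet K) : volume ((fun x => f x) '' K) = volume K := by
  have hd : Differentiable ℝ (fun x => f x) :=
    (hΓ.dif f hf).1.differentiable (by simp [smo])
  have h1 := lintegral_abs_det_fderiv_eq_addHaar_image (volume : Measure E3) hK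
    (f := fun x => f x) (f' := fun x => fderiv ℝ (fun x => f x) x)
    (fun x _ => (hd x).hasFDerivAt.hasFDerivWithinAt) f.injective.injOn
  rw [← h1]
  have h2 : ∀ x, ENNReal.ofReal |(fderiv ℝ (fun x => f x) x).det| = 1 := by
    intro x
    have := hΓ.vol f hf x
    unfold jac at this
    rw [this]
    simp
  simp [h2]

theorem Good.vol_preimage (hΓ : Good Γ) {f : Equiv.Perm E3} (hf : f ∈ Γ) {K : Set E3}
    (hK : MeasurableSet K) : volume ((fun x => f x) ⁻¹' K) = volume K := by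
  have h1 := hΓ.vol_image (Γ.inv_mem hf) hK
  have h2 : (fun x => (f⁻¹ : Equiv.Perm E3) x) '' K = (fun x => f x) ⁻¹' K := by
    ext x
    constructor
    · rintro ⟨y, hy, rfl⟩
      simpa using hy
    · intro hx
      exact ⟨f x, hx, by simp⟩
  rw [← h2, h1]

theorem measurableSet_cube : MeasurableSet Cube := by
  have : Cube = Set.pi univ (fun _ : Fin 3 => Set.Ioo (0 : ℝ) 1) := by
    ext x; simp [Cube, Box]
  rw [this]
  exact MeasurableSet.univ_pi fun _ => measurableSet_Ioo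

namespace App

theorem refl (s : Equiv.Perm E3) {v : ℝ} (hv : 0 < v) : App s s v :=
  ⟨∅, isClosed_empty, by simpa using hv, fun _ _ _ => rfl⟩

theorem mono {s : Equiv.Perm E3} {T : E3 → E3} {v w : ℝ} (h : App s T v) (hvw : v ≤ w) :
    App s T w := by
  obtain ⟨K, h1, h2, h3⟩ := h
  exact ⟨K, h1, lt_of_lt_of_le h2 (ENNReal.ofReal_le_ofReal hvw), h3⟩

theorem pos {s : Equiv.Perm E3} {T : E3 → E3} {v : ℝ} (h : App s T v) : 0 < v := by
  obtain ⟨K, -, h2, -⟩ := h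
  by_contra hv
  rw [ENNReal.ofReal_of_nonpos (not_lt.1 hv)] at h2
  exact not_lt_bot h2

theorem union_lt {A B : Set E3} {v w : ℝ} (hv : 0 < v) (hw : 0 < w)
    (hA : volume A < ENNReal.ofReal v) (hB : volume B < ENNReal.ofReal w) :
    volume (A ∪ B) < ENNReal.ofReal (v + w) := by
  rw [ENNReal.ofReal_add hv.le hw.le]
  exact lt_of_le_of_lt (measure_union_le _ _) (ENNReal.add_lt_add hA hB)

/-- composition -/
theorem mul (hΓ : Good Γ) {s t : Equiv.Perm E3} {T S : E3 → E3} {v w : ℝ} (ht : t ∈ Γ)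
    (h1 : App s T v) (h2 : App t S w) : App (s * t) (fun x => T (S x)) (v + w) := by
  have hv := h1.pos
  have hw := h2.pos
  obtain ⟨K, c1, m1, e1⟩ := h1
  obtain ⟨L, c2, m2, e2⟩ := h2
  refine ⟨(fun x => t x) ⁻¹' K ∪ L, (c1.preimage (hΓ.continuous ht)).union c2, ?_, ?_⟩
  · rw [union_inter_distrib_right]
    refine union_lt hv hw ?_ m2
    have : (fun x => t x) ⁻¹' K ∩ Cube = (fun x => t x) ⁻¹' (K ∩ Cube) := by
      ext x
      simp only [mem_inter_iff, mem_preimage, hΓ.cube_iff ht]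
    rw [this, hΓ.vol_preimage ht (c1.measurableSet.inter measurableSet_cube)]
    exact m1
  · intro x hx hn
    rw [mem_union, not_or] at hn
    have h3 : t x = S x := e2 x hx hn.2
    have h4 : s (t x) = T (t x) := e1 _ ((hΓ.cube_iff ht x).2 hx) hn.1
    rw [Equiv.Perm.mul_apply, h4, h3]

theorem inv (hΓ : Good Γ) {s T : Equiv.Perm E3} {v : ℝ} (hs : s ∈ Γ)
    (h : App s (fun x => T x) v) : App s⁻¹ (fun x => T⁻¹ x) v := by
  obtain ⟨K, c1, m1, e1⟩ := h
  have hs' := Γ.inv_mem hs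
  refine ⟨(fun x => s⁻¹ x) ⁻¹' K, c1.preimage (hΓ.continuous hs'), ?_, ?_⟩
  · have : (fun x => s⁻¹ x) ⁻¹' K ∩ Cube = (fun x => s⁻¹ x) ⁻¹' (K ∩ Cube) := by
      ext x
      simp only [mem_inter_iff, mem_preimage, hΓ.cube_iff hs']
    rw [this, hΓ.vol_preimage hs' (c1.measurableSet.inter measurableSet_cube)]
    exact m1
  · intro y hy hn
    have h3 := e1 (s⁻¹ y) ((hΓ.cube_iff hs' y).2 hy) hn
    have h4 : s (s⁻¹ y) = y := by simp
    rw [h4] at h3
    have h5 : T⁻¹ y = T⁻¹ (T (s⁻¹ y)) := congrArg _ h3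
    have h6 : T⁻¹ (T (s⁻¹ y)) = s⁻¹ y := by simp
    exact (h5.trans h6).symm

/-- change of the limit map -/
theorem trans {s T : Equiv.Perm E3} {T' : E3 → E3} {v w : ℝ} (h1 : App s (fun x => T x) v)
    (h2 : App T T' w) : App s T' (v + w) := by
  have hv := h1.pos
  have hw := h2.pos
  obtain ⟨K, c1, m1, e1⟩ := h1
  obtain ⟨L, c2, m2, e2⟩ := h2
  refine ⟨K ∪ L, c1.union c2, ?_, ?_⟩
  · rw [union_inter_distrib_right]
    exact union_lt hv hw m1 m2
  · intro x hx hn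
    rw [mem_union, not_or] at hn
    exact (e1 x hx hn.1).trans (e2 x hx hn.2)

theorem pow (hΓ : Good Γ) (k : ℕ) : ∀ v : ℝ, 0 < v → ∃ w : ℝ, 0 < w ∧
    ∀ s ∈ Γ, ∀ T : Equiv.Perm E3, App s (fun x => T x) w →
      App (s ^ k) (fun x => (T ^ k) x) v := by
  induction k with
  | zero =>
    intro v hv
    refine ⟨1, one_pos, fun s _ T _ => ?_⟩
    rw [pow_zero, pow_zero]
    exact refl (1 : Equiv.Perm E3) hv
  | succ k ih =>
    intro v hv
    obtain ⟨w, hw, h⟩ := ih (v / 2) (half_pos hv)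
    refine ⟨min w (v / 2), lt_min hw (half_pos hv), fun s hs T hT => ?_⟩
    have h1 := h s hs T (hT.mono (min_le_left _ _))
    have h2 := mul hΓ hs h1 (hT.mono (min_le_right _ _))
    have e : v / 2 + v / 2 = v := by ring
    rw [e] at h2
    simpa [pow_succ] using h2

theorem zpow (hΓ : Good Γ) (k : ℤ) : ∀ v : ℝ, 0 < v → ∃ w : ℝ, 0 < w ∧
    ∀ s ∈ Γ, ∀ T : Equiv.Perm E3, App s (fun x => T x) w →
      App (s ^ k) (fun x => (T ^ k) x) v := by
  intro v hv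
  obtain ⟨n, rfl | rfl⟩ := k.eq_nat_or_neg
  · obtain ⟨w, hw, h⟩ := pow hΓ n v hv
    exact ⟨w, hw, fun s hs T hT => by simpa using h s hs T hT⟩
  · obtain ⟨w, hw, h⟩ := pow hΓ n v hv
    refine ⟨w, hw, fun s hs T hT => ?_⟩
    have h1 := inv hΓ (Γ.pow_mem hs n) (h s hs T hT)
    simpa using h1

end App

/-- the group of approximable permutations -/
def hatG (hΓ : Good Γ) : Subgroup (Equiv.Perm E3) where
  carrier := {T | ∀ v : ℝ, 0 < v → ∃ s ∈ Γ, App s (fun x => T x) v}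
  mul_mem' := by
    intro T S hT hS v hv
    obtain ⟨s, hs, h1⟩ := hT (v / 2) (half_pos hv)
    obtain ⟨t, ht, h2⟩ := hS (v / 2) (half_pos hv)
    refine ⟨s * t, Γ.mul_mem hs ht, ?_⟩
    have h3 := App.mul hΓ ht h1 h2
    have e : v / 2 + v / 2 = v := by ring
    rw [e] at h3
    exact h3
  one_mem' := by
    intro v hv
    exact ⟨1, Γ.one_mem, App.refl 1 hv⟩
  inv_mem' := by
    intro T hT v hv
    obtain ⟨s, hs, h1⟩ := hT v hv
    exact ⟨s⁻¹, Γ.inv_mem hs, App.inv hΓ hs h1⟩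

theorem mem_hatG {hΓ : Good Γ} {T : Equiv.Perm E3} :
    T ∈ hatG hΓ ↔ ∀ v : ℝ, 0 < v → ∃ s ∈ Γ, App s (fun x => T x) v := Iff.rfl

theorem le_hatG (hΓ : Good Γ) : Γ ≤ hatG hΓ := fun s hs _ hv => ⟨s, hs, App.refl s hv⟩

/-- two good approximations give nearly the same coboundary -/
theorem UC.key (hΓ : Good Γ) (hU : UC Γ φ) : ∀ ε : ℝ, 0 < ε → ∃ v : ℝ, 0 < v ∧
    ∀ T S : E3 → E3, ∀ s ∈ Γ, ∀ s' ∈ Γ, ∀ t ∈ Γ, ∀ t' ∈ Γ, App s T v → App s' T v →
      App t S v → App t' S v → |dphi φ s' t' - dphi φ s t| ≤ ε := by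
  intro ε hε
  obtain ⟨v, hv, h⟩ := hU ε hε
  refine ⟨v / 4, by positivity, ?_⟩
  intro T S s hs s' hs' t ht t' ht' h1 h2 h3 h4
  obtain ⟨K1, c1, m1, e1⟩ := h1
  obtain ⟨K2, c2, m2, e2⟩ := h2
  obtain ⟨K3, c3, m3, e3⟩ := h3
  obtain ⟨K4, c4, m4, e4⟩ := h4
  have hu : s⁻¹ * s' ∈ Γ := Γ.mul_mem (Γ.inv_mem hs) hs'
  have hw : t⁻¹ * t' ∈ Γ := Γ.mul_mem (Γ.inv_mem ht) ht'
  obtain ⟨Ku, su, cu, eu⟩ := hΓ.supp _ hu
  obtain ⟨Kw, sw, cw, ew⟩ := hΓ.supp _ hw
  set L : Set E3 := ((K1 ∪ K2) ∪ (K3 ∪ K4)) ∩ (Ku ∪ Kw) with hL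
  have hLC : L ⊆ Cube := fun x hx => by
    rcases hx.2 with h5 | h5
    · exact su h5
    · exact sw h5
  have hLc : IsCompact L :=
    (cu.union cw).inter_left ((c1.union c2).union (c3.union c4))
  have hLm : volume L < ENNReal.ofReal v := by
    have hsub : L ⊆ ((K1 ∩ Cube) ∪ (K2 ∩ Cube)) ∪ ((K3 ∩ Cube) ∪ (K4 ∩ Cube)) := by
      intro x hx
      have hxC := hLC hx
      rcases hx.1 with (h5 | h5) | (h5 | h5)
      · exact Or.inl (Or.inl ⟨h5, hxC⟩)
      · exact Or.inl (Or.inr ⟨h5, hxC⟩)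
      · exact Or.inr (Or.inl ⟨h5, hxC⟩)
      · exact Or.inr (Or.inr ⟨h5, hxC⟩)
    refine lt_of_le_of_lt (measure_mono hsub) ?_
    have a1 := App.union_lt (by positivity) (by positivity) m1 m2
    have a2 := App.union_lt (by positivity) (by positivity) m3 m4
    have a3 := App.union_lt (by positivity) (by positivity) a1 a2
    have e : v / 4 + v / 4 + (v / 4 + v / 4) = v := by ring
    rw [e] at a3
    exact a3
  have iu : IdOff L (s⁻¹ * s') := by
    intro x hx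
    by_cases hxu : x ∈ Ku
    · have hxC := su hxu
      have hn1 : x ∉ K1 := fun h5 => hx ⟨Or.inl (Or.inl h5), Or.inl hxu⟩
      have hn2 : x ∉ K2 := fun h5 => hx ⟨Or.inl (Or.inr h5), Or.inl hxu⟩
      have h5 : s' x = s x := by rw [e2 x hxC hn2, e1 x hxC hn1]
      rw [Equiv.Perm.mul_apply, h5]
      simp
    · exact eu x hxu
  have iw : IdOff L (t⁻¹ * t') := by
    intro x hx
    by_cases hxu : x ∈ Kw
    · have hxC := sw hxu
      have hn1 : x ∉ K3 := fun h5 => hx ⟨Or.inr (Or.inl h5), Or.inr hxu⟩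
      have hn2 : x ∉ K4 := fun h5 => hx ⟨Or.inr (Or.inr h5), Or.inr hxu⟩
      have h5 : t' x = t x := by rw [e4 x hxC hn2, e3 x hxC hn1]
      rw [Equiv.Perm.mul_apply, h5]
      simp
    · exact ew x hxu
  have h5 := h s hs t ht (s⁻¹ * s') hu (t⁻¹ * t') hw L hLC hLc hLm iu iw
  simpa [mul_inv_cancel_left] using h5

/-- a sequence of approximations -/
noncomputable def apx (hΓ : Good Γ) (T : hatG hΓ) (n : ℕ) : Equiv.Perm E3 :=
  Classical.choose (T.2 (1 / ((n : ℝ) + 1)) (by positivity))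

theorem apx_mem (hΓ : Good Γ) (T : hatG hΓ) (n : ℕ) : apx hΓ T n ∈ Γ :=
  (Classical.choose_spec (T.2 (1 / ((n : ℝ) + 1)) (by positivity))).1

theorem apx_app (hΓ : Good Γ) (T : hatG hΓ) (n : ℕ) :
    App (apx hΓ T n) (fun x => T.1 x) (1 / ((n : ℝ) + 1)) :=
  (Classical.choose_spec (T.2 (1 / ((n : ℝ) + 1)) (by positivity))).2

/-- the extended cocycle -/
noncomputable def cc (hΓ : Good Γ) (φ : Equiv.Perm E3 → ℝ) (T S : hatG hΓ) : ℝ :=
  limUnder atTop (fun n : ℕ => dphi φ (apx hΓ T n) (apx hΓ S n))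

theorem cc_tendsto (hΓ : Good Γ) (hU : UC Γ φ) (T S : hatG hΓ) :
    Tendsto (fun n : ℕ => dphi φ (apx hΓ T n) (apx hΓ S n)) atTop (𝓝 (cc hΓ φ T S)) := by
  refine CauchySeq.tendsto_limUnder ?_
  rw [Metric.cauchySeq_iff]
  intro ε hε
  obtain ⟨v, hv, h⟩ := hU.key hΓ (ε / 2) (half_pos hε)
  obtain ⟨N, hN⟩ := exists_nat_gt (1 / v)
  have hN' : ∀ n ≥ N, 1 / ((n : ℝ) + 1) ≤ v := by
    intro n hn
    have h1 : (1 / v) < (n : ℝ) + 1 := by
      have : (N : ℝ) ≤ n := by exact_mod_cast hn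
      linarith
    rw [div_lt_iff₀ hv] at h1
    rw [div_le_iff₀ (by positivity)]
    linarith
  refine ⟨N, fun m hm n hn => ?_⟩
  rw [Real.dist_eq]
  have := h (fun x => T.1 x) (fun x => S.1 x) _ (apx_mem hΓ T n) _ (apx_mem hΓ T m) _
    (apx_mem hΓ S n) _ (apx_mem hΓ S m) ((apx_app hΓ T n).mono (hN' n hn))
    ((apx_app hΓ T m).mono (hN' m hm)) ((apx_app hΓ S n).mono (hN' n hn))
    ((apx_app hΓ S m).mono (hN' m hm))
  linarith

/-- main estimate -/
theorem cc_near (hΓ : Good Γ) (hU : UC Γ φ) : ∀ ε : ℝ, 0 < ε → ∃ v : ℝ, 0 < v ∧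
    ∀ T S : hatG hΓ, ∀ s ∈ Γ, ∀ t ∈ Γ, App s (fun x => T.1 x) v → App t (fun x => S.1 x) v →
      |dphi φ s t - cc hΓ φ T S| ≤ ε := by
  intro ε hε
  obtain ⟨v, hv, h⟩ := hU.key hΓ ε hε
  refine ⟨v, hv, fun T S s hs t ht h1 h2 => ?_⟩
  obtain ⟨N, hN⟩ := exists_nat_gt (1 / v)
  have hN' : ∀ n ≥ N, 1 / ((n : ℝ) + 1) ≤ v := by
    intro n hn
    have h1 : (1 / v) < (n : ℝ) + 1 := by
      have : (N : ℝ) ≤ n := by exact_mod_cast hn
      linarith
    rw [div_lt_iff₀ hv] at h1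
    rw [div_le_iff₀ (by positivity)]
    linarith
  have hlim : Tendsto (fun n : ℕ => |dphi φ s t - dphi φ (apx hΓ T n) (apx hΓ S n)|) atTop
      (𝓝 |dphi φ s t - cc hΓ φ T S|) :=
    ((tendsto_const_nhds).sub (cc_tendsto hΓ hU T S)).abs
  refine le_of_tendsto hlim ?_
  filter_upwards [eventually_ge_atTop N] with n hn
  exact h (fun x => T.1 x) (fun x => S.1 x) _ (apx_mem hΓ T n) _ hs _ (apx_mem hΓ S n) _ ht
    ((apx_app hΓ T n).mono (hN' n hn)) h1 ((apx_app hΓ S n).mono (hN' n hn)) h2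

/-- a number which is `≤ ε` for all `ε > 0` -/
theorem le_of_eps {a b : ℝ} (h : ∀ ε : ℝ, 0 < ε → a ≤ b + ε) : a ≤ b :=
  le_of_forall_pos_le_add h

/-- `cc` extends `dphi φ` -/
theorem cc_eq (hΓ : Good Γ) (hU : UC Γ φ) (f g : hatG hΓ) (hf : f.1 ∈ Γ) (hg : g.1 ∈ Γ) :
    cc hΓ φ f g = dphi φ f.1 g.1 := by
  have h : |dphi φ f.1 g.1 - cc hΓ φ f g| ≤ 0 := by
    apply le_of_eps
    intro ε hε
    obtain ⟨v, hv, h⟩ := cc_near hΓ hU ε hε
    have := h f g f.1 hf g.1 hg (App.refl _ hv) (App.refl _ hv)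
    linarith
  have := abs_nonpos_iff.1 h
  linarith

/-- uniform continuity of `cc` -/
theorem cc_cont (hΓ : Good Γ) (hU : UC Γ φ) : ∀ ε : ℝ, 0 < ε → ∃ v : ℝ, 0 < v ∧
    ∀ T T' S S' : hatG hΓ, App T.1 (fun x => T'.1 x) v → App S.1 (fun x => S'.1 x) v →
      |cc hΓ φ T S - cc hΓ φ T' S'| ≤ ε := by
  intro ε hε
  obtain ⟨v, hv, h⟩ := cc_near hΓ hU (ε / 2) (half_pos hε)
  refine ⟨v / 2, half_pos hv, fun T T' S S' h1 h2 => ?_⟩
  obtain ⟨s, hs, h3⟩ := T.2 (v / 2) (half_pos hv)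
  obtain ⟨t, ht, h4⟩ := S.2 (v / 2) (half_pos hv)
  have e : v / 2 + v / 2 = v := by ring
  have h5 := h3.trans h1
  have h6 := h4.trans h2
  rw [e] at h5 h6
  have a1 := h T S s hs t ht (h3.mono (by linarith)) (h4.mono (by linarith))
  have a2 := h T' S' s hs t ht h5 h6
  have a3 : cc hΓ φ T S - cc hΓ φ T' S'
      = (dphi φ s t - cc hΓ φ T' S') - (dphi φ s t - cc hΓ φ T S) := by ring
  rw [a3]
  calc _ ≤ |dphi φ s t - cc hΓ φ T' S'| + |dphi φ s t - cc hΓ φ T S| := abs_sub _ _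
    _ ≤ ε := by linarith

/-- `cc` only depends on the maps off closed null sets -/
theorem cc_congr (hΓ : Good Γ) (hU : UC Γ φ) {T T' S S' : hatG hΓ}
    (h1 : ∀ v : ℝ, 0 < v → App T.1 (fun x => T'.1 x) v)
    (h2 : ∀ v : ℝ, 0 < v → App S.1 (fun x => S'.1 x) v) :
    cc hΓ φ T S = cc hΓ φ T' S' := by
  have h : |cc hΓ φ T S - cc hΓ φ T' S'| ≤ 0 := by
    apply le_of_eps
    intro ε hε
    obtain ⟨v, hv, h⟩ := cc_cont hΓ hU ε hε
    have := h T T' S S' (h1 v hv) (h2 v hv)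
    linarith
  have := abs_nonpos_iff.1 h
  linarith

/-- the extended cocycle is a homogeneous bounded cocycle -/
theorem cc_HC (hΓ : Good Γ) (hφ : HQ Γ φ D) (hU : UC Γ φ) :
    HC (hatG hΓ) (cc hΓ φ) D := by
  refine ⟨?_, ?_, ?_⟩
  · intro x y z
    have h : |(cc hΓ φ x y + cc hΓ φ (x * y) z) - (cc hΓ φ y z + cc hΓ φ x (y * z))| ≤ 0 := by
      apply le_of_eps
      intro ε hε
      obtain ⟨v, hv, h⟩ := cc_near hΓ hU (ε / 4) (by positivity)
      obtain ⟨s, hs, h1⟩ := x.2 (v / 2) (half_pos hv)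
      obtain ⟨t, ht, h2⟩ := y.2 (v / 2) (half_pos hv)
      obtain ⟨r, hr, h3⟩ := z.2 (v / 2) (half_pos hv)
      have e : v / 2 + v / 2 = v := by ring
      have h12 := App.mul hΓ ht h1 h2
      have h23 := App.mul hΓ hr h2 h3
      rw [e] at h12 h23
      have k1 := h1.mono (show v / 2 ≤ v by linarith)
      have k2 := h2.mono (show v / 2 ≤ v by linarith)
      have k3 := h3.mono (show v / 2 ≤ v by linarith)
      have a1 := abs_le.1 (h x y s hs t ht k1 k2)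
      have a2 := abs_le.1 (h (x * y) z (s * t) (Γ.mul_mem hs ht) r hr h12 k3)
      have a3 := abs_le.1 (h y z t ht r hr k2 k3)
      have a4 := abs_le.1 (h x (y * z) s hs (t * r) (Γ.mul_mem ht hr) k1 h23)
      have a5 : dphi φ s t + dphi φ (s * t) r = dphi φ t r + dphi φ s (t * r) := by
        unfold dphi
        rw [mul_assoc]
        ring
      rw [abs_le]
      constructor <;> linarith [a1.1, a1.2, a2.1, a2.2, a3.1, a3.2, a4.1, a4.2]
    have := abs_nonpos_iff.1 h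
    linarith
  · intro x y
    apply le_of_eps
    intro ε hε
    obtain ⟨v, hv, h⟩ := cc_near hΓ hU ε hε
    obtain ⟨s, hs, h1⟩ := x.2 v hv
    obtain ⟨t, ht, h2⟩ := y.2 v hv
    have a1 := abs_le.1 (h x y s hs t ht h1 h2)
    have a2 := abs_le.1 (hφ.bdd s hs t ht)
    unfold dphi at a1
    rw [abs_le]
    constructor <;> linarith [a1.1, a1.2, a2.1, a2.2]
  · intro x m n
    have h : |cc hΓ φ (x ^ m) (x ^ n)| ≤ 0 := by
      apply le_of_eps
      intro ε hε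
      obtain ⟨v, hv, h⟩ := cc_near hΓ hU ε hε
      obtain ⟨w1, hw1, p1⟩ := App.zpow hΓ m v hv
      obtain ⟨w2, hw2, p2⟩ := App.zpow hΓ n v hv
      obtain ⟨s, hs, h1⟩ := x.2 (min w1 w2) (lt_min hw1 hw2)
      have b1 := p1 s hs x.1 (h1.mono (min_le_left _ _))
      have b2 := p2 s hs x.1 (h1.mono (min_le_right _ _))
      have a1 := h (x ^ m) (x ^ n) (s ^ m) (Γ.zpow_mem hs m) (s ^ n) (Γ.zpow_mem hs n)
        (by simpa using b1) (by simpa using b2)
      have a2 : dphi φ (s ^ m) (s ^ n) = 0 := by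
        unfold dphi
        rw [← zpow_add, hφ.hom s hs, hφ.hom s hs, hφ.hom s hs]
        push_cast
        ring
      rw [a2, zero_sub, abs_neg] at a1
      linarith
    exact abs_nonpos_iff.1 h

end Pool.Agent.QM59
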