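import Mathlib
import Pool.Agent.Lib.MP_decea1_gt_D.Hat

/-!
# MP_decea1_gt, block D: rational piecewise affine permutations of the half-open cube

`TTs P`: permutations of `E3` which are the identity off the half-open cube and which, together
with their inverses, are near almost every point of the cube of the form `x ↦ A x + b` with
`A ∈ P ≤ SL_3(ℚ)` and `b` rational. `QQ = TTs ⊥`, `TT = TTs ⊤`.
-/

set_option autoImplicit false

open MeasureTheory Set Filter Topology

namespace Pool.Agent.QM59.D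

/-- the group `SL_3(ℚ)` -/
abbrev SLQ : Type := Matrix.SpecialLinearGroup (Fin 3) ℚ

instance : Countable SLQ := by
  have : Countable (Matrix (Fin 3) (Fin 3) ℚ) :=
    inferInstanceAs (Countable (Fin 3 → Fin 3 → ℚ))
  exact Subtype.countable

/-- the real matrix -/
noncomputable def rm (A : SLQ) : Matrix (Fin 3) (Fin 3) ℝ := A.1.map (Rat.castHom ℝ)

/-- the real vector -/
noncomputable def rv (b : Fin 3 → ℚ) : E3 := fun i => (b i : ℝ)

theorem rm_mul (A B : SLQ) : rm (A * B) = rm A * rm B :=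
  Matrix.map_mul (f := Rat.castHom ℝ)

theorem rm_one : rm 1 = 1 := by
  simp [rm]

theorem rm_det (A : SLQ) : (rm A).det = 1 := by
  have h : (rm A).det = (Rat.castHom ℝ) A.1.det := by
    rw [RingHom.map_det]; rfl
  rw [h, A.2, map_one]

theorem rm_inj {A B : SLQ} (h : rm A = rm B) : A = B := by
  apply Subtype.ext
  ext i j
  have := congrFun (congrFun h i) j
  simpa [rm] using this

theorem rv_inj {b c : Fin 3 → ℚ} (h : rv b = rv c) : b = c := by
  ext i
  have := congrFun h i
  simpa [rv] using this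

theorem rv_zero : rv 0 = 0 := by
  ext i; simp [rv]

theorem rv_add (b c : Fin 3 → ℚ) : rv (b + c) = rv b + rv c := by
  ext i; simp [rv]

theorem rm_rv (A : SLQ) (b : Fin 3 → ℚ) : (rm A).mulVec (rv b) = rv (A.1.mulVec b) := by
  ext i
  simp [rm, rv, Matrix.mulVec, dotProduct]

/-- rational affine maps -/
noncomputable def aff (A : SLQ) (b : Fin 3 → ℚ) (x : E3) : E3 := (rm A).mulVec x + rv b

theorem aff_comp (A B : SLQ) (b c : Fin 3 → ℚ) (x : E3) :
    aff A b (aff B c x) = aff (A * B) (A.1.mulVec c + b) x := by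
  simp only [aff]
  rw [rm_mul, Matrix.mulVec_add, rm_rv, rv_add, Matrix.mulVec_mulVec, add_assoc]

theorem aff_one (x : E3) : aff 1 0 x = x := by
  simp [aff, rm_one, rv_zero]

theorem aff_one_left (b : Fin 3 → ℚ) (x : E3) : aff 1 b x = x + rv b := by
  simp [aff, rm_one]

/-- the translation part of the inverse -/
def ib (A : SLQ) (b : Fin 3 → ℚ) : Fin 3 → ℚ := -((A⁻¹).1.mulVec b)

theorem aff_inv_left (A : SLQ) (b : Fin 3 → ℚ) (x : E3) :
    aff A⁻¹ (ib A b) (aff A b x) = x := by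
  rw [aff_comp, ib, inv_mul_cancel]
  have : (A⁻¹).1.mulVec b + -((A⁻¹).1.mulVec b) = 0 := by simp
  rw [this, aff_one]

theorem aff_inv_right (A : SLQ) (b : Fin 3 → ℚ) (x : E3) :
    aff A b (aff A⁻¹ (ib A b) x) = x := by
  have h := aff_inv_left A b (aff A⁻¹ (ib A b) x)
  rw [aff_comp, ib, mul_inv_cancel]
  have : A.1.mulVec (-((A⁻¹).1.mulVec b)) + b = 0 := by
    rw [Matrix.mulVec_neg, Matrix.mulVec_mulVec]
    have e : A.1 * (A⁻¹).1 = 1 := congrArg Subtype.val (mul_inv_cancel A)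
    rw [e]
    simp
  rw [this, aff_one]

/-- linear part as a continuous linear map -/
noncomputable def lin (A : SLQ) : E3 →L[ℝ] E3 := (Matrix.toLin' (rm A)).toContinuousLinearMap

theorem lin_apply (A : SLQ) (x : E3) : lin A x = (rm A).mulVec x := rfl

theorem lin_det (A : SLQ) : (lin A).det = 1 := by
  have h : (lin A).det = LinearMap.det (Matrix.toLin' (rm A)) := rfl
  rw [h, LinearMap.det_toLin', rm_det]

theorem aff_hasFDerivAt (A : SLQ) (b : Fin 3 → ℚ) (x : E3) : HasFDerivAt (aff A b) (lin A) x := by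
  have h := (lin A).hasFDerivAt (x := x)
  exact h.add_const (rv b)

theorem aff_continuous (A : SLQ) (b : Fin 3 → ℚ) : Continuous (aff A b) :=
  (lin A).continuous.add continuous_const

/-- affine homeomorphisms -/
noncomputable def affH (A : SLQ) (b : Fin 3 → ℚ) : E3 ≃ₜ E3 where
  toFun := aff A b
  invFun := aff A⁻¹ (ib A b)
  left_inv := aff_inv_left A b
  right_inv := aff_inv_right A b
  continuous_toFun := aff_continuous A b
  continuous_invFun := aff_continuous _ _

theorem affH_apply (A : SLQ) (b : Fin 3 → ℚ) (x : E3) : affH A b x = aff A b x := rfl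

theorem aff_null (A : SLQ) (b : Fin 3 → ℚ) {N : Set E3} (hN : volume N = 0) :
    volume (aff A b ⁻¹' N) = 0 := by
  have h1 : aff A b ⁻¹' N = (fun x => Matrix.toLin' (rm A) x) ⁻¹' ((fun y => y + rv b) ⁻¹' N) := by
    ext x; rfl
  have hd : LinearMap.det (Matrix.toLin' (rm A)) ≠ 0 := by
    rw [LinearMap.det_toLin', rm_det]; exact one_ne_zero
  rw [h1, Measure.addHaar_preimage_linearMap volume hd]
  have h2 : volume ((fun y : E3 => y + rv b) ⁻¹' N) = 0 := by
    rw [measure_preimage_add_right]; exact hN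
  rw [h2, mul_zero]

/-- `T` is `y ↦ A y + b` near `x`, `b` rational -/
def RatAt (T : E3 → E3) (A : SLQ) (x : E3) : Prop :=
  ∃ b : Fin 3 → ℚ, ∀ᶠ y in 𝓝 x, T y = aff A b y

namespace RatAt

theorem continuousAt {T : E3 → E3} {A : SLQ} {x : E3} (h : RatAt T A x) : ContinuousAt T x := by
  obtain ⟨b, hb⟩ := h
  exact (aff_continuous A b).continuousAt.congr (hb.mono fun y hy => hy.symm)

theorem hasFDerivAt {T : E3 → E3} {A : SLQ} {x : E3} (h : RatAt T A x) :
    HasFDerivAt T (lin A) x := by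
  obtain ⟨b, hb⟩ := h
  exact (aff_hasFDerivAt A b x).congr_of_eventuallyEq hb

theorem unique {T : E3 → E3} {A B : SLQ} {x : E3} (h : RatAt T A x) (h' : RatAt T B x) :
    A = B := by
  have e := h.hasFDerivAt.unique h'.hasFDerivAt
  apply rm_inj
  apply Matrix.toLin'.injective
  ext1 i
  ext1
  have := congrArg (fun L : E3 →L[ℝ] E3 => L (Pi.single i 1)) e
  simpa [lin] using this

theorem eventually {T : E3 → E3} {A : SLQ} {x : E3} (h : RatAt T A x) :
    ∀ᶠ y in 𝓝 x, RatAt T A y := by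
  obtain ⟨b, hb⟩ := h
  exact hb.eventually_nhds.mono fun y hy => ⟨b, hy⟩

theorem congr {T T' : E3 → E3} {A : SLQ} {x : E3} (h : RatAt T A x)
    (he : ∀ᶠ y in 𝓝 x, T' y = T y) : RatAt T' A x := by
  obtain ⟨b, hb⟩ := h
  exact ⟨b, by filter_upwards [hb, he] with y h1 h2; rw [h2, h1]⟩

protected theorem id (x : E3) : RatAt (fun y => y) 1 x := ⟨0, Eventually.of_forall fun y => (aff_one y).symm⟩

theorem mul {T S : E3 → E3} {A B : SLQ} {x : E3} (hS : RatAt S B x) (hT : RatAt T A (S x)) :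
    RatAt (fun y => T (S y)) (A * B) x := by
  have hc := hS.continuousAt
  obtain ⟨c, hc'⟩ := hS
  obtain ⟨b, hb⟩ := hT
  refine ⟨A.1.mulVec c + b, ?_⟩
  filter_upwards [hc', hc.eventually hb] with y h1 h2
  rw [h2, h1, aff_comp]

/-- local inverses -/
theorem inv {T : Equiv.Perm E3} {A : SLQ} {x : E3} (h : RatAt (fun y => T y) A x) :
    RatAt (fun y => T⁻¹ y) A⁻¹ (T x) := by
  obtain ⟨b, hb⟩ := h
  refine ⟨ib A b, ?_⟩
  have hx : T x = affH A b x := hb.self_of_nhds
  have h1 : Tendsto (affH A b).symm (𝓝 (T x)) (𝓝 x) := by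
    have := (affH A b).symm.continuous.continuousAt (x := T x)
    have e : (affH A b).symm (T x) = x := by rw [hx]; simp
    rw [ContinuousAt, e] at this
    exact this
  filter_upwards [h1.eventually hb] with z hz
  have e1 : aff A b ((affH A b).symm z) = z := (affH A b).apply_symm_apply z
  rw [e1] at hz
  have e2 : T⁻¹ z = (affH A b).symm z := by
    rw [Equiv.Perm.inv_eq_iff_eq]; exact hz.symm
  rw [e2]
  rfl

theorem isOpen (T : E3 → E3) (A : SLQ) : IsOpen {x | RatAt T A x} := by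
  rw [isOpen_iff_mem_nhds]
  intro x hx
  exact RatAt.eventually hx

end RatAt

/-- the half-open cube -/
def H0 : Set E3 := {x | ∀ i, 0 ≤ x i ∧ x i < 1}

theorem cube_sub_H0 : Cube ⊆ H0 := fun x hx i => ⟨(hx i).1.le, (hx i).2⟩

theorem isOpen_cube : IsOpen Cube := by
  have : Cube = Set.pi univ (fun _ : Fin 3 => Set.Ioo (0 : ℝ) 1) := by
    ext x; simp [Cube, Box]
  rw [this]
  exact isOpen_set_pi finite_univ fun _ _ => isOpen_Ioo

theorem volume_cube : volume Cube = 1 := by
  have : Cube = Set.pi univ (fun _ : Fin 3 => Set.Ioo (0 : ℝ) 1) := by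
    ext x; simp [Cube, Box]
  rw [this, volume_pi_pi]
  simp

/-- a point of `H0` which is not in the cube is not interior -/
theorem cube_of_nhds {x : E3} (h : ∀ᶠ y in 𝓝 x, y ∈ H0) : x ∈ Cube := by
  have hx : x ∈ H0 := h.self_of_nhds
  intro i
  refine ⟨?_, (hx i).2⟩
  rcases (hx i).1.lt_or_eq with h1 | h1
  · exact h1
  · exfalso
    have hc : Tendsto (fun t : ℝ => Function.update x i (x i - t)) (𝓝[>] 0) (𝓝 x) := by
      have h2 : Continuous (fun t : ℝ => Function.update x i (x i - t)) :=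
        continuous_const.update i (continuous_const.sub continuous_id)
      have h3 := h2.tendsto 0
      simp only [sub_zero, Function.update_eq_self] at h3
      exact h3.mono_left nhdsWithin_le_nhds
    have h2 := hc.eventually h
    have h3 : ∀ᶠ t : ℝ in 𝓝[>] 0, 0 < t := self_mem_nhdsWithin
    obtain ⟨t, ht1, ht2⟩ := (h2.and h3).exists
    have h4 := (ht1 i).1
    rw [Function.update_self, ← h1] at h4
    linarith

/-- the regular set -/
def Reg (T : E3 → E3) : Set E3 := {x | x ∈ Cube ∧ ∃ A, RatAt T A x}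

theorem Reg.isOpen (T : E3 → E3) : IsOpen (Reg T) := by
  have : Reg T = Cube ∩ ⋃ A, {x | RatAt T A x} := by
    ext x; simp [Reg]
  rw [this]
  exact isOpen_cube.inter (isOpen_iUnion fun A => RatAt.isOpen T A)

theorem Reg.sub (T : E3 → E3) : Reg T ⊆ Cube := fun _ h => h.1

/-- `T` preserves the half-open cube -/
theorem H0_iff {T : Equiv.Perm E3} (hT : ∀ x, x ∉ H0 → T x = x) (x : E3) : T x ∈ H0 ↔ x ∈ H0 := by
  by_cases hx : x ∈ H0
  · refine ⟨fun _ => hx, fun _ => ?_⟩
    by_contra h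
    have h1 := T.injective (hT _ h)
    rw [h1] at h
    exact h hx
  · rw [hT x hx]

/-- `T` maps its regular points into the cube -/
theorem map_reg {T : Equiv.Perm E3} (hT : ∀ x, x ∉ H0 → T x = x) {x : E3} (hx : x ∈ Cube) {A : SLQ}
    (h : RatAt (fun y => T y) A x) : T x ∈ Cube := by
  apply cube_of_nhds
  have h1 := h.inv.continuousAt
  have e : T⁻¹ (T x) = x := by simp
  have h2 : ∀ᶠ z in 𝓝 (T x), T⁻¹ z ∈ Cube := by
    apply h1.eventually
    show ∀ᶠ y in 𝓝 (T⁻¹ (T x)), y ∈ Cube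
    rw [e]
    exact isOpen_cube.mem_nhds hx
  filter_upwards [h2] with z hz
  have := (H0_iff hT (T⁻¹ z)).2 (cube_sub_H0 hz)
  simpa using this

/-- the rational piecewise affine maps with linear parts in `P` -/
structure IsTT (P : Subgroup SLQ) (T : Equiv.Perm E3) : Prop where
  off : ∀ x, x ∉ H0 → T x = x
  reg : ∀ᵐ x ∂(volume.restrict Cube), ∃ A ∈ P, RatAt (fun y => T y) A x
  reg' : ∀ᵐ x ∂(volume.restrict Cube), ∃ A ∈ P, RatAt (fun y => T⁻¹ y) A x

namespace IsTT

variable {P : Subgroup SLQ} {T S : Equiv.Perm E3}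

theorem one : IsTT P 1 :=
  ⟨fun _ _ => rfl, Eventually.of_forall fun x => ⟨1, P.one_mem, RatAt.id x⟩,
    Eventually.of_forall fun x => ⟨1, P.one_mem, RatAt.id x⟩⟩

theorem off' (h : IsTT P T) (x : E3) (hx : x ∉ H0) : T⁻¹ x = x := by
  rw [Equiv.Perm.inv_eq_iff_eq, h.off x hx]

theorem inv (h : IsTT P T) : IsTT P T⁻¹ :=
  ⟨h.off', h.reg', by simpa using h.reg⟩

theorem mono {P' : Subgroup SLQ} (hP : P ≤ P') (h : IsTT P T) : IsTT P' T :=
  ⟨h.off, h.reg.mono fun _ ⟨A, hA, hr⟩ => ⟨A, hP hA, hr⟩,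
    h.reg'.mono fun _ ⟨A, hA, hr⟩ => ⟨A, hP hA, hr⟩⟩

/-- quasi-invariance: preimages of null sets are null (on regular points) -/
theorem null_of_rat (T : E3 → E3) {N : Set E3} (hN : volume N = 0) :
    volume {x | (∃ A, RatAt T A x) ∧ T x ∈ N} = 0 := by
  have hsub : {x | (∃ A, RatAt T A x) ∧ T x ∈ N}
      ⊆ ⋃ A : SLQ, ⋃ b : Fin 3 → ℚ, aff A b ⁻¹' N := by
    rintro x ⟨⟨A, b, hb⟩, hx⟩
    simp only [mem_iUnion, mem_preimage]
    refine ⟨A, b, ?_⟩
    rw [← hb.self_of_nhds]
    exact hx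
  refine measure_mono_null hsub ?_
  rw [measure_iUnion_null_iff]
  intro A
  rw [measure_iUnion_null_iff]
  intro b
  exact aff_null A b hN

/-- (QI) for `T` in `TT`: the preimage of a null set is null in the cube -/
theorem qi (h : IsTT P T) {N : Set E3} (hN : volume N = 0) :
    volume {x | x ∈ Cube ∧ T x ∈ N} = 0 := by
  have h1 := null_of_rat (fun y => T y) hN
  have h2 : volume {x | x ∈ Cube ∧ ¬ ∃ A, RatAt (fun y => T y) A x} = 0 := by
    have := h.reg
    rw [ae_restrict_iff' measurableSet_cube, ae_iff] at this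
    refine measure_mono_null ?_ this
    rintro x ⟨hx, hn⟩
    simp only [mem_ofPred_eq, Classical.not_imp]
    exact ⟨hx, fun ⟨A, _, hr⟩ => hn ⟨A, hr⟩⟩
  refine measure_mono_null ?_ (measure_union_null h1 h2)
  rintro x ⟨hx, hn⟩
  by_cases hr : ∃ A, RatAt (fun y => T y) A x
  · exact Or.inl ⟨hr, hn⟩
  · exact Or.inr ⟨hx, hr⟩

/-- pull back of an almost everywhere property of the cube -/
theorem ae_comp (h : IsTT P T) {p : E3 → Prop} (hp : ∀ᵐ x ∂(volume.restrict Cube), p x) :
    ∀ᵐ x ∂(volume.restrict Cube), p (T x) := by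
  have hN : volume {x | ¬ (x ∈ Cube → p x)} = 0 := by
    have := hp
    rw [ae_restrict_iff' measurableSet_cube, ae_iff] at this
    exact this
  have h1 := h.qi hN
  have h2 := h.reg
  rw [ae_restrict_iff' measurableSet_cube] at h2 ⊢
  have h3 : ∀ᵐ x ∂(volume : Measure E3), ¬ (x ∈ Cube ∧ T x ∈ {x | ¬ (x ∈ Cube → p x)}) := by
    rw [ae_iff]
    simpa using h1
  filter_upwards [h2, h3] with x h4 h5 hx
  obtain ⟨A, -, hr⟩ := h4 hx
  have h6 := map_reg h.off hx hr
  by_contra hn
  exact h5 ⟨hx, fun h7 => hn (h7 h6)⟩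

theorem mul (h : IsTT P T) (h' : IsTT P S) : IsTT P (T * S) := by
  have key : ∀ {T S : Equiv.Perm E3}, IsTT P T → IsTT P S →
      ∀ᵐ x ∂(volume.restrict Cube), ∃ A ∈ P, RatAt (fun y => (T * S) y) A x := by
    intro T S h h'
    filter_upwards [h'.reg, h'.ae_comp h.reg] with x h1 h2
    obtain ⟨B, hB, hr⟩ := h1
    obtain ⟨A, hA, hr'⟩ := h2
    exact ⟨A * B, P.mul_mem hA hB, RatAt.mul (T := fun y => T y) (S := fun y => S y) hr hr'⟩
  refine ⟨fun x hx => ?_, key h h', ?_⟩
  · rw [Equiv.Perm.mul_apply, h'.off x hx, h.off x hx]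
  · rw [mul_inv_rev]
    exact key h'.inv h.inv

end IsTT

/-- the group of rational piecewise affine maps with linear parts in `P` -/
def TTs (P : Subgroup SLQ) : Subgroup (Equiv.Perm E3) where
  carrier := {T | IsTT P T}
  mul_mem' h h' := IsTT.mul h h'
  one_mem' := IsTT.one
  inv_mem' h := IsTT.inv h

theorem mem_TTs {P : Subgroup SLQ} {T : Equiv.Perm E3} : T ∈ TTs P ↔ IsTT P T := Iff.rfl

theorem TTs_mono {P P' : Subgroup SLQ} (h : P ≤ P') : TTs P ≤ TTs P' := fun _ hT => hT.mono h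

/-- all rational piecewise affine maps -/
abbrev TT : Subgroup (Equiv.Perm E3) := TTs ⊤

/-- piecewise translations by rational vectors -/
abbrev QQ : Subgroup (Equiv.Perm E3) := TTs ⊥

theorem QQ_le : QQ ≤ TT := TTs_mono bot_le

/-- the regular set has full measure -/
theorem IsTT.volume_reg {P : Subgroup SLQ} {T : Equiv.Perm E3} (h : IsTT P T) :
    volume (Cube \ Reg (fun y => T y)) = 0 := by
  have := h.reg
  rw [ae_restrict_iff' measurableSet_cube, ae_iff] at this
  refine measure_mono_null ?_ this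
  rintro x ⟨hx, hn⟩
  simp only [mem_ofPred_eq, Classical.not_imp]
  exact ⟨hx, fun ⟨A, _, hr⟩ => hn ⟨hx, A, hr⟩⟩

/-- `T` preserves the measure of the measurable subsets of the regular set -/
theorem IsTT.vol_image {P : Subgroup SLQ} {T : Equiv.Perm E3} (_h : IsTT P T) {K : Set E3}
    (hK : MeasurableSet K) (hKr : K ⊆ Reg (fun y => T y)) :
    volume ((fun y => T y) '' K) = volume K := by
  have h1 := lintegral_abs_det_fderiv_eq_addHaar_image (volume : Measure E3) hK
    (f := fun x => T x) (f' := fun x => fderiv ℝ (fun x => T x) x)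
    (fun x hx => by
      obtain ⟨-, A, hr⟩ := hKr hx
      exact hr.hasFDerivAt.differentiableAt.hasFDerivAt.hasFDerivWithinAt) T.injective.injOn
  rw [← h1]
  have h2 : ∫⁻ x in K, ENNReal.ofReal |(fderiv ℝ (fun x => T x) x).det|
      = ∫⁻ _ in K, 1 := by
    apply setLIntegral_congr_fun hK
    intro x hx
    obtain ⟨-, A, hr⟩ := hKr hx
    simp only
    rw [hr.hasFDerivAt.fderiv, lin_det]
    simp
  rw [h2]
  simp

end Pool.Agent.QM59.D
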