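import Mathlib
import Pool.Agent.Lib.MP_decea1_gt_Q0.Defs
import Pool.Agent.Lib.MP_decea1_gt_D.HC
import Pool.Agent.Lib.MP_decea1_gt_D.Hat
import Pool.Agent.Lib.MP_decea1_gt_D.TT

/-!
# MP_decea1_gt, block D: families of rational cubes, labels (definitions)

`TG` = the group `TT` as a type.  All later files of the exact part work with `T : TG` and with an
abstract homogeneous bounded cocycle `c` on `TG` which is continuous (`Cont`).
-/

set_option autoImplicit false

open MeasureTheory Set Filter Topology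

namespace Pool.Agent.QM59.D

/-- the group of rational piecewise affine maps, as a type -/
abbrev TG : Type := ↥(TTs (⊤ : Subgroup SLQ))

/-- the elements with linear part one -/
def QQG : Subgroup TG := (TTs (⊥ : Subgroup SLQ)).subgroupOf (TTs (⊤ : Subgroup SLQ))

/-- rational cubes: corner and side -/
abbrev Cb : Type := (Fin 3 → ℚ) × ℚ

/-- open cube -/
def oc (c : Cb) : Set E3 := {x | ∀ i, ((c.1 i : ℚ) : ℝ) < x i ∧ x i < (c.1 i : ℝ) + (c.2 : ℝ)}

/-- half-open cube -/
def hc (c : Cb) : Set E3 := {x | ∀ i, ((c.1 i : ℚ) : ℝ) ≤ x i ∧ x i < (c.1 i : ℝ) + (c.2 : ℝ)}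

/-- a (countable) family of disjoint half-open rational cubes in `H0` of full measure -/
structure CFam (F : Set Cb) : Prop where
  pos : ∀ c ∈ F, 0 < c.2
  sub : ∀ c ∈ F, hc c ⊆ H0
  disj : F.PairwiseDisjoint hc
  full : ∀ᵐ x ∂(volume.restrict Cube), ∃ c ∈ F, x ∈ oc c

/-- `T` preserves the cubes of `F` (almost everywhere) and has the constant linear part `g c` on
the cube `c` -/
def Lbl (F : Set Cb) (g : Cb → SLQ) (T : Equiv.Perm E3) : Prop :=
  ∀ c ∈ F, ∀ᵐ x ∂(volume.restrict (oc c)), T x ∈ oc c ∧ RatAt (fun y => T y) (g c) x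

/-- the exact form: moreover `T` preserves the half-open cubes exactly and is the identity off
their union -/
def PP (F : Set Cb) (T : Equiv.Perm E3) : Prop :=
  (∃ g : Cb → SLQ, Lbl F g T) ∧ (∀ c ∈ F, ∀ x, T x ∈ hc c ↔ x ∈ hc c) ∧
    ∀ x, (∀ c ∈ F, x ∉ hc c) → T x = x

/-- transvections generate `SL_3(ℚ)` (statement; proved with THEOREM SL) -/
def Gen : Prop := Subgroup.closure {A : SLQ | ∃ (i j : Fin 3) (hij : i ≠ j) (t : ℚ),
      A = Matrix.SpecialLinearGroup.transvection hij t} = ⊤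

/-- THEOREM SL (statement) -/
def SLZ : Prop := ∀ (c : SLQ → SLQ → ℝ) (D : ℝ), HC SLQ c D → ∀ x y, c x y = 0

/-- `T` is the identity off the half-open cube `hc c` and has the linear part `A` almost everywhere
on `oc c` -/
def OC (c : Cb) (A : SLQ) (T : TG) : Prop :=
  IdOff (hc c) T.1 ∧ ∀ᵐ x ∂(volume.restrict (oc c)), RatAt (fun y => T.1 y) A x

/-- `R` is the restriction of `L` to the cubes of the finite set `S` -/
def Res (S : Finset Cb) (L R : Equiv.Perm E3) : Prop :=
  (∀ c ∈ S, ∀ x ∈ hc c, R x = L x) ∧ ∀ x, (∀ c ∈ S, x ∉ hc c) → R x = x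

/-- continuity of a cocycle on `TG` -/
def Cont (c : TG → TG → ℝ) : Prop :=
  ∀ ε : ℝ, 0 < ε → ∃ v : ℝ, 0 < v ∧ ∀ T T' S S' : TG,
    App T.1 (fun x => T'.1 x) v → App S.1 (fun x => S'.1 x) v → |c T S - c T' S'| ≤ ε

end Pool.Agent.QM59.D
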