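import Mathlib
import Pool.Agent.Lib.MP_decea1_gt_D.Fam

/-!
# MP_decea1_gt, block D, module FamB: elementary facts on cubes and families
-/

set_option autoImplicit false

open MeasureTheory Set Filter Topology

namespace Pool.Agent.QM59.D

private theorem oc_eq (c : Cb) : oc c = Set.pi univ
    (fun i : Fin 3 => Set.Ioo ((c.1 i : ℚ) : ℝ) ((c.1 i : ℝ) + (c.2 : ℝ))) := by
  ext x
  simp [oc]

private theorem hc_eq (c : Cb) : hc c = Set.pi univ
    (fun i : Fin 3 => Set.Ico ((c.1 i : ℚ) : ℝ) ((c.1 i : ℝ) + (c.2 : ℝ))) := by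
  ext x
  simp [hc]

private theorem plane_null (i : Fin 3) (t : ℝ) : volume {x : E3 | x i = t} = 0 :=
  Measure.pi_hyperplane (fun _ : Fin 3 => (volume : Measure ℝ)) i t

theorem isOpen_oc (c : Cb) : IsOpen (oc c) := by
  rw [oc_eq]
  exact isOpen_set_pi finite_univ fun _ _ => isOpen_Ioo

theorem measurableSet_oc (c : Cb) : MeasurableSet (oc c) := (isOpen_oc c).measurableSet

theorem measurableSet_hc (c : Cb) : MeasurableSet (hc c) := by
  rw [hc_eq]
  exact MeasurableSet.univ_pi fun i => measurableSet_Ico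

theorem oc_subset_hc (c : Cb) : oc c ⊆ hc c := fun _ hx i => ⟨(hx i).1.le, (hx i).2⟩

theorem volume_oc (c : Cb) (h : 0 ≤ c.2) : volume (oc c) = ENNReal.ofReal ((c.2 : ℝ) ^ 3) := by
  have h' : (0 : ℝ) ≤ (c.2 : ℝ) := by exact_mod_cast h
  rw [oc_eq, volume_pi_pi]
  simp only [Real.volume_Ioo, add_sub_cancel_left, Finset.prod_const, Finset.card_univ,
    Fintype.card_fin]
  rw [ENNReal.ofReal_pow h']

theorem volume_hc (c : Cb) (h : 0 ≤ c.2) : volume (hc c) = ENNReal.ofReal ((c.2 : ℝ) ^ 3) := by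
  have h' : (0 : ℝ) ≤ (c.2 : ℝ) := by exact_mod_cast h
  rw [hc_eq, volume_pi_pi]
  simp only [Real.volume_Ico, add_sub_cancel_left, Finset.prod_const, Finset.card_univ,
    Fintype.card_fin]
  rw [ENNReal.ofReal_pow h']

/-- the boundary of a cube is a null set -/
theorem volume_hc_diff_oc (c : Cb) : volume (hc c \ oc c) = 0 := by
  refine measure_mono_null (t := ⋃ i : Fin 3, {x : E3 | x i = ((c.1 i : ℚ) : ℝ)}) ?_ ?_
  · rintro x ⟨h1, h2⟩
    by_contra h3
    apply h2
    intro i
    refine ⟨lt_of_le_of_ne (h1 i).1 ?_, (h1 i).2⟩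
    intro h4
    exact h3 (mem_iUnion.2 ⟨i, h4.symm⟩)
  · rw [measure_iUnion_null_iff]
    exact fun i => plane_null i _

/-- `H0 \ Cube` is a null set -/
theorem volume_H0_diff_Cube : volume (H0 \ Cube) = 0 := by
  refine measure_mono_null (t := ⋃ i : Fin 3, {x : E3 | x i = 0}) ?_ ?_
  · rintro x ⟨h1, h2⟩
    by_contra h3
    apply h2
    intro i
    refine ⟨lt_of_le_of_ne (h1 i).1 ?_, (h1 i).2⟩
    intro h4
    exact h3 (mem_iUnion.2 ⟨i, h4.symm⟩)
  · rw [measure_iUnion_null_iff]
    exact fun i => plane_null i _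

theorem oc_subset_Cube {c : Cb} (hs : hc c ⊆ H0) (hp : 0 < c.2) : oc c ⊆ Cube := by
  have hp' : (0 : ℝ) < (c.2 : ℝ) := by exact_mod_cast hp
  have h1 : (fun i => ((c.1 i : ℚ) : ℝ)) ∈ hc c := fun i => ⟨le_rfl, by simpa using hp'⟩
  intro x hx i
  have h2 := hs (oc_subset_hc c hx) i
  have h3 := hs h1 i
  exact ⟨lt_of_le_of_lt h3.1 (hx i).1, h2.2⟩

/-- if the open cubes are disjoint, so are the half-open ones (a common point of the half-open
cubes has a common corner region `x + (0,e)^3`) -/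
theorem disjoint_hc {c c' : Cb} (hp : 0 < c.2) (hp' : 0 < c'.2)
    (h : Disjoint (oc c) (oc c')) : Disjoint (hc c) (hc c') := by
  rw [Set.disjoint_left] at h ⊢
  intro y hy hy'
  have key : ∀ i, ∃ t : ℝ, y i < t ∧ t < (c.1 i : ℝ) + (c.2 : ℝ) ∧
      t < (c'.1 i : ℝ) + (c'.2 : ℝ) := by
    intro i
    obtain ⟨t, h1, h2⟩ := exists_between (lt_min (hy i).2 (hy' i).2)
    exact ⟨t, h1, (lt_min_iff.1 h2).1, (lt_min_iff.1 h2).2⟩
  choose z hz1 hz2 hz3 using key
  exact h (a := z) (fun i => ⟨lt_of_le_of_lt (hy i).1 (hz1 i), hz2 i⟩)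
    (fun i => ⟨lt_of_le_of_lt (hy' i).1 (hz1 i), hz3 i⟩)

theorem CFam.eq_of_mem {F : Set Cb} (hF : CFam F) {c c' : Cb} (h : c ∈ F) (h' : c' ∈ F) {x : E3}
    (hx : x ∈ hc c) (hx' : x ∈ hc c') : c = c' := by
  by_contra hne
  exact Set.disjoint_left.1 (hF.disj h h' hne) hx hx'

/-- a statement which holds a.e. on every cube of a family holds a.e. in the cube
(`Cb` is countable) -/
theorem CFam.ae {F : Set Cb} (hF : CFam F) {p : E3 → Prop}
    (h : ∀ c ∈ F, ∀ᵐ x ∂(volume.restrict (oc c)), p x) :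
    ∀ᵐ x ∂(volume.restrict Cube), p x := by
  have h1 : ∀ᵐ x ∂(volume : Measure E3), ∀ c : Cb, c ∈ F → x ∈ oc c → p x := by
    rw [ae_all_iff]
    intro c
    by_cases hc' : c ∈ F
    · have h2 := h c hc'
      rw [ae_restrict_iff' (measurableSet_oc c)] at h2
      filter_upwards [h2] with x hx _ using hx
    · exact Eventually.of_forall fun x hx => absurd hx hc'
  filter_upwards [hF.full, ae_restrict_of_ae h1] with x hx h2
  obtain ⟨c, hc', hxc⟩ := hx
  exact h2 c hc' hxc

theorem CFam.ae_oc {F : Set Cb} (hF : CFam F) {p : E3 → Prop}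
    (h : ∀ᵐ x ∂(volume.restrict Cube), p x) {c : Cb} (hc : c ∈ F) :
    ∀ᵐ x ∂(volume.restrict (oc c)), p x :=
  ae_restrict_of_ae_restrict_of_subset (oc_subset_Cube (hF.sub c hc) (hF.pos c hc)) h

/-- quasi-invariance in a.e. form (from QI in `TT.lean`: `T` maps `H0` to `H0` and the preimage of
a null set is a null set; `H0 \ Cube` is null) -/
theorem ae_comp (T : TG) {p : E3 → Prop} (h : ∀ᵐ x ∂(volume.restrict Cube), p x) :
    ∀ᵐ x ∂(volume.restrict Cube), p (T.1 x) := (mem_TTs.1 T.2).ae_comp h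

/-- `T x ∈ Cube` for almost all `x ∈ Cube` -/
theorem ae_mem (T : TG) : ∀ᵐ x ∂(volume.restrict Cube), T.1 x ∈ Cube :=
  ae_comp T (ae_restrict_mem measurableSet_cube)

/-- an element which is affine on an open cube (a.e. point of the cube has the same linear part `A`
and the same translation) is given there by one affine map. Proof: the set of points of `oc c`
where `RatAt` holds is open of full measure; if `T y = aff A b y` near almost every `y ∈ oc c`...
we only need the exact form: if `RatAt T A x` for EVERY `x ∈ oc c` then there is `b` with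
`T x = aff A b x` on `oc c` (`oc c` is connected, `b` is locally constant). -/
theorem RatAt.eqOn {T : E3 → E3} {A : SLQ} {c : Cb} (h : ∀ x ∈ oc c, RatAt T A x) :
    ∃ b : Fin 3 → ℚ, ∀ x ∈ oc c, T x = aff A b x := by
  rcases (oc c).eq_empty_or_nonempty with he | ⟨x0, hx0⟩
  · exact ⟨0, fun x hx => by rw [he] at hx; exact absurd hx (notMem_empty x)⟩
  obtain ⟨b, hb⟩ := h x0 hx0
  refine ⟨b, fun x hx => ?_⟩
  have hder : ∀ y ∈ oc c, HasFDerivAt (fun z => T z - lin A z) (0 : E3 →L[ℝ] E3) y := by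
    intro y hy
    have h1 := (h y hy).hasFDerivAt.sub ((lin A).hasFDerivAt (x := y))
    rw [sub_self] at h1
    exact h1
  have hconv : Convex ℝ (oc c) := by
    rw [oc_eq]
    exact convex_pi fun i _ => convex_Ioo _ _
  have h2 : T x - lin A x = T x0 - lin A x0 :=
    (isOpen_oc c).is_const_of_fderiv_eq_zero hconv.isPreconnected
      (f := fun z => T z - lin A z)
      (fun y hy => (hder y hy).differentiableAt.differentiableWithinAt)
      (fun y hy => (hder y hy).fderiv) hx hx0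
  have h3 : T x0 = lin A x0 + rv b := hb.self_of_nhds
  have h4 : T x = lin A x + rv b := by
    rw [h3] at h2
    have h5 : T x = (T x - lin A x) + lin A x := by abel
    rw [h5, h2]
    abel
  exact h4

end Pool.Agent.QM59.D
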