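import Mathlib
import Pool.Agent.Lib.MP_decea1_gt_D.FamB

/-!
# MP_decea1_gt, block D, module AppR: composing a closeness statement with an element of `TG`

Closed exceptional set of the composed statement: the complement of
`{x ∈ Reg L | L x ∉ K}` (open: `L` is continuous at regular points, `K` closed).  Its part in `Cube`
is contained in the null set `Cube \ Reg L` and `{x ∈ Reg L | L x ∈ K}`, whose image under `L` lies
in `K ∩ Cube` (`map_reg`); `IsTT.vol_image` and injectivity.
-/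

set_option autoImplicit false

open MeasureTheory Set Filter Topology

namespace Pool.Agent.QM59.D

theorem App_comp_TT {κ ρ : Equiv.Perm E3} (L : TG) {v : ℝ} (h : App κ (fun x => ρ x) v) :
    App (κ * L.1) (fun x => (ρ * L.1) x) v := by
  obtain ⟨K, hK, hv, hx⟩ := h
  have hL : IsTT (⊤ : Subgroup SLQ) L.1 := L.2
  set U : Set E3 := {x | x ∈ Reg (fun y => L.1 y) ∧ L.1 x ∉ K} with hU
  have hUo : IsOpen U := by
    rw [isOpen_iff_mem_nhds]
    rintro x ⟨h1, h2⟩
    have h3 : ∀ᶠ y in 𝓝 x, y ∈ Reg (fun y => L.1 y) := (Reg.isOpen _).mem_nhds h1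
    obtain ⟨-, A, hA⟩ := h1
    have h4 : ∀ᶠ y in 𝓝 x, L.1 y ∈ Kᶜ := hA.continuousAt (hK.isOpen_compl.mem_nhds h2)
    filter_upwards [h3, h4] with y h5 h6
    exact ⟨h5, h6⟩
  set M : Set E3 := {x | x ∈ Reg (fun y => L.1 y) ∧ L.1 x ∈ K} with hM
  have hMm : MeasurableSet M := by
    have e : M = Reg (fun y => L.1 y) \ U := by
      ext x
      constructor
      · rintro ⟨h1, h2⟩
        exact ⟨h1, fun h3 => h3.2 h2⟩
      · rintro ⟨h1, h2⟩
        refine ⟨h1, ?_⟩
        by_contra h3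
        exact h2 ⟨h1, h3⟩
    rw [e]
    exact (Reg.isOpen _).measurableSet.diff hUo.measurableSet
  have hmap : ∀ x ∈ Reg (fun y => L.1 y), L.1 x ∈ Cube := by
    rintro x ⟨h1, A, hA⟩
    exact map_reg hL.off h1 hA
  refine ⟨Uᶜ, hUo.isClosed_compl, ?_, ?_⟩
  · have hsub : Uᶜ ∩ Cube ⊆ (Cube \ Reg (fun y => L.1 y)) ∪ M := by
      rintro x ⟨h1, h2⟩
      by_cases h3 : x ∈ Reg (fun y => L.1 y)
      · right
        refine ⟨h3, ?_⟩
        by_contra h4
        exact h1 ⟨h3, h4⟩
      · exact Or.inl ⟨h2, h3⟩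
    have h5 : volume M ≤ volume (K ∩ Cube) := by
      rw [← hL.vol_image hMm (fun x h => h.1)]
      apply measure_mono
      rintro _ ⟨x, h6, rfl⟩
      exact ⟨h6.2, hmap x h6.1⟩
    calc volume (Uᶜ ∩ Cube) ≤ volume (Cube \ Reg (fun y => L.1 y)) + volume M :=
          (measure_mono hsub).trans (measure_union_le _ _)
      _ = volume M := by rw [hL.volume_reg, zero_add]
      _ ≤ volume (K ∩ Cube) := h5
      _ < ENNReal.ofReal v := hv
  · intro x _ h2
    rw [mem_compl_iff, not_not] at h2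
    exact hx _ (hmap x h2.1) h2.2

end Pool.Agent.QM59.D
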