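import Mathlib
import Pool.Agent.Lib.MP_decea1_gt_D.FamB

/-!
# MP_decea1_gt, block D, module Dyad: dyadic exhaustion

Proof. Dyadic cubes of level `k`: corner `z / 2^k`, `z_i ∈ {0, …, 2^k - 1}`, side `2^{-k}`, `k ≥ 0`;
the half-open dyadic cubes of one level partition `H0`, and two dyadic cubes are nested or disjoint.
`F` := all dyadic cubes with `p` such that no strictly larger dyadic cube containing them has `p`
(maximal ones).  Disjoint by maximality.  For a.e. `x ∈ Cube` (off the countably many planes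
`x_i ∈ ℤ[1/2]`) the dyadic cube of level `k` around `x` contains `x` in its interior, so it has `p`
for `k` large; the largest dyadic cube around `x` with `p` is in `F`.
-/

set_option autoImplicit false

open MeasureTheory Set Filter Topology

namespace Pool.Agent.QM59.D

/-- the dyadic cube of level `k` around `x` -/
private noncomputable def dyc (k : ℕ) (x : E3) : Cb :=
  (fun i => (⌊(2 : ℝ) ^ k * x i⌋ : ℚ) / 2 ^ k, 1 / 2 ^ k)

private theorem dyc_snd (k : ℕ) (x : E3) : (dyc k x).2 = 1 / 2 ^ k := rfl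

private theorem dyc_pos (k : ℕ) (x : E3) : 0 < (dyc k x).2 := by
  rw [dyc_snd]; positivity

private theorem dyc_snd_real (k : ℕ) (x : E3) : (((dyc k x).2 : ℚ) : ℝ) = 1 / 2 ^ k := by
  rw [dyc_snd]; push_cast; ring

private theorem dyc_fst_real (k : ℕ) (x : E3) (i : Fin 3) :
    (((dyc k x).1 i : ℚ) : ℝ) = (⌊(2 : ℝ) ^ k * x i⌋ : ℝ) / 2 ^ k := by
  simp [dyc]

private theorem mem_hc_dyc (k : ℕ) (x y : E3) :
    y ∈ hc (dyc k x) ↔ ∀ i, ⌊(2 : ℝ) ^ k * y i⌋ = ⌊(2 : ℝ) ^ k * x i⌋ := by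
  have h2 : (0 : ℝ) < 2 ^ k := by positivity
  unfold hc
  simp only [mem_ofPred_eq]
  refine forall_congr' fun i => ?_
  rw [dyc_fst_real, dyc_snd_real, ← add_div, div_le_iff₀ h2, lt_div_iff₀ h2, Int.floor_eq_iff,
    mul_comm (y i)]

private theorem self_mem (k : ℕ) (x : E3) : x ∈ hc (dyc k x) := by
  rw [mem_hc_dyc]; intro i; rfl

private theorem dyc_eq {k : ℕ} {x y : E3} (h : ∀ i, ⌊(2 : ℝ) ^ k * y i⌋ = ⌊(2 : ℝ) ^ k * x i⌋) :
    dyc k y = dyc k x := by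
  unfold dyc
  congr 1
  funext i
  rw [h i]

private theorem floor_coarse {j k : ℕ} (h : j ≤ k) (t : ℝ) :
    ⌊(2 : ℝ) ^ j * t⌋ = ⌊(2 : ℝ) ^ k * t⌋ / ((2 ^ (k - j) : ℕ) : ℤ) := by
  rw [← Int.floor_div_natCast]
  congr 1
  obtain ⟨d, rfl⟩ := Nat.exists_eq_add_of_le h
  have h2 : (2 : ℝ) ^ d ≠ 0 := by positivity
  rw [Nat.add_sub_cancel_left, pow_add]
  push_cast
  field_simp

private theorem dyc_eq_coarse {j k : ℕ} (hjk : j ≤ k) {x y : E3} (h : y ∈ hc (dyc k x)) :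
    dyc j y = dyc j x := by
  rw [mem_hc_dyc] at h
  apply dyc_eq
  intro i
  rw [floor_coarse hjk, floor_coarse hjk, h i]

private theorem hc_dyc_sub {k : ℕ} {x : E3} (hx : x ∈ H0) : hc (dyc k x) ⊆ H0 := by
  intro y hy i
  have h1 : dyc 0 y = dyc 0 x := dyc_eq_coarse (Nat.zero_le k) hy
  have h2 := self_mem 0 y
  rw [h1, mem_hc_dyc] at h2
  have h3 := h2 i
  rw [pow_zero, one_mul, one_mul] at h3
  have h4 : ⌊x i⌋ = 0 := by
    rw [Int.floor_eq_zero_iff]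
    exact ⟨(hx i).1, (hx i).2⟩
  rw [h4, Int.floor_eq_zero_iff] at h3
  exact ⟨h3.1, h3.2⟩

theorem dyad (p : Cb → Prop)
    (h : ∀ᵐ x ∂(volume.restrict Cube), ∃ e : ℝ, 0 < e ∧
      ∀ c : Cb, 0 < c.2 → (c.2 : ℝ) < e → hc c ⊆ H0 → x ∈ oc c → p c) :
    ∃ F : Set Cb, CFam F ∧ ∀ c ∈ F, p c := by
  classical
  refine ⟨{c | ∃ (k : ℕ) (x : E3), x ∈ H0 ∧ c = dyc k x ∧ p (dyc k x) ∧
    ∀ j < k, ¬ p (dyc j x)}, ⟨?_, ?_, ?_, ?_⟩, ?_⟩
  · rintro c ⟨k, x, -, rfl, -⟩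
    exact dyc_pos k x
  · rintro c ⟨k, x, hx, rfl, -⟩
    exact hc_dyc_sub hx
  · rintro c ⟨k, x, hx, rfl, hp, hm⟩ c' ⟨k', x', hx', rfl, hp', hm'⟩ hne
    rw [Function.onFun, Set.disjoint_left]
    intro y hy hy'
    apply hne
    have e1 : dyc k y = dyc k x := dyc_eq_coarse le_rfl hy
    have e2 : dyc k' y = dyc k' x' := dyc_eq_coarse le_rfl hy'
    rcases lt_trichotomy k k' with hlt | heq | hlt
    · exact absurd (by rw [← dyc_eq_coarse hlt.le hy', e1]; exact hp) (hm' k hlt)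
    · subst heq
      rw [← e1, ← e2]
    · exact absurd (by rw [← dyc_eq_coarse hlt.le hy, e2]; exact hp') (hm k' hlt)
  · have hnd : ∀ᵐ x : E3 ∂(volume.restrict Cube), ∀ i : Fin 3, ∀ q : ℚ, x i ≠ (q : ℝ) := by
      apply ae_restrict_of_ae
      rw [ae_all_iff]
      intro i
      rw [ae_all_iff]
      intro q
      exact Measure.ae_eval_ne (fun _ : Fin 3 => (volume : Measure ℝ)) i (q : ℝ)
    have hcube : ∀ᵐ x : E3 ∂(volume.restrict Cube), x ∈ Cube := by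
      apply ae_restrict_mem
      exact measurableSet_cube
    filter_upwards [h, hnd, hcube] with x hx hq hxC
    obtain ⟨e, he, hpe⟩ := hx
    have hxH : x ∈ H0 := cube_sub_H0 hxC
    have hin : ∀ k : ℕ, x ∈ oc (dyc k x) := by
      intro k i
      have h2 : (0 : ℝ) < 2 ^ k := by positivity
      have h3 := self_mem k x i
      refine ⟨lt_of_le_of_ne h3.1 ?_, h3.2⟩
      exact fun hh => hq i _ hh.symm
    obtain ⟨k, hk⟩ := exists_pow_lt_of_lt_one he (show (1 / 2 : ℝ) < 1 by norm_num)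
    have hex : ∃ k : ℕ, p (dyc k x) := by
      refine ⟨k, hpe _ (dyc_pos k x) ?_ (hc_dyc_sub hxH) (hin k)⟩
      rw [dyc_snd_real, ← one_div_pow]
      exact hk
    refine ⟨dyc (Nat.find hex) x, ⟨Nat.find hex, x, hxH, rfl, Nat.find_spec hex, ?_⟩, hin _⟩
    intro j hj
    exact Nat.find_min hex hj
  · rintro c ⟨k, x, -, rfl, hp, -⟩
    exact hp

end Pool.Agent.QM59.D
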