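import Mathlib
import Pool.Agent.Lib.MP_decea1_gt_D.FamB

/-!
# MP_decea1_gt, block D, module LblA: calculus of labels

All statements are almost everywhere statements; use `CFam.ae`, `CFam.ae_oc`, `ae_comp` and the
calculus of `RatAt` (products, inverses, uniqueness) of `TT.lean`.
-/

set_option autoImplicit false

open MeasureTheory Set Filter Topology

namespace Pool.Agent.QM59.D

variable {F F' : Set Cb} {g g' : Cb → SLQ}

private theorem app_inv (T : Equiv.Perm E3) (x : E3) : T (T⁻¹ x) = x := by simp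

theorem Lbl.one (F : Set Cb) : Lbl F (fun _ => 1) (1 : Equiv.Perm E3) := by
  intro c _
  refine ae_restrict_of_forall_mem (measurableSet_oc c) fun x hx => ?_
  exact ⟨hx, RatAt.id x⟩

/-- for a.e. `x ∈ oc c`: `T' x ∈ oc c` and the statement for `T` holds at `T' x` (by `ae_comp`
applied to `{y | y ∈ oc c → (T y ∈ oc c ∧ RatAt T (g c) y)}`). -/
theorem Lbl.mul (hF : CFam F) {T T' : TG} (h : Lbl F g T.1) (h' : Lbl F g' T'.1) :
    Lbl F (fun c => g c * g' c) (T * T').1 := by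
  intro c hc
  have h1 : ∀ᵐ x ∂(volume.restrict Cube), x ∈ oc c →
      (T.1 x ∈ oc c ∧ RatAt (fun y => T.1 y) (g c) x) := by
    have := h c hc
    rw [ae_restrict_iff' (measurableSet_oc c)] at this
    exact ae_restrict_of_ae this
  have h2 := hF.ae_oc (ae_comp T' h1) hc
  filter_upwards [h2, h' c hc] with x h3 h4
  obtain ⟨h5, h6⟩ := h3 h4.1
  exact ⟨h5, RatAt.mul (T := fun y => T.1 y) (S := fun y => T'.1 y) h4.2 h6⟩

private theorem lbl_ae (hF : CFam F) {T : Equiv.Perm E3} (h : Lbl F g T) :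
    ∀ᵐ x ∂(volume.restrict Cube), ∃ c ∈ F, x ∈ oc c ∧ T x ∈ oc c ∧
      RatAt (fun y => T y) (g c) x := by
  refine hF.ae fun c hc => ?_
  filter_upwards [ae_restrict_mem (measurableSet_oc c), h c hc] with x h1 h2
  exact ⟨c, hc, h1, h2.1, h2.2⟩

/-- a.e. `x ∈ oc c`: `y = T⁻¹ x` lies in some `oc c'`, `c' ∈ F`, and the statement for `T` holds at
`y`; so `x = T y ∈ oc c'` and `c' = c`; `RatAt.inv` at `y`. -/
theorem Lbl.inv (hF : CFam F) {T : TG} (h : Lbl F g T.1) :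
    Lbl F (fun c => (g c)⁻¹) (T⁻¹).1 := by
  intro c hc
  have h1 := hF.ae_oc (ae_comp T⁻¹ (lbl_ae hF h)) hc
  filter_upwards [h1, ae_restrict_mem (measurableSet_oc c)] with x h2 hx
  obtain ⟨c', hc', h3, h4, h5⟩ := h2
  have e : T.1 ((T⁻¹).1 x) = x := by
    show T.1 ((T.1)⁻¹ x) = x
    exact app_inv _ _
  have h6 := RatAt.inv h5
  rw [e] at h4 h6
  have hcc : c' = c := hF.eq_of_mem hc' hc (oc_subset_hc _ h4) (oc_subset_hc _ hx)
  subst hcc
  exact ⟨h3, h6⟩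

theorem Lbl.congr {T : Equiv.Perm E3} (h : Lbl F g T) (e : ∀ c ∈ F, g c = g' c) : Lbl F g' T := by
  intro c hc
  rw [← e c hc]
  exact h c hc

theorem Lbl.unique (hF : CFam F) {T : Equiv.Perm E3} (h : Lbl F g T) (h' : Lbl F g' T) :
    ∀ c ∈ F, g c = g' c := by
  intro c hc
  have hpos : (0 : ℝ) < (c.2 : ℝ) := by exact_mod_cast hF.pos c hc
  have hne : volume.restrict (oc c) ≠ 0 := by
    intro h0
    rw [Measure.restrict_eq_zero, volume_oc c (hF.pos c hc).le, ENNReal.ofReal_eq_zero] at h0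
    have : 0 < (c.2 : ℝ) ^ 3 := by positivity
    linarith
  have : (ae (volume.restrict (oc c))).NeBot := ae_neBot.2 hne
  obtain ⟨x, h1, h2⟩ := ((h c hc).and (h' c hc)).exists
  exact h1.2.unique h2.2

theorem Lbl.mem_QQG (hF : CFam F) {T : TG} (h : Lbl F (fun _ => 1) T.1) : T ∈ QQG := by
  have key : ∀ {T : TG}, Lbl F (fun _ => 1) T.1 →
      ∀ᵐ x ∂(volume.restrict Cube), ∃ A ∈ (⊥ : Subgroup SLQ), RatAt (fun y => T.1 y) A x := by
    intro T h
    filter_upwards [lbl_ae hF h] with x h1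
    obtain ⟨c, -, -, -, h2⟩ := h1
    exact ⟨1, Subgroup.one_mem _, h2⟩
  have hi : Lbl F (fun _ => 1) (T⁻¹).1 := by
    have := Lbl.inv hF h
    simpa using this
  refine Subgroup.mem_subgroupOf.2 ?_
  exact ⟨T.2.off, key h, key hi⟩

/-- coarsening: a label on a refinement `F'` of `F` which is constant on the cubes of `F` -/
theorem Lbl.coarse (hF : CFam F) (hF' : CFam F') (hr : ∀ c' ∈ F', ∃ c ∈ F, oc c' ⊆ oc c)
    {T : Equiv.Perm E3} (h : Lbl F' g' T)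
    (e : ∀ c' ∈ F', ∀ c ∈ F, oc c' ⊆ oc c → g' c' = g c) : Lbl F g T := by
  intro c hc
  have h1 := hF.ae_oc (lbl_ae hF' h) hc
  filter_upwards [h1, ae_restrict_mem (measurableSet_oc c)] with x h2 hx
  obtain ⟨c', hc', h3, h4, h5⟩ := h2
  obtain ⟨c'', hc'', hs⟩ := hr c' hc'
  have hcc : c'' = c := hF.eq_of_mem hc'' hc (oc_subset_hc _ (hs h3)) (oc_subset_hc _ hx)
  subst hcc
  rw [← e c' hc' c'' hc hs]
  exact ⟨hs h4, h5⟩

/-- the linear part of a labelled map, in the form used for products with elements of `QQG` -/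
theorem Lbl.ae (hF : CFam F) {T : Equiv.Perm E3} (h : Lbl F g T) :
    ∀ᵐ x ∂(volume.restrict Cube), ∃ c ∈ F, x ∈ oc c ∧ T x ∈ oc c ∧
      RatAt (fun y => T y) (g c) x := lbl_ae hF h

theorem PP.one (F : Set Cb) : PP F (1 : Equiv.Perm E3) :=
  ⟨⟨fun _ => 1, Lbl.one F⟩, fun _ _ _ => Iff.rfl, fun _ _ => rfl⟩

theorem PP.mul (hF : CFam F) {T T' : TG} (h : PP F T.1) (h' : PP F T'.1) : PP F (T * T').1 := by
  obtain ⟨⟨g, hg⟩, h1, h2⟩ := h
  obtain ⟨⟨g', hg'⟩, h1', h2'⟩ := h'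
  refine ⟨⟨_, Lbl.mul hF hg hg'⟩, fun c hc x => ?_, fun x hx => ?_⟩
  · exact (h1 c hc (T'.1 x)).trans (h1' c hc x)
  · show T.1 (T'.1 x) = x
    rw [h2' x hx, h2 x hx]

theorem PP.inv (hF : CFam F) {T : TG} (h : PP F T.1) : PP F (T⁻¹).1 := by
  obtain ⟨⟨g, hg⟩, h1, h2⟩ := h
  refine ⟨⟨_, Lbl.inv hF hg⟩, fun c hc x => ?_, fun x hx => ?_⟩
  · have h3 := h1 c hc ((T.1)⁻¹ x)
    rw [app_inv] at h3
    exact h3.symm
  · show (T.1)⁻¹ x = x
    rw [Equiv.Perm.inv_eq_iff_eq]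
    exact (h2 x hx).symm

/-- two maps with the same linear part almost everywhere differ by an element of `QQG` -/
theorem mem_QQG_of_same {T L : TG}
    (h : ∀ᵐ x ∂(volume.restrict Cube), ∃ A : SLQ, RatAt (fun y => T.1 y) A x ∧
      RatAt (fun y => L.1 y) A x) : T * L⁻¹ ∈ QQG := by
  have key : ∀ {T L : TG},
      (∀ᵐ x ∂(volume.restrict Cube), ∃ A : SLQ, RatAt (fun y => T.1 y) A x ∧
        RatAt (fun y => L.1 y) A x) →
      ∀ᵐ x ∂(volume.restrict Cube), ∃ A ∈ (⊥ : Subgroup SLQ),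
        RatAt (fun y => (T.1 * (L.1)⁻¹) y) A x := by
    intro T L h
    filter_upwards [ae_comp L⁻¹ h] with x hx
    obtain ⟨A, h1, h2⟩ := hx
    have e : L.1 ((L⁻¹).1 x) = x := by
      show L.1 ((L.1)⁻¹ x) = x
      exact app_inv _ _
    have h3 := RatAt.inv h2
    rw [e] at h3
    refine ⟨A * A⁻¹, by simp, ?_⟩
    exact RatAt.mul (T := fun y => T.1 y) (S := fun y => (L.1)⁻¹ y) h3 h1
  refine Subgroup.mem_subgroupOf.2 ?_
  refine ⟨(T * L⁻¹).2.off, key h, ?_⟩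
  have h' : ∀ᵐ x ∂(volume.restrict Cube), ∃ A : SLQ, RatAt (fun y => L.1 y) A x ∧
      RatAt (fun y => T.1 y) A x := h.mono fun x ⟨A, h1, h2⟩ => ⟨A, h2, h1⟩
  have e : ((T * L⁻¹ : TG).1)⁻¹ = L.1 * (T.1)⁻¹ := by
    show (T.1 * (L.1)⁻¹)⁻¹ = _
    rw [mul_inv_rev, inv_inv]
  show ∀ᵐ x ∂(volume.restrict Cube), ∃ A ∈ (⊥ : Subgroup SLQ),
    RatAt (fun y => (((T * L⁻¹ : TG).1)⁻¹ : Equiv.Perm E3) y) A x
  rw [e]
  exact key h'

end Pool.Agent.QM59.D
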