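import Mathlib
import Pool.Agent.Lib.MP_decea1_gt_D.Dyad
import Pool.Agent.Lib.MP_decea1_gt_D.LblA

/-!
# MP_decea1_gt, block D, module ConA: conjugation by an element of `QQG`, geometry

`conj_fam`: `dyad` with `p c := (∃ c₀ ∈ F, oc c ⊆ oc c₀) ∧ ∃ b, ∀ x ∈ oc c, τ⁻¹ x = x + rv b`.
`conj_img`: `F₂` := the cubes `(p + b c, r)` for `c = (p, r) ∈ F₁`, so
`oc (p + b c, r) = τ⁻¹ (oc c)` exactly.  They are disjoint (`τ⁻¹` is injective, `disjoint_hc`),
contained in `H0` (the open cube `oc c + b c` lies in `H0` because `τ⁻¹` preserves `H0`, so the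
half-open one does), distinct `c` give distinct cubes, and they have full measure (for a.e. `x`,
`τ x ∈ oc c` for some `c ∈ F₁` by `ae_comp`, then `x = τ⁻¹ (τ x) ∈ oc (p + b c, r)`).
Label of `τ⁻¹ L τ` on the cube of `c`: `g c`: for a.e. `x`
in it `τ x ∈ oc c` (exactly), `L (τ x) ∈ oc c`, `RatAt L (g c) (τ x)`; near `x`, `τ` is the
translation by `- b c`, near `L τ x` (in `oc c`) `τ⁻¹` is the translation by `b c`.
-/

set_option autoImplicit false

open MeasureTheory Set Filter Topology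

namespace Pool.Agent.QM59.D

private theorem conA_near {x : E3} {e : ℝ} {c : Cb} (h1 : (c.2 : ℝ) < e) (hx : x ∈ oc c) {y : E3}
    (hy : y ∈ oc c) : y ∈ Metric.ball x e := by
  have he : 0 < e := by
    have h2 := hx 0
    have h3 := h2.1.trans h2.2
    linarith
  rw [Metric.mem_ball, dist_pi_lt_iff he]
  intro i
  have h2 := hx i
  have h3 := hy i
  rw [Real.dist_eq, abs_lt]
  constructor
  · linarith [h2.2, h3.1]
  · linarith [h2.1, h3.2]

theorem conj_fam {F : Set Cb} (hF : CFam F) {τ : TG} (hτ : τ ∈ QQG) :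
    ∃ (F₁ : Set Cb) (b : Cb → Fin 3 → ℚ), CFam F₁ ∧ (∀ c' ∈ F₁, ∃ c ∈ F, oc c' ⊆ oc c) ∧
      ∀ c ∈ F₁, ∀ x ∈ oc c, (τ⁻¹).1 x = x + rv (b c) := by
  classical
  have h0 : IsTT (⊥ : Subgroup SLQ) τ.1 := Subgroup.mem_subgroupOf.1 hτ
  obtain ⟨F₁, h1, h2⟩ := dyad (fun c => (∃ c₀ ∈ F, oc c ⊆ oc c₀) ∧
    ∃ b : Fin 3 → ℚ, ∀ x ∈ oc c, (τ⁻¹).1 x = x + rv b) (by
      filter_upwards [hF.full, h0.reg'] with x h1 h2
      obtain ⟨c₀, hc₀, hx⟩ := h1
      obtain ⟨A, hA, b, hb⟩ := h2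
      rw [Subgroup.mem_bot] at hA
      subst hA
      have h3 : ∀ᶠ y in 𝓝 x, y ∈ oc c₀ ∧ τ.1⁻¹ y = aff 1 b y :=
        Filter.Eventually.and ((isOpen_oc c₀).mem_nhds hx) hb
      obtain ⟨e, he, h4⟩ := Metric.eventually_nhds_iff_ball.1 h3
      refine ⟨e, he, fun c _ hce _ hxc => ⟨⟨c₀, hc₀, fun y hy => ?_⟩, b, fun y hy => ?_⟩⟩
      · exact (h4 y (conA_near hce hxc hy)).1
      · have h5 := (h4 y (conA_near hce hxc hy)).2
        rw [aff_one_left] at h5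
        exact h5)
  refine ⟨F₁, fun c => if h : ∃ b : Fin 3 → ℚ, ∀ x ∈ oc c, (τ⁻¹).1 x = x + rv b then h.choose
    else 0, h1, fun c hc => (h2 c hc).1, fun c hc x hx => ?_⟩
  have h3 := (h2 c hc).2
  simp only [dif_pos h3]
  exact h3.choose_spec x hx

private theorem conA_oc (c : Cb) (b : Fin 3 → ℚ) (y : E3) :
    y ∈ oc (c.1 + b, c.2) ↔ y - rv b ∈ oc c := by
  constructor
  · intro h i
    have h1 := h i
    simp only [Pi.add_apply, Rat.cast_add] at h1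
    simp only [Pi.sub_apply, rv]
    constructor
    · linarith [h1.1]
    · linarith [h1.2]
  · intro h i
    have h1 := h i
    simp only [Pi.sub_apply, rv] at h1
    simp only [Pi.add_apply, Rat.cast_add]
    constructor
    · linarith [h1.1]
    · linarith [h1.2]

private theorem conA_sub {c : Cb} (hp : 0 < c.2) (h : oc c ⊆ H0) : hc c ⊆ H0 := by
  have hr : (0 : ℝ) < (c.2 : ℝ) := by exact_mod_cast hp
  have key : ∀ s : ℝ, 0 < s → s < 1 → ∀ i, 0 ≤ (c.1 i : ℝ) + s * c.2 ∧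
      (c.1 i : ℝ) + s * c.2 < 1 := by
    intro s h0 h1 i
    have h2 : (fun j => (c.1 j : ℝ) + s * c.2 : E3) ∈ oc c := by
      intro j
      show ((c.1 j : ℚ) : ℝ) < (c.1 j : ℝ) + s * c.2 ∧
        (c.1 j : ℝ) + s * c.2 < (c.1 j : ℝ) + (c.2 : ℝ)
      constructor
      · have := mul_pos h0 hr
        linarith
      · nlinarith
    exact h h2 i
  intro y hy i
  have h1 := hy i
  constructor
  · have h2 : 0 ≤ (c.1 i : ℝ) := by
      by_contra h3
      push Not at h3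
      have h4 : 0 < -(c.1 i : ℝ) / (2 * c.2) := by
        apply div_pos
        · linarith
        · linarith
      have h5 := key (min (1 / 2) (-(c.1 i : ℝ) / (2 * c.2))) (lt_min (by norm_num) h4)
        (lt_of_le_of_lt (min_le_left _ _) (by norm_num)) i
      have h6 : min (1 / 2) (-(c.1 i : ℝ) / (2 * c.2)) * c.2 ≤
          -(c.1 i : ℝ) / (2 * c.2) * c.2 :=
        mul_le_mul_of_nonneg_right (min_le_right _ _) hr.le
      have h7 : -(c.1 i : ℝ) / (2 * c.2) * c.2 = -(c.1 i : ℝ) / 2 := by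
        field_simp
      rw [h7] at h6
      linarith [h5.1]
    linarith [h1.1]
  · have h2 : (c.1 i : ℝ) + c.2 ≤ 1 := by
      by_contra h3
      push Not at h3
      have h4 : (1 - (c.1 i : ℝ)) / c.2 < 1 := by
        rw [div_lt_one hr]
        linarith
      have h5 := key (max (1 / 2) ((1 - (c.1 i : ℝ)) / c.2))
        (lt_of_lt_of_le (by norm_num) (le_max_left _ _)) (max_lt (by norm_num) h4) i
      have h6 : (1 - (c.1 i : ℝ)) / c.2 * c.2 ≤
          max (1 / 2) ((1 - (c.1 i : ℝ)) / c.2) * c.2 :=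
        mul_le_mul_of_nonneg_right (le_max_right _ _) hr.le
      rw [div_mul_cancel₀ _ hr.ne'] at h6
      linarith [h5.2]
    linarith [h1.2]

theorem conj_img {F₁ : Set Cb} (hF : CFam F₁) (τ : TG) (b : Cb → Fin 3 → ℚ)
    (hb : ∀ c ∈ F₁, ∀ x ∈ oc c, (τ⁻¹).1 x = x + rv (b c)) {L : TG} {g : Cb → SLQ}
    (hL : Lbl F₁ g L.1) :
    ∃ (F₂ : Set Cb) (g₂ : Cb → SLQ), CFam F₂ ∧ Lbl F₂ g₂ (τ⁻¹ * L * τ).1 := by
  classical
  have hinv : ∀ x : E3, (τ⁻¹).1 (τ.1 x) = x := fun x => τ.1.symm_apply_apply x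
  have hinv' : ∀ x : E3, τ.1 ((τ⁻¹).1 x) = x := fun x => τ.1.apply_symm_apply x
  have hfor : ∀ c ∈ F₁, ∀ y ∈ oc (c.1 + b c, c.2), τ.1 y = y - rv (b c) ∧ τ.1 y ∈ oc c := by
    intro c hc y hy
    rw [conA_oc] at hy
    have h1 := hb c hc _ hy
    rw [sub_add_cancel] at h1
    have h2 : τ.1 y = y - rv (b c) := by
      have h3 := hinv' (y - rv (b c))
      rw [h1] at h3
      exact h3
    exact ⟨h2, h2 ▸ hy⟩
  have hbac : ∀ c ∈ F₁, ∀ y, τ.1 y ∈ oc c → y ∈ oc (c.1 + b c, c.2) := by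
    intro c hc y hy
    have h1 := hb c hc _ hy
    rw [hinv] at h1
    rw [conA_oc]
    have h2 : y - rv (b c) = τ.1 y := by
      rw [sub_eq_iff_eq_add]
      exact h1
    rw [h2]
    exact hy
  have hF₂ : CFam {c' | ∃ c ∈ F₁, c' = (c.1 + b c, c.2)} := by
    refine ⟨?_, ?_, ?_, ?_⟩
    · rintro _ ⟨c, hc, rfl⟩
      exact hF.pos c hc
    · rintro _ ⟨c, hc, rfl⟩
      refine conA_sub (hF.pos c hc) fun y hy => ?_
      have h1 := (hfor c hc y hy).2
      exact (H0_iff τ.2.off y).1 (hF.sub c hc (oc_subset_hc c h1))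
    · rintro _ ⟨c, hc, rfl⟩ _ ⟨c', hc', rfl⟩ hne
      refine disjoint_hc (hF.pos c hc) (hF.pos c' hc') ?_
      rw [Set.disjoint_left]
      intro y hy hy'
      apply hne
      have h1 := hF.eq_of_mem hc hc' (oc_subset_hc _ (hfor c hc y hy).2)
        (oc_subset_hc _ (hfor c' hc' y hy').2)
      rw [h1]
    · filter_upwards [ae_comp τ hF.full] with x hx
      obtain ⟨c, hc, h1⟩ := hx
      exact ⟨_, ⟨c, hc, rfl⟩, hbac c hc x h1⟩
  refine ⟨_, fun c' => if h : ∃ c ∈ F₁, c' = (c.1 + b c, c.2) then g h.choose else 1, hF₂, ?_⟩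
  intro c' hc'
  have hex : ∃ c ∈ F₁, c' = (c.1 + b c, c.2) := hc'
  have hval : (if h : ∃ c ∈ F₁, c' = (c.1 + b c, c.2) then g h.choose else 1) =
      g hex.choose := dif_pos hex
  show ∀ᵐ x ∂(volume.restrict (oc c')), (τ⁻¹ * L * τ).1 x ∈ oc c' ∧
    RatAt (fun y => (τ⁻¹ * L * τ).1 y)
      (if h : ∃ c ∈ F₁, c' = (c.1 + b c, c.2) then g h.choose else 1) x
  rw [hval]
  obtain ⟨hc, hcc⟩ := hex.choose_spec
  generalize hex.choose = c at hc hcc
  have h1 : ∀ᵐ x ∂(volume.restrict Cube), x ∈ oc c →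
      (L.1 x ∈ oc c ∧ RatAt (fun y => L.1 y) (g c) x) := by
    have := hL c hc
    rw [ae_restrict_iff' (measurableSet_oc c)] at this
    exact ae_restrict_of_ae this
  have h2 := hF₂.ae_oc (ae_comp τ h1) hc'
  filter_upwards [h2, ae_restrict_mem (measurableSet_oc c')] with x h3 hx
  have hx' : x ∈ oc (c.1 + b c, c.2) := hcc ▸ hx
  obtain ⟨h4, h5⟩ := hfor c hc x hx'
  obtain ⟨h6, h7⟩ := h3 h5
  have h8 : (τ⁻¹).1 (L.1 (τ.1 x)) ∈ oc c' := by
    rw [hb c hc _ h6, hcc, conA_oc, add_sub_cancel_right]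
    exact h6
  refine ⟨h8, ?_⟩
  have r1 : RatAt (fun y => τ.1 y) 1 x := by
    refine ⟨-b c, ?_⟩
    filter_upwards [(isOpen_oc _).mem_nhds hx'] with y hy
    rw [(hfor c hc y hy).1, aff_one_left]
    have : rv (-b c) = -rv (b c) := by
      ext i
      simp [rv]
    rw [this, sub_eq_add_neg]
  have r2 : RatAt (fun y => (τ⁻¹).1 y) 1 (L.1 (τ.1 x)) := by
    refine ⟨b c, ?_⟩
    filter_upwards [(isOpen_oc _).mem_nhds h6] with y hy
    rw [hb c hc y hy, aff_one_left]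
  have r3 := RatAt.mul (T := fun y => L.1 y) (S := fun y => τ.1 y) r1 h7
  have r4 := RatAt.mul (T := fun y => (τ⁻¹).1 y) (S := fun y => L.1 (τ.1 y)) r3 r2
  rw [mul_one, one_mul] at r4
  exact r4

end Pool.Agent.QM59.D
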