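import Mathlib
import Pool.Agent.Lib.MP_decea1_gt_D.FamB

/-!
# MP_decea1_gt, block D, module ExA: maps of the unit cube with a given linear part

`saw i j t` : on `H0` replace the coordinate `x_i` by `Int.fract (x_i + t * x_j)`, identity off `H0`.
It is a permutation with inverse `saw i j (-t)` (for fixed `x_j`, `x ↦ fract (x + s)` is a bijection
of `[0,1)`).  `RatAt (saw i j t) (transvection hij t) x` at every `x ∈ Cube` with
`x_i + t x_j ∉ ℤ` (near `x` the floor is constant, the map is `y ↦ A y - n e_i`); the exceptional set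
is contained in countably many hyperplanes.
`ex_unit`: the set of `A` for which such a `T` exists is a subgroup (calculus of `RatAt`, `ae_comp`)
and contains the transvections; these generate (hypothesis `hgen`).
-/

set_option autoImplicit false

open MeasureTheory Set Filter Topology

namespace Pool.Agent.QM59.D

open Classical in
/-- the sawtooth map -/
private noncomputable def sawF (i j : Fin 3) (t : ℚ) (x : E3) : E3 :=
  if x ∈ H0 then Function.update x i (Int.fract (x i + (t : ℝ) * x j)) else x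

private theorem sawF_mem {i j : Fin 3} {t : ℚ} {x : E3} (hx : x ∈ H0) : sawF i j t x ∈ H0 := by
  rw [sawF, if_pos hx]
  intro k
  by_cases hk : k = i
  · subst hk
    rw [Function.update_self]
    exact ⟨Int.fract_nonneg _, Int.fract_lt_one _⟩
  · rw [Function.update_of_ne hk]
    exact hx k

private theorem sawF_inv {i j : Fin 3} (hij : i ≠ j) (t : ℚ) (x : E3) :
    sawF i j (-t) (sawF i j t x) = x := by
  by_cases hx : x ∈ H0
  · have h1 := sawF_mem (i := i) (j := j) (t := t) hx
    rw [sawF, if_pos h1]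
    have h2 : sawF i j t x = Function.update x i (Int.fract (x i + (t : ℝ) * x j)) := by
      rw [sawF, if_pos hx]
    rw [h2, Function.update_self, Function.update_of_ne hij.symm, Function.update_idem]
    have h3 : Int.fract (Int.fract (x i + (t : ℝ) * x j) + ((-t : ℚ) : ℝ) * x j) = x i := by
      have h4 : Int.fract (x i + (t : ℝ) * x j) + ((-t : ℚ) : ℝ) * x j
          = x i - (⌊x i + (t : ℝ) * x j⌋ : ℤ) := by
        rw [Int.fract]; push_cast; ring
      rw [h4, Int.fract_sub_intCast]
      exact Int.fract_eq_self.2 ⟨(hx i).1, (hx i).2⟩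
    rw [h3, Function.update_eq_self]
  · rw [sawF, sawF, if_neg hx, if_neg hx]

/-- the sawtooth permutation -/
private noncomputable def sawP (i j : Fin 3) (hij : i ≠ j) (t : ℚ) : Equiv.Perm E3 where
  toFun := sawF i j t
  invFun := sawF i j (-t)
  left_inv := sawF_inv hij t
  right_inv x := by
    have := sawF_inv hij (-t) x
    rwa [neg_neg] at this

private theorem tr_mulVec (i j : Fin 3) (hij : i ≠ j) (t : ℚ) (x : E3) (k : Fin 3) :
    (rm (Matrix.SpecialLinearGroup.transvection hij t)).mulVec x k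
      = x k + (if k = i then (t : ℝ) * x j else 0) := by
  have h1 : rm (Matrix.SpecialLinearGroup.transvection hij t)
      = 1 + Matrix.single i j (t : ℝ) := by
    ext a b
    simp only [rm, Matrix.SpecialLinearGroup.transvection, Matrix.transvection, Matrix.map_apply,
      Matrix.add_apply, Matrix.single_apply, Matrix.one_apply, Rat.coe_castHom]
    split_ifs <;> simp
  rw [h1, Matrix.add_mulVec, Matrix.one_mulVec, Pi.add_apply]
  congr 1
  simp only [Matrix.mulVec, dotProduct, Matrix.single_apply]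
  by_cases hk : k = i
  · subst hk
    simp
  · have hk' : ¬ i = k := fun h => hk h.symm
    simp [hk, hk']

private theorem saw_null (i j : Fin 3) (hij : i ≠ j) (t : ℚ) :
    ∀ᵐ x ∂(volume : Measure E3), ∀ n : ℤ, x i + (t : ℝ) * x j ≠ (n : ℝ) := by
  rw [ae_all_iff]
  intro n
  rw [ae_iff]
  have h1 : {x : E3 | ¬ x i + (t : ℝ) * x j ≠ (n : ℝ)}
      = aff (Matrix.SpecialLinearGroup.transvection hij t) 0 ⁻¹' {y : E3 | y i = (n : ℝ)} := by
    ext x
    simp only [not_not, mem_ofPred_eq, mem_preimage, aff, rv_zero, add_zero]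
    have h2 : (rm (Matrix.SpecialLinearGroup.transvection hij t)).mulVec x i
        = x i + (t : ℝ) * x j := by
      rw [tr_mulVec, if_pos rfl]
    rw [h2]
  rw [h1]
  apply aff_null
  rw [volume_pi]
  exact Measure.pi_hyperplane _ i _

private theorem saw_rat (i j : Fin 3) (hij : i ≠ j) (t : ℚ) {x : E3} (hx : x ∈ Cube)
    (hn : ∀ n : ℤ, x i + (t : ℝ) * x j ≠ (n : ℝ)) :
    RatAt (sawF i j t) (Matrix.SpecialLinearGroup.transvection hij t) x := by
  set n : ℤ := ⌊x i + (t : ℝ) * x j⌋ with hn0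
  refine ⟨Pi.single i (-(n : ℚ)), ?_⟩
  have hc : Continuous (fun y : E3 => y i + (t : ℝ) * y j) := by fun_prop
  have h1 : (n : ℝ) < x i + (t : ℝ) * x j :=
    lt_of_le_of_ne (Int.floor_le _) (Ne.symm (hn n))
  have h2 : x i + (t : ℝ) * x j < (n : ℝ) + 1 := Int.lt_floor_add_one _
  have e1 : ∀ᶠ y : E3 in 𝓝 x, (n : ℝ) < y i + (t : ℝ) * y j :=
    hc.continuousAt.eventually (lt_mem_nhds h1)
  have e2 : ∀ᶠ y : E3 in 𝓝 x, y i + (t : ℝ) * y j < (n : ℝ) + 1 :=
    hc.continuousAt.eventually (gt_mem_nhds h2)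
  have e3 : ∀ᶠ y : E3 in 𝓝 x, y ∈ Cube := isOpen_cube.mem_nhds hx
  filter_upwards [e1, e2, e3] with y h3 h4 h5
  rw [sawF, if_pos (cube_sub_H0 h5)]
  have h6 : ⌊y i + (t : ℝ) * y j⌋ = n := Int.floor_eq_iff.2 ⟨h3.le, h4⟩
  ext k
  have h7 : aff (Matrix.SpecialLinearGroup.transvection hij t) (Pi.single i (-(n : ℚ))) y k
      = y k + (if k = i then (t : ℝ) * y j - n else 0) := by
    rw [aff, Pi.add_apply, tr_mulVec]
    by_cases hk : k = i
    · subst hk
      simp [rv]
      ring
    · simp [rv, hk]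
  rw [h7]
  by_cases hk : k = i
  · subst hk
    rw [Function.update_self, Int.fract, h6, if_pos rfl]
    ring
  · rw [Function.update_of_ne hk, if_neg hk, add_zero]

private theorem saw_ae (i j : Fin 3) (hij : i ≠ j) (t : ℚ) :
    ∀ᵐ x ∂(volume.restrict Cube),
      RatAt (sawF i j t) (Matrix.SpecialLinearGroup.transvection hij t) x := by
  rw [ae_restrict_iff' measurableSet_cube]
  filter_upwards [saw_null i j hij t] with x hx hc
  exact saw_rat i j hij t hc hx

private theorem saw_isTT (i j : Fin 3) (hij : i ≠ j) (t : ℚ) :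
    IsTT (⊤ : Subgroup SLQ) (sawP i j hij t) where
  off x hx := by
    show sawF i j t x = x
    rw [sawF, if_neg hx]
  reg := (saw_ae i j hij t).mono fun x h => ⟨_, Subgroup.mem_top _, h⟩
  reg' := (saw_ae i j hij (-t)).mono fun x h => ⟨_, Subgroup.mem_top _, h⟩

theorem ex_saw (i j : Fin 3) (hij : i ≠ j) (t : ℚ) :
    ∃ T : TG, ∀ᵐ x ∂(volume.restrict Cube),
      RatAt (fun y => T.1 y) (Matrix.SpecialLinearGroup.transvection hij t) x :=
  ⟨⟨sawP i j hij t, saw_isTT i j hij t⟩, saw_ae i j hij t⟩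

theorem ex_unit (hgen : Gen) (A : SLQ) :
    ∃ T : TG, ∀ᵐ x ∂(volume.restrict Cube), RatAt (fun y => T.1 y) A x := by
  have hA : A ∈ Subgroup.closure {A : SLQ | ∃ (i j : Fin 3) (hij : i ≠ j) (t : ℚ),
      A = Matrix.SpecialLinearGroup.transvection hij t} := by
    rw [show Subgroup.closure {A : SLQ | ∃ (i j : Fin 3) (hij : i ≠ j) (t : ℚ),
      A = Matrix.SpecialLinearGroup.transvection hij t} = ⊤ from hgen]
    exact Subgroup.mem_top A
  induction hA using Subgroup.closure_induction with
  | mem B hB =>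
    obtain ⟨i, j, hij, t, rfl⟩ := hB
    exact ex_saw i j hij t
  | one => exact ⟨1, Eventually.of_forall fun x => RatAt.id x⟩
  | mul B C _ _ hB hC =>
    obtain ⟨T, hT⟩ := hB
    obtain ⟨S, hS⟩ := hC
    have h1 : ∀ᵐ x ∂(volume.restrict Cube), RatAt (fun y => T.1 y) B (S.1 x) :=
      IsTT.ae_comp (P := ⊤) S.2 hT
    refine ⟨T * S, ?_⟩
    filter_upwards [hS, h1] with x h2 h3
    exact RatAt.mul (T := fun y => T.1 y) (S := fun y => S.1 y) h2 h3
  | inv B _ hB =>
    obtain ⟨T, hT⟩ := hB
    have h1 : ∀ᵐ x ∂(volume.restrict Cube), RatAt (fun y => T.1 y) B ((T⁻¹).1 x) :=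
      IsTT.ae_comp (P := ⊤) (T⁻¹).2 hT
    refine ⟨T⁻¹, ?_⟩
    filter_upwards [h1] with x h2
    have h3 := RatAt.inv (T := T.1) h2
    have e : T.1 ((T⁻¹).1 x) = x := T.1.apply_symm_apply x
    rw [e] at h3
    exact h3

end Pool.Agent.QM59.D
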