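import Mathlib
import Pool.Agent.Lib.MP_decea1_gt_D.FamB

/-!
# MP_decea1_gt, block D, module ExB: one cube

Transport by the homothety `x ↦ p + r x` of `H0` onto `hc c` (`c = (p, r)`, rational):
`T = θ T₁ θ⁻¹` on `hc c` (it is the identity off `hc c` automatically, because `T₁` is the identity
off `H0`), linear part unchanged, translation rational.
-/

set_option autoImplicit false

open MeasureTheory Set Filter Topology

namespace Pool.Agent.QM59.D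

/-- the homothety of `H0` onto `hc c` -/
private noncomputable def th (c : Cb) (hr : (c.2 : ℝ) ≠ 0) : Equiv.Perm E3 :=
  homoth (rv c.1) (c.2 : ℝ) hr

private theorem th_inv_apply (c : Cb) (hr : (c.2 : ℝ) ≠ 0) (y : E3) :
    (th c hr)⁻¹ y = (c.2 : ℝ)⁻¹ • (y - rv c.1) := rfl

private theorem th_apply (c : Cb) (hr : (c.2 : ℝ) ≠ 0) (x : E3) :
    th c hr x = rv c.1 + (c.2 : ℝ) • x := rfl

private theorem conj_apply (c : Cb) (hr : (c.2 : ℝ) ≠ 0) (S : Equiv.Perm E3) (y : E3) :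
    (th c hr * S * (th c hr)⁻¹) y =
      rv c.1 + (c.2 : ℝ) • S ((c.2 : ℝ)⁻¹ • (y - rv c.1)) := rfl

private theorem th_inv_H0 (c : Cb) (hp : (0 : ℝ) < (c.2 : ℝ)) (hr : (c.2 : ℝ) ≠ 0) (y : E3) :
    (th c hr)⁻¹ y ∈ H0 ↔ y ∈ hc c := by
  rw [th_inv_apply]
  refine forall_congr' fun i => ?_
  change 0 ≤ (c.2 : ℝ)⁻¹ * (y i - (c.1 i : ℝ)) ∧ (c.2 : ℝ)⁻¹ * (y i - (c.1 i : ℝ)) < 1 ↔ _
  have h1 : 0 ≤ (c.2 : ℝ)⁻¹ * (y i - (c.1 i : ℝ)) ↔ (c.1 i : ℝ) ≤ y i := by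
    rw [mul_nonneg_iff_of_pos_left (inv_pos.2 hp), sub_nonneg]
  have h2 : (c.2 : ℝ)⁻¹ * (y i - (c.1 i : ℝ)) < 1 ↔ y i < (c.1 i : ℝ) + (c.2 : ℝ) := by
    rw [inv_mul_lt_iff₀ hp, mul_one, sub_lt_iff_lt_add']
  rw [h1, h2]

private theorem th_inv_Cube (c : Cb) (hp : (0 : ℝ) < (c.2 : ℝ)) (hr : (c.2 : ℝ) ≠ 0) (y : E3) :
    (th c hr)⁻¹ y ∈ Cube ↔ y ∈ oc c := by
  rw [th_inv_apply]
  refine forall_congr' fun i => ?_
  change 0 < (c.2 : ℝ)⁻¹ * (y i - (c.1 i : ℝ)) ∧ (c.2 : ℝ)⁻¹ * (y i - (c.1 i : ℝ)) < 1 ↔ _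
  have h1 : 0 < (c.2 : ℝ)⁻¹ * (y i - (c.1 i : ℝ)) ↔ (c.1 i : ℝ) < y i := by
    rw [mul_pos_iff_of_pos_left (inv_pos.2 hp), sub_pos]
  have h2 : (c.2 : ℝ)⁻¹ * (y i - (c.1 i : ℝ)) < 1 ↔ y i < (c.1 i : ℝ) + (c.2 : ℝ) := by
    rw [inv_mul_lt_iff₀ hp, mul_one, sub_lt_iff_lt_add']
  rw [h1, h2]

private theorem conj_rat (c : Cb) (hr : (c.2 : ℝ) ≠ 0) {S : Equiv.Perm E3} {B : SLQ} {y : E3}
    (h : RatAt (fun z => S z) B ((th c hr)⁻¹ y)) :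
    RatAt (fun z => (th c hr * S * (th c hr)⁻¹) z) B y := by
  obtain ⟨b, hb⟩ := h
  refine ⟨c.1 - B.1.mulVec c.1 + c.2 • b, ?_⟩
  have hc : Continuous fun z : E3 => (c.2 : ℝ)⁻¹ • (z - rv c.1) := by
    fun_prop
  have h1 : Tendsto (fun z : E3 => (c.2 : ℝ)⁻¹ • (z - rv c.1)) (𝓝 y) (𝓝 ((th c hr)⁻¹ y)) :=
    hc.continuousAt
  filter_upwards [h1.eventually hb] with z hz
  rw [conj_apply, hz, aff, aff]
  have h2 : rv (c.1 - B.1.mulVec c.1 + c.2 • b) =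
      rv c.1 - (rm B).mulVec (rv c.1) + (c.2 : ℝ) • rv b := by
    rw [rm_rv]
    ext i
    simp [rv]
  rw [h2, Matrix.mulVec_smul, Matrix.mulVec_sub, smul_add, smul_smul, mul_inv_cancel₀ hr,
    one_smul]
  abel

private theorem conj_null (c : Cb) (hr : (c.2 : ℝ) ≠ 0) {N : Set E3} (hN : volume N = 0) :
    volume ((fun y : E3 => (th c hr)⁻¹ y) ⁻¹' N) = 0 := by
  have h1 : (fun y : E3 => (th c hr)⁻¹ y) ⁻¹' N =
      (fun y : E3 => y + -rv c.1) ⁻¹' ((fun y : E3 => (c.2 : ℝ)⁻¹ • y) ⁻¹' N) := by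
    ext y
    rw [mem_preimage, mem_preimage, mem_preimage, th_inv_apply, sub_eq_add_neg]
  rw [h1, measure_preimage_add_right, Measure.addHaar_preimage_smul volume (inv_ne_zero hr), hN,
    mul_zero]

private theorem conj_ae (c : Cb) (hp : (0 : ℝ) < (c.2 : ℝ)) (hr : (c.2 : ℝ) ≠ 0)
    {p : E3 → Prop} (h : ∀ᵐ x ∂(volume.restrict Cube), p x) :
    ∀ᵐ y ∂(volume.restrict (oc c)), p ((th c hr)⁻¹ y) := by
  rw [ae_restrict_iff' measurableSet_cube, ae_iff] at h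
  rw [ae_restrict_iff' (measurableSet_oc c), ae_iff]
  refine measure_mono_null ?_ (conj_null c hr h)
  intro y hy
  have h1 : ¬ (y ∈ oc c → p ((th c hr)⁻¹ y)) := hy
  change ¬ ((th c hr)⁻¹ y ∈ Cube → p ((th c hr)⁻¹ y))
  rwa [th_inv_Cube c hp hr]

private theorem conj_off (c : Cb) (hp : (0 : ℝ) < (c.2 : ℝ)) (hr : (c.2 : ℝ) ≠ 0)
    {S : Equiv.Perm E3} (hS : ∀ x, x ∉ H0 → S x = x) :
    IdOff (hc c) (th c hr * S * (th c hr)⁻¹) := by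
  intro y hy
  have h1 : (th c hr)⁻¹ y ∉ H0 := fun h => hy ((th_inv_H0 c hp hr y).1 h)
  change th c hr (S ((th c hr)⁻¹ y)) = y
  rw [hS _ h1]
  exact (th c hr).apply_symm_apply y

/-- the closed cube -/
private def clc (c : Cb) : Set E3 :=
  {x | ∀ i, ((c.1 i : ℚ) : ℝ) ≤ x i ∧ x i ≤ (c.1 i : ℝ) + (c.2 : ℝ)}

private theorem isClosed_clc (c : Cb) : IsClosed (clc c) := by
  have h1 : clc c = ⋂ i, ({x : E3 | ((c.1 i : ℚ) : ℝ) ≤ x i} ∩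
      {x : E3 | x i ≤ (c.1 i : ℝ) + (c.2 : ℝ)}) := by
    ext x
    simp [clc]
  rw [h1]
  exact isClosed_iInter fun i => (isClosed_le continuous_const (continuous_apply i)).inter
    (isClosed_le (continuous_apply i) continuous_const)

private theorem null_hyp (i : Fin 3) (a : ℝ) : volume {x : E3 | x i = a} = 0 := by
  rw [volume_pi]
  exact Measure.pi_hyperplane (fun _ : Fin 3 => (volume : Measure ℝ)) i a

private theorem null_bd (c : Cb) : volume (clc c \ oc c) = 0 := by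
  refine measure_mono_null (t := ⋃ i, ({x : E3 | x i = ((c.1 i : ℚ) : ℝ)} ∪
    {x : E3 | x i = (c.1 i : ℝ) + (c.2 : ℝ)})) ?_ ?_
  · rintro x ⟨h1, h2⟩
    by_contra hn
    refine h2 fun i => ?_
    have h3 : ¬ (x i = ((c.1 i : ℚ) : ℝ)) := fun h => hn (mem_iUnion.2 ⟨i, Or.inl h⟩)
    have h4 : ¬ (x i = (c.1 i : ℝ) + (c.2 : ℝ)) := fun h => hn (mem_iUnion.2 ⟨i, Or.inr h⟩)
    exact ⟨lt_of_le_of_ne (h1 i).1 fun h => h3 h.symm, lt_of_le_of_ne (h1 i).2 h4⟩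
  · rw [measure_iUnion_null_iff]
    exact fun i => measure_union_null (null_hyp i _) (null_hyp i _)

private theorem hc_sub_clc (c : Cb) : hc c ⊆ clc c := fun _ hx i => ⟨(hx i).1, (hx i).2.le⟩

private theorem conj_reg (c : Cb) (hp : (0 : ℝ) < (c.2 : ℝ)) (hr : (c.2 : ℝ) ≠ 0)
    {S : Equiv.Perm E3} (hS : ∀ x, x ∉ H0 → S x = x)
    (h : ∀ᵐ x ∂(volume.restrict Cube), ∃ A ∈ (⊤ : Subgroup SLQ), RatAt (fun y => S y) A x) :
    ∀ᵐ x ∂(volume.restrict Cube), ∃ A ∈ (⊤ : Subgroup SLQ),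
      RatAt (fun y => (th c hr * S * (th c hr)⁻¹) y) A x := by
  have h1 := conj_ae c hp hr h
  rw [ae_restrict_iff' (measurableSet_oc c)] at h1
  have h2 : ∀ᵐ x ∂(volume : Measure E3), x ∉ clc c \ oc c := by
    rw [ae_iff]
    have h3 : {x : E3 | ¬ (x ∉ clc c \ oc c)} = clc c \ oc c := by
      ext x
      exact not_not
    rw [h3]
    exact null_bd c
  rw [ae_restrict_iff' measurableSet_cube]
  filter_upwards [h1, h2] with x h3 h4 _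
  by_cases hx : x ∈ oc c
  · obtain ⟨B, hB, h5⟩ := h3 hx
    exact ⟨B, hB, conj_rat c hr h5⟩
  · have hx' : x ∉ clc c := fun h => h4 ⟨h, hx⟩
    refine ⟨1, Subgroup.mem_top _, (RatAt.id x).congr ?_⟩
    filter_upwards [(isClosed_clc c).isOpen_compl.mem_nhds hx'] with y hy
    exact conj_off c hp hr hS y fun h => hy (hc_sub_clc c h)

private theorem conj_inv (c : Cb) (hr : (c.2 : ℝ) ≠ 0) (S : Equiv.Perm E3) :
    (th c hr * S * (th c hr)⁻¹)⁻¹ = th c hr * S⁻¹ * (th c hr)⁻¹ := by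
  group

theorem ex_cube {A : SLQ}
    (hA : ∃ T : TG, ∀ᵐ x ∂(volume.restrict Cube), RatAt (fun y => T.1 y) A x)
    (c : Cb) (hp : 0 < c.2) (hs : hc c ⊆ H0) :
    ∃ T : TG, IdOff (hc c) T.1 ∧ (∀ᵐ x ∂(volume.restrict (oc c)), RatAt (fun y => T.1 y) A x) ∧
      ∀ᵐ x ∂(volume.restrict (oc c)), RatAt (fun y => (T⁻¹).1 y) A⁻¹ x := by
  obtain ⟨T₁, hT⟩ := hA
  have hp' : (0 : ℝ) < (c.2 : ℝ) := by exact_mod_cast hp
  have hr : (c.2 : ℝ) ≠ 0 := hp'.ne'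
  have h1 : IsTT ⊤ T₁.1 := T₁.2
  have hI : ∀ᵐ x ∂(volume.restrict Cube), RatAt (fun y => T₁.1⁻¹ y) A⁻¹ x := by
    filter_upwards [h1.inv.ae_comp hT] with x hx
    have h2 := hx.inv
    have h3 : T₁.1 (T₁.1⁻¹ x) = x := (T₁.1).apply_symm_apply x
    rwa [h3] at h2
  refine ⟨⟨th c hr * T₁.1 * (th c hr)⁻¹, ?_⟩, ?_, ?_, ?_⟩
  · refine ⟨fun x hx => conj_off c hp' hr h1.off x fun h => hx (hs h),
      conj_reg c hp' hr h1.off h1.reg, ?_⟩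
    rw [conj_inv]
    exact conj_reg c hp' hr h1.off' h1.reg'
  · exact conj_off c hp' hr h1.off
  · filter_upwards [conj_ae c hp' hr hT] with x hx
    exact conj_rat c hr hx
  · change ∀ᵐ x ∂(volume.restrict (oc c)),
      RatAt (fun y => (th c hr * T₁.1 * (th c hr)⁻¹)⁻¹ y) A⁻¹ x
    rw [conj_inv]
    filter_upwards [conj_ae c hp' hr hI] with x hx
    exact conj_rat c hr hx

end Pool.Agent.QM59.D
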