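import Mathlib
import Pool.Agent.Lib.MP_decea1_gt_D.LblA

/-!
# MP_decea1_gt, block D, module ExC: existence of maps with given label on a family

Glue: `L x := T_c x` for `x ∈ hc c`, `c ∈ F` (`T_c` from `ex_cube`), `L x := x` off the union; each
`T_c` maps `hc c` onto itself, so `L` is a permutation (inverse: glue of the inverses).  Near a point
of the open cube `oc c` the map `L` equals `T_c`.  `L x ∈ oc c` for almost every `x ∈ oc c`: `L x` is
in `hc c`, and `hc c \ oc c` is a null set (quasi-invariance, `ae_comp` for the glued map; or: at a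
point with `RatAt` the map is open, so `L x` is interior).
-/

set_option autoImplicit false

open MeasureTheory Set Filter Topology

namespace Pool.Agent.QM59.D

/-- a point near which all points lie in the half-open cube lies in the open cube -/
private theorem oc_of_nhds {c : Cb} {x : E3} (h : ∀ᶠ y in 𝓝 x, y ∈ hc c) : x ∈ oc c := by
  have hx : x ∈ hc c := h.self_of_nhds
  intro i
  refine ⟨?_, (hx i).2⟩
  rcases (hx i).1.lt_or_eq with h1 | h1
  · exact h1
  · exfalso
    have hc' : Tendsto (fun t : ℝ => Function.update x i (x i - t)) (𝓝[>] 0) (𝓝 x) := by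
      have h2 : Continuous (fun t : ℝ => Function.update x i (x i - t)) :=
        continuous_const.update i (continuous_const.sub continuous_id)
      have h3 := h2.tendsto 0
      simp only [sub_zero, Function.update_eq_self] at h3
      exact h3.mono_left nhdsWithin_le_nhds
    have h2 := hc'.eventually h
    have h3 : ∀ᶠ t : ℝ in 𝓝[>] 0, 0 < t := self_mem_nhdsWithin
    obtain ⟨t, ht1, ht2⟩ := (h2.and h3).exists
    have h4 := (ht1 i).1
    rw [Function.update_self, ← h1] at h4
    linarith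

/-- a permutation which is the identity off a set preserves the set -/
private theorem mem_iff_of_idOff {S : Set E3} {T : Equiv.Perm E3} (hT : ∀ x, x ∉ S → T x = x)
    (x : E3) : T x ∈ S ↔ x ∈ S := by
  by_cases hx : x ∈ S
  · refine ⟨fun _ => hx, fun _ => ?_⟩
    by_contra h
    have h1 := T.injective (hT _ h)
    rw [h1] at h
    exact h hx
  · rw [hT x hx]

private theorem inv_of_idOff {S : Set E3} {T : Equiv.Perm E3} (hT : ∀ x, x ∉ S → T x = x)
    (x : E3) (hx : x ∉ S) : T⁻¹ x = x := by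
  rw [Equiv.Perm.inv_eq_iff_eq, hT x hx]

open Classical in
/-- the glued map -/
private noncomputable def glueFun (F : Set Cb) (t : Cb → Equiv.Perm E3) (x : E3) : E3 :=
  if h : ∃ c ∈ F, x ∈ hc c then t h.choose x else x

private theorem glueFun_mem {F : Set Cb} (hF : CFam F) (t : Cb → Equiv.Perm E3) {c : Cb}
    (hc' : c ∈ F) {x : E3} (hx : x ∈ hc c) : glueFun F t x = t c x := by
  have h : ∃ c ∈ F, x ∈ hc c := ⟨c, hc', hx⟩
  unfold glueFun
  rw [dif_pos h]
  rw [hF.eq_of_mem h.choose_spec.1 hc' h.choose_spec.2 hx]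

private theorem glueFun_off {F : Set Cb} (t : Cb → Equiv.Perm E3) {x : E3}
    (hx : ∀ c ∈ F, x ∉ hc c) : glueFun F t x = x := by
  have h : ¬ ∃ c ∈ F, x ∈ hc c := by
    rintro ⟨c, h1, h2⟩
    exact hx c h1 h2
  unfold glueFun
  rw [dif_neg h]

private theorem glue_left {F : Set Cb} (hF : CFam F) {t : Cb → Equiv.Perm E3}
    (ht : ∀ c ∈ F, ∀ x, x ∉ hc c → t c x = x) (x : E3) :
    glueFun F (fun c => (t c)⁻¹) (glueFun F t x) = x := by
  by_cases h : ∃ c ∈ F, x ∈ hc c
  · obtain ⟨c, h1, h2⟩ := h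
    rw [glueFun_mem hF t h1 h2, glueFun_mem hF _ h1 ((mem_iff_of_idOff (ht c h1) x).2 h2)]
    simp
  · have h' : ∀ c ∈ F, x ∉ hc c := fun c h1 h2 => h ⟨c, h1, h2⟩
    rw [glueFun_off t h', glueFun_off _ h']

/-- the glued permutation -/
private noncomputable def glue {F : Set Cb} (hF : CFam F) (t : Cb → Equiv.Perm E3)
    (ht : ∀ c ∈ F, ∀ x, x ∉ hc c → t c x = x) : Equiv.Perm E3 where
  toFun := glueFun F t
  invFun := glueFun F fun c => (t c)⁻¹
  left_inv := glue_left hF ht
  right_inv := fun x => by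
    have k := glue_left hF (t := fun c => (t c)⁻¹) (fun c h1 x hx => inv_of_idOff (ht c h1) x hx) x
    simpa using k

theorem ex_label_of {F : Set Cb} (hF : CFam F) (g : Cb → SLQ)
    (hex : ∀ c ∈ F, ∃ T : TG, IdOff (hc c) T.1 ∧
      (∀ᵐ x ∂(volume.restrict (oc c)), RatAt (fun y => T.1 y) (g c) x) ∧
      ∀ᵐ x ∂(volume.restrict (oc c)), RatAt (fun y => (T⁻¹).1 y) (g c)⁻¹ x) :
    ∃ L : TG, PP F L.1 ∧ Lbl F g L.1 := by
  classical
  set t : Cb → Equiv.Perm E3 := fun c => if h : c ∈ F then (hex c h).choose.1 else 1 with htdef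
  have htc : ∀ c (h : c ∈ F), t c = (hex c h).choose.1 := fun c h => by
    rw [htdef]
    simp only [dif_pos h]
  have ht : ∀ c ∈ F, ∀ x, x ∉ hc c → t c x = x := fun c h x hx => by
    rw [htc c h]
    exact (hex c h).choose_spec.1 x hx
  have hr : ∀ c ∈ F, ∀ᵐ x ∂(volume.restrict (oc c)), RatAt (fun y => t c y) (g c) x :=
    fun c h => by
      rw [htc c h]
      exact (hex c h).choose_spec.2.1
  have hr' : ∀ c ∈ F, ∀ᵐ x ∂(volume.restrict (oc c)), RatAt (fun y => (t c)⁻¹ y) (g c)⁻¹ x :=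
    fun c h => by
      rw [htc c h]
      exact (hex c h).choose_spec.2.2
  set L : Equiv.Perm E3 := glue hF t ht with hL
  have hLm : ∀ c ∈ F, ∀ x ∈ hc c, L x = t c x := fun c h x hx => glueFun_mem hF t h hx
  have hLm' : ∀ c ∈ F, ∀ x ∈ hc c, L⁻¹ x = (t c)⁻¹ x := fun c h x hx =>
    glueFun_mem hF (fun c => (t c)⁻¹) h hx
  have hLo : ∀ x, (∀ c ∈ F, x ∉ hc c) → L x = x := fun x hx => glueFun_off t hx
  -- the label
  have hnear : ∀ c, ∀ x ∈ oc c, ∀ᶠ y in 𝓝 x, y ∈ hc c := fun c x hx =>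
    Filter.mem_of_superset ((isOpen_oc c).mem_nhds hx) (oc_subset_hc c)
  have hLr : ∀ c ∈ F, ∀ᵐ x ∂(volume.restrict (oc c)), RatAt (fun y => L y) (g c) x := by
    intro c h
    filter_upwards [hr c h, ae_restrict_mem (measurableSet_oc c)] with x h1 h2
    exact h1.congr ((hnear c x h2).mono fun y hy => hLm c h y hy)
  have hLr' : ∀ c ∈ F, ∀ᵐ x ∂(volume.restrict (oc c)), RatAt (fun y => L⁻¹ y) (g c)⁻¹ x := by
    intro c h
    filter_upwards [hr' c h, ae_restrict_mem (measurableSet_oc c)] with x h1 h2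
    exact h1.congr ((hnear c x h2).mono fun y hy => hLm' c h y hy)
  have hLi : ∀ c ∈ F, ∀ x, L x ∈ hc c ↔ x ∈ hc c := by
    intro c h x
    constructor
    · intro hx
      by_contra hn
      by_cases h' : ∃ c' ∈ F, x ∈ hc c'
      · obtain ⟨c', h1, h2⟩ := h'
        have k : L x ∈ hc c' := by
          rw [hLm c' h1 x h2]
          exact (mem_iff_of_idOff (ht c' h1) x).2 h2
        have e := hF.eq_of_mem h h1 hx k
        rw [e] at hn
        exact hn h2
      · rw [hLo x fun c' h1 h2 => h' ⟨c', h1, h2⟩] at hx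
        exact hn hx
    · intro hx
      rw [hLm c h x hx]
      exact (mem_iff_of_idOff (ht c h) x).2 hx
  have hlbl : Lbl F g L := by
    intro c h
    filter_upwards [hLr c h, ae_restrict_mem (measurableSet_oc c)] with x h1 h2
    refine ⟨oc_of_nhds ?_, h1⟩
    have k1 := h1.inv.continuousAt
    have e : L⁻¹ (L x) = x := by simp
    have k2 : ∀ᶠ z in 𝓝 (L x), L⁻¹ z ∈ hc c := by
      apply k1.eventually
      show ∀ᶠ y in 𝓝 (L⁻¹ (L x)), y ∈ hc c
      rw [e]
      exact hnear c x h2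
    filter_upwards [k2] with z hz
    have := (hLi c h (L⁻¹ z)).2 hz
    simpa using this
  have htt : IsTT ⊤ L := by
    refine ⟨fun x hx => hLo x fun c h1 h2 => hx (hF.sub c h1 h2), ?_, ?_⟩
    · refine hF.ae fun c h => ?_
      filter_upwards [hLr c h] with x hx
      exact ⟨g c, Subgroup.mem_top _, hx⟩
    · refine hF.ae fun c h => ?_
      filter_upwards [hLr' c h] with x hx
      exact ⟨(g c)⁻¹, Subgroup.mem_top _, hx⟩
  exact ⟨⟨L, htt⟩, ⟨⟨g, hlbl⟩, hLi, hLo⟩, hlbl⟩

end Pool.Agent.QM59.D
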