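import Mathlib
import Pool.Agent.Lib.MP_decea1_gt_D.ExA
import Pool.Agent.Lib.MP_decea1_gt_D.ExB
import Pool.Agent.Lib.MP_decea1_gt_D.ExC

/-!
# MP_decea1_gt, block D, module ExL: existence of maps with a given label (assembled)
-/

set_option autoImplicit false

open MeasureTheory Set Filter Topology

namespace Pool.Agent.QM59.D

theorem ex_label (hgen : Gen) {F : Set Cb} (hF : CFam F) (g : Cb → SLQ) :
    ∃ L : TG, PP F L.1 ∧ Lbl F g L.1 :=
  ex_label_of hF g fun c hc => ex_cube (ex_unit hgen (g c)) c (hF.pos c hc) (hF.sub c hc)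

end Pool.Agent.QM59.D
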