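import Mathlib
import Pool.Agent.Lib.MP_decea1_gt_D.LblA
import Pool.Agent.Lib.MP_decea1_gt_D.ExL

/-!
# MP_decea1_gt, block D, module Ref: refinement of decompositions

`QF_LL`: `N := {κ | Lbl F 1 κ}` is a subgroup (`Lbl.one/mul/inv`) contained in `QQG`
(`Lbl.mem_QQG`), so the cocycle vanishes on it (`hQ`), and every `L` with a label is in its
normaliser (`Lbl.mul`, `Lbl.inv`: the label of `L κ L⁻¹` is `g 1 g⁻¹ = 1`): `HC.normal`,
`HC.normal'`.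
`same_label`: `L L'⁻¹` has the label `g g⁻¹ = 1`; `L = (L L'⁻¹) L'`.
`split`: for `c' ∈ F'` let `g' c' := g c` for the cube `c ∈ F` containing it (unique, because open
cubes of `F` are disjoint and `oc c'` is not empty), `ex_label` gives `L' ∈ PP F'` with label `g'`;
`L'` has the label `g` on `F` (`Lbl.coarse`), apply `same_label`.
-/

set_option autoImplicit false

open MeasureTheory Set Filter Topology

namespace Pool.Agent.QM59.D

open HX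

variable {c : TG → TG → ℝ} {D : ℝ} {F F' : Set Cb} {g : Cb → SLQ}

theorem QF_LL (h : HC TG c D) (hQ : ∀ κ ∈ QQG, ∀ κ' ∈ QQG, c κ κ' = 0) (hF : CFam F)
    {κ L : TG} (hκ : Lbl F (fun _ => 1) κ.1) (hL : Lbl F g L.1) : c κ L = 0 ∧ c L κ = 0 := by
  let N : Subgroup TG :=
    { carrier := {κ | Lbl F (fun _ => 1) κ.1}
      mul_mem' := fun {a b} ha hb => (Lbl.mul hF ha hb).congr fun _ _ => mul_one 1
      one_mem' := Lbl.one F
      inv_mem' := fun {a} ha => (Lbl.inv hF ha).congr fun _ _ => inv_one }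
  have hN : ∀ s ∈ N, ∀ t ∈ N, c s t = 0 := fun s hs t ht =>
    hQ s (Lbl.mem_QQG hF hs) t (Lbl.mem_QQG hF ht)
  have h1 : ∀ t ∈ N, L * t * L⁻¹ ∈ N := fun t ht =>
    (Lbl.mul hF (Lbl.mul hF hL ht) (Lbl.inv hF hL)).congr fun c _ => by
      rw [mul_one, mul_inv_cancel]
  have h2 : ∀ t ∈ N, L⁻¹ * t * L ∈ N := fun t ht =>
    (Lbl.mul hF (Lbl.mul hF (Lbl.inv hF hL) ht) hL).congr fun c _ => by
      rw [mul_one, inv_mul_cancel]
  exact ⟨h.normal N hN h1 hκ, h.normal' N hN h2 hκ⟩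

theorem same_label (h : HC TG c D) (hQ : ∀ κ ∈ QQG, ∀ κ' ∈ QQG, c κ κ' = 0) (hF : CFam F)
    {L L' : TG} (hL : Lbl F g L.1) (hL' : Lbl F g L'.1) :
    Lbl F (fun _ => 1) (L * L'⁻¹).1 ∧ sg h L = sg h (L * L'⁻¹) * sg h L' := by
  have h1 : Lbl F (fun _ => 1) (L * L'⁻¹).1 :=
    (Lbl.mul hF hL (Lbl.inv hF hL')).congr fun c _ => mul_inv_cancel _
  refine ⟨h1, ?_⟩
  have h2 := (sg_mul_iff (h := h) (L * L'⁻¹) L').2 (QF_LL h hQ hF h1 hL').1
  rw [h2, inv_mul_cancel_right]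

theorem split (h : HC TG c D) (hQ : ∀ κ ∈ QQG, ∀ κ' ∈ QQG, c κ κ' = 0) (hgen : Gen)
    (hF : CFam F) (hF' : CFam F') (hr : ∀ c' ∈ F', ∃ c ∈ F, oc c' ⊆ oc c) {L : TG}
    (hL : Lbl F g L.1) :
    ∃ (g' : Cb → SLQ) (κ L' : TG), Lbl F (fun _ => 1) κ.1 ∧ PP F' L'.1 ∧ Lbl F' g' L'.1 ∧
      (∀ c' ∈ F', ∀ c ∈ F, oc c' ⊆ oc c → g' c' = g c) ∧ L = κ * L' ∧
      sg h L = sg h κ * sg h L' := by
  classical
  let g' : Cb → SLQ := fun c' => if hc : ∃ c ∈ F, oc c' ⊆ oc c then g hc.choose else 1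
  have hg' : ∀ c' ∈ F', ∀ c ∈ F, oc c' ⊆ oc c → g' c' = g c := by
    intro c' hc' c hc hs
    have h1 : ∃ c ∈ F, oc c' ⊆ oc c := ⟨c, hc, hs⟩
    have h2 : g' c' = g h1.choose := dif_pos h1
    have h3 := h1.choose_spec
    have hp : (0 : ℝ) < (c'.2 : ℝ) := by exact_mod_cast hF'.pos c' hc'
    have hx : (fun i => (c'.1 i : ℝ) + (c'.2 : ℝ) / 2) ∈ oc c' := by
      intro i
      constructor
      · change (c'.1 i : ℝ) < (c'.1 i : ℝ) + (c'.2 : ℝ) / 2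
        linarith
      · change (c'.1 i : ℝ) + (c'.2 : ℝ) / 2 < (c'.1 i : ℝ) + (c'.2 : ℝ)
        linarith
    have h4 : h1.choose = c :=
      hF.eq_of_mem h3.1 hc (oc_subset_hc _ (h3.2 hx)) (oc_subset_hc _ (hs hx))
    rw [h2, h4]
  obtain ⟨L', hP, hL'⟩ := ex_label hgen hF' g'
  have h5 : Lbl F g L'.1 := Lbl.coarse hF hF' hr hL' hg'
  obtain ⟨h6, h7⟩ := same_label h hQ hF hL h5
  exact ⟨g', L * L'⁻¹, L', h6, hP, hL', hg', (inv_mul_cancel_right L L').symm, h7⟩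

end Pool.Agent.QM59.D
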