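import Mathlib
import Pool.Agent.Lib.MP_decea1_gt_D.ConA
import Pool.Agent.Lib.MP_decea1_gt_D.Ref

/-!
# MP_decea1_gt, block D, module Conj5: `sg L * sg τ` for `L ∈ PP F`, `τ ∈ QQG`
-/

set_option autoImplicit false

open MeasureTheory Set Filter Topology

namespace Pool.Agent.QM59.D

open HX

variable {c : TG → TG → ℝ} {D : ℝ}

theorem CFam.ref_self {F : Set Cb} : ∀ c' ∈ F, ∃ c ∈ F, oc c' ⊆ oc c := fun c' h => ⟨c', h, Subset.rfl⟩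

theorem conj5 (h : HC TG c D) (hQ : ∀ κ ∈ QQG, ∀ κ' ∈ QQG, c κ κ' = 0) (hgen : Gen)
    {F : Set Cb} (hF : CFam F) {L τ : TG} (hL : PP F L.1) (hτ : τ ∈ QQG) :
    ∃ (F' : Set Cb) (κ L' : TG), CFam F' ∧ κ ∈ QQG ∧ PP F' L'.1 ∧
      sg h L * sg h τ = sg h κ * sg h L' := by
  obtain ⟨⟨g, hg⟩, -, -⟩ := hL
  obtain ⟨F₁, b, hF₁, hr, hb⟩ := conj_fam hF hτ
  obtain ⟨g₁, κ₁, L₁, hκ₁, -, hL₁, -, -, e1⟩ := split h hQ hgen hF hF₁ hr hg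
  obtain ⟨F₂, g₂, hF₂, hL₂⟩ := conj_img hF₁ τ b hb hL₁
  obtain ⟨g₃, κ₃, L₃, hκ₃, hPP, hL₃, -, -, e2⟩ := split h hQ hgen hF₂ hF₂ CFam.ref_self hL₂
  have hκ₁' : κ₁ ∈ QQG := hκ₁.mem_QQG hF
  have hκ₃' : κ₃ ∈ QQG := hκ₃.mem_QQG hF₂
  refine ⟨F₂, κ₁ * τ * κ₃, L₃, hF₂, QQG.mul_mem (QQG.mul_mem hκ₁' hτ) hκ₃', hPP, ?_⟩
  have e3 : sg h (τ⁻¹ * L₁ * τ) = (sg h τ)⁻¹ * sg h L₁ * sg h τ := by
    have := sg_conj (h := h) τ⁻¹ L₁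
    rw [inv_inv, sg_inv, inv_inv] at this
    exact this
  have e4 : sg h (κ₁ * τ * κ₃) = sg h κ₁ * sg h τ * sg h κ₃ := by
    rw [← (sg_mul_iff (h := h) (κ₁ * τ) κ₃).2 (hQ _ (QQG.mul_mem hκ₁' hτ) _ hκ₃'),
      ← (sg_mul_iff (h := h) κ₁ τ).2 (hQ _ hκ₁' _ hτ)]
  rw [e4, e1, mul_assoc (sg h κ₁ * sg h τ), ← e2, e3]
  group

end Pool.Agent.QM59.D
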