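import Pool.Agent.Lib.MP_decea1_gt_D.D16

/-!
# MP_decea1_gt, block D, D1.3: a homogeneous bounded cocycle which vanishes on a normal subgroup
with abelian quotient vanishes
-/

set_option autoImplicit false

namespace Pool.Agent.QM59

namespace HC

variable {G : Type*} [Group G] {c : G → G → ℝ} {D : ℝ}

/-- D1.3 -/
theorem comm_quot (h : HC G c D) (A N : Subgroup G) (hNA : N ≤ A)
    (hN : ∀ s ∈ N, ∀ t ∈ N, c s t = 0) (hn : ∀ x ∈ A, ∀ t ∈ N, x * t * x⁻¹ ∈ N)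
    (hc : ∀ x ∈ A, ∀ y ∈ A, x * y * x⁻¹ * y⁻¹ ∈ N) : ∀ x ∈ A, ∀ y ∈ A, c x y = 0 := by
  have hnor : (N.subgroupOf A).Normal := ⟨fun t ht x => by
    rw [Subgroup.mem_subgroupOf] at ht ⊢
    exact hn x x.2 t ht⟩
  obtain ⟨cb, hcb, e⟩ := h.quot A (QuotientGroup.mk' (N.subgroupOf A))
    (QuotientGroup.mk'_surjective _) (by
      intro s t hs ht
      have hs' : s ∈ N.subgroupOf A := (QuotientGroup.eq_one_iff s).1 hs
      have ht' : t ∈ N.subgroupOf A := (QuotientGroup.eq_one_iff t).1 ht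
      exact hN s (Subgroup.mem_subgroupOf.1 hs') t (Subgroup.mem_subgroupOf.1 ht'))
  intro x hx y hy
  have e1 := e ⟨x, hx⟩ ⟨y, hy⟩
  rw [show c x y = c (⟨x, hx⟩ : A) (⟨y, hy⟩ : A) from rfl, e1]
  apply hcb.comm
  rw [← map_mul, ← map_mul]
  refine (QuotientGroup.eq).2 ?_
  rw [Subgroup.mem_subgroupOf]
  have h1 := hc _ (A.inv_mem hy) _ (A.inv_mem hx)
  have e2 : y⁻¹ * x⁻¹ * y⁻¹⁻¹ * x⁻¹⁻¹ = (x * y)⁻¹ * (y * x) := by group
  rw [e2] at h1
  simpa using h1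

end HC

end Pool.Agent.QM59
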