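import Pool.Agent.Lib.MP_decea1_gt_D.HC

/-!
# MP_decea1_gt, block D, D1.5: commuting products of subgroups on which a homogeneous bounded
cocycle vanishes
-/

set_option autoImplicit false

namespace Pool.Agent.QM59

namespace HC

variable {G : Type*} [Group G] {c : G → G → ℝ} {D : ℝ}

open HX

/-- products of commuting pieces -/
theorem mul_mul_comm (h : HC G c D) {a b a' b' : G} (hab : a * b = b * a) (hab' : a' * b' = b' * a')
    (hba : b * a' = a' * b) (h2 : (a * a') * (b * b') = (b * b') * (a * a')) (ha : c a a' = 0)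
    (hb : c b b' = 0) : c (a * b) (a' * b') = 0 := by
  have e1 : sg h a * sg h b = sg h (a * b) := (sg_mul_iff _ _).2 (h.comm hab)
  have e2 : sg h a' * sg h b' = sg h (a' * b') := (sg_mul_iff _ _).2 (h.comm hab')
  have e3 : sg h b * sg h a' = sg h a' * sg h b := by
    rw [(sg_mul_iff _ _).2 (h.comm hba), (sg_mul_iff _ _).2 (h.comm hba.symm), hba]
  have e4 : sg h a * sg h a' = sg h (a * a') := (sg_mul_iff _ _).2 ha
  have e5 : sg h b * sg h b' = sg h (b * b') := (sg_mul_iff _ _).2 hb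
  have e6 : sg h (a * a') * sg h (b * b') = sg h (a * a' * (b * b')) :=
    (sg_mul_iff _ _).2 (h.comm h2)
  rw [← sg_mul_iff (h := h), ← e1, ← e2]
  calc sg h a * sg h b * (sg h a' * sg h b') = sg h a * (sg h b * sg h a') * sg h b' := by group
    _ = (sg h a * sg h a') * (sg h b * sg h b') := by rw [e3]; group
    _ = sg h (a * a' * (b * b')) := by rw [e4, e5, e6]
    _ = sg h (a * b * (a' * b')) := by
        congr 1
        calc a * a' * (b * b') = a * (a' * b) * b' := by group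
          _ = a * b * (a' * b') := by rw [← hba]; group

/-- D1.5, two subgroups -/
theorem sup_comm (h : HC G c D) (A B : Subgroup G) (hA : ∀ x ∈ A, ∀ y ∈ A, c x y = 0)
    (hB : ∀ x ∈ B, ∀ y ∈ B, c x y = 0) (hAB : ∀ a ∈ A, ∀ b ∈ B, a * b = b * a) :
    ∀ x ∈ A ⊔ B, ∀ y ∈ A ⊔ B, c x y = 0 := by
  let P : Subgroup G :=
    { carrier := {x | ∃ a ∈ A, ∃ b ∈ B, x = a * b}
      mul_mem' := by
        rintro _ _ ⟨a, ha, b, hb, rfl⟩ ⟨a', ha', b', hb', rfl⟩
        refine ⟨a * a', A.mul_mem ha ha', b * b', B.mul_mem hb hb', ?_⟩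
        calc a * b * (a' * b') = a * (b * a') * b' := by group
          _ = a * a' * (b * b') := by rw [← hAB a' ha' b hb]; group
      one_mem' := ⟨1, A.one_mem, 1, B.one_mem, by simp⟩
      inv_mem' := by
        rintro _ ⟨a, ha, b, hb, rfl⟩
        refine ⟨a⁻¹, A.inv_mem ha, b⁻¹, B.inv_mem hb, ?_⟩
        rw [hAB a ha b hb, mul_inv_rev] }
  have hP : A ⊔ B ≤ P := by
    apply sup_le
    · intro a ha
      exact ⟨a, ha, 1, B.one_mem, by simp⟩
    · intro b hb
      exact ⟨1, A.one_mem, b, hb, by simp⟩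
  intro x hx y hy
  obtain ⟨a, ha, b, hb, rfl⟩ := hP hx
  obtain ⟨a', ha', b', hb', rfl⟩ := hP hy
  exact h.mul_mul_comm (hAB a ha b hb) (hAB a' ha' b' hb') (hAB a' ha' b hb).symm
    (hAB _ (A.mul_mem ha ha') _ (B.mul_mem hb hb')) (hA a ha a' ha') (hB b hb b' hb')

/-- D1.5, finite families (over a finset) -/
theorem biSup_comm (h : HC G c D) {ι : Type*} (S : ι → Subgroup G)
    (hS : ∀ i, ∀ x ∈ S i, ∀ y ∈ S i, c x y = 0)
    (hc : ∀ i j, i ≠ j → ∀ a ∈ S i, ∀ b ∈ S j, a * b = b * a) (s : Finset ι) :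
    ∀ x ∈ ⨆ i ∈ s, S i, ∀ y ∈ ⨆ i ∈ s, S i, c x y = 0 := by
  classical
  induction s using Finset.induction_on with
  | empty =>
    intro x hx y _
    have hx' : x = 1 := by simpa using hx
    rw [hx']
    exact h.one_left y
  | insert i s hi ih =>
    rw [Finset.iSup_insert]
    apply h.sup_comm _ _ (hS i) ih
    intro a ha b hb
    have hle : (⨆ j ∈ s, S j) ≤ Subgroup.centralizer {a} := by
      refine iSup₂_le fun j hj => ?_
      intro b hb
      rw [Subgroup.mem_centralizer_iff]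
      intro a' ha'
      rw [Set.mem_singleton_iff] at ha'
      rw [ha']
      have hne : i ≠ j := fun e => hi (e ▸ hj)
      exact hc i j hne a ha b hb
    have h1 := hle hb
    rw [Subgroup.mem_centralizer_iff] at h1
    exact h1 a rfl

/-- D1.5, finite families -/
theorem iSup_comm (h : HC G c D) {ι : Type*} [Finite ι] (S : ι → Subgroup G)
    (hS : ∀ i, ∀ x ∈ S i, ∀ y ∈ S i, c x y = 0)
    (hc : ∀ i j, i ≠ j → ∀ a ∈ S i, ∀ b ∈ S j, a * b = b * a) :
    ∀ x ∈ ⨆ i, S i, ∀ y ∈ ⨆ i, S i, c x y = 0 := by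
  classical
  have := Fintype.ofFinite ι
  have h1 := h.biSup_comm S hS hc Finset.univ
  simpa using h1

end HC

end Pool.Agent.QM59
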