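import Pool.Agent.Lib.MP_decea1_gt_D.HC

/-!
# MP_decea1_gt, block D, D1.6: a homogeneous bounded cocycle which vanishes on the kernel of a
surjective homomorphism descends to the quotient
-/

set_option autoImplicit false

namespace Pool.Agent.QM59

namespace HC

variable {G : Type*} [Group G] {c : G → G → ℝ} {D : ℝ}

/-- if `c` vanishes on `N` and `x`, `y` normalise `N`, then `c (x * s) (y * t) = c x y` for
`s, t ∈ N` -/
theorem mul_right_inv (h : HC G c D) (N : Subgroup G) (hN : ∀ s ∈ N, ∀ t ∈ N, c s t = 0)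
    {x y : G} (hx : ∀ t ∈ N, x⁻¹ * t * x ∈ N) (hy : ∀ t ∈ N, y * t * y⁻¹ ∈ N)
    (hy' : ∀ t ∈ N, y⁻¹ * t * y ∈ N) {s t : G} (hs : s ∈ N) (ht : t ∈ N) :
    c (x * s) (y * t) = c x y := by
  have key : ∀ {u : G}, u ∈ N → ∀ {z : G}, (∀ t ∈ N, z⁻¹ * t * z ∈ N) → c z (y * u) = c z y := by
    intro u hu z hz
    have hzy : c (z * y) u = 0 := by
      refine h.normal' N hN (fun t ht => ?_) hu
      have e : (z * y)⁻¹ * t * (z * y) = y⁻¹ * (z⁻¹ * t * z) * y := by group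
      rw [e]
      exact hy' _ (hz t ht)
    have e1 := h.coc z y u
    have e2 : c y u = 0 := h.normal' N hN hy' hu
    rw [hzy, e2] at e1
    linarith
  have hxs : ∀ t ∈ N, (x * s)⁻¹ * t * (x * s) ∈ N := by
    intro t ht
    have e : (x * s)⁻¹ * t * (x * s) = s⁻¹ * (x⁻¹ * t * x) * s := by group
    rw [e]
    exact N.mul_mem (N.mul_mem (N.inv_mem hs) (hx t ht)) hs
  rw [key ht hxs]
  have e1 := h.coc x s y
  have e2 : c x s = 0 := h.normal' N hN hx hs
  have e3 : c s y = 0 := h.normal N hN hy hs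
  rw [e2, e3] at e1
  have e4 : s * y = y * (y⁻¹ * s * y) := by group
  have e5 : c x (s * y) = c x y := by
    rw [e4]
    exact key (hy' s hs) hx
  linarith

/-- D1.6 -/
theorem quot (h : HC G c D) (A : Subgroup G) {Q : Type*} [Group Q] (L : A →* Q)
    (hL : Function.Surjective L) (hK : ∀ s t : A, L s = 1 → L t = 1 → c s t = 0) :
    ∃ cb : Q → Q → ℝ, HC Q cb D ∧ ∀ x y : A, c x y = cb (L x) (L y) := by
  let N : Subgroup G := L.ker.map A.subtype
  have memN : ∀ x : A, (x : G) ∈ N ↔ L x = 1 := by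
    intro x
    constructor
    · rintro ⟨y, hy, e⟩
      have : y = x := Subtype.ext e
      rw [← this]
      exact hy
    · intro hx
      exact ⟨x, hx, rfl⟩
  have hNA : N ≤ A := by
    rintro _ ⟨y, -, rfl⟩
    exact y.2
  have hN : ∀ s ∈ N, ∀ t ∈ N, c s t = 0 := by
    intro s hs t ht
    exact hK ⟨s, hNA hs⟩ ⟨t, hNA ht⟩ ((memN ⟨s, hNA hs⟩).1 hs) ((memN ⟨t, hNA ht⟩).1 ht)
  have hnorm : ∀ (x : A), ∀ t ∈ N, (x : G)⁻¹ * t * x ∈ N := by
    intro x t ht
    have h1 := (memN ⟨t, hNA ht⟩).1 ht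
    have h2 : L (x⁻¹ * ⟨t, hNA ht⟩ * x) = 1 := by
      rw [map_mul, map_mul, h1, mul_one, map_inv, inv_mul_cancel]
    exact (memN (x⁻¹ * ⟨t, hNA ht⟩ * x)).2 h2
  have hnorm' : ∀ (x : A), ∀ t ∈ N, (x : G) * t * (x : G)⁻¹ ∈ N := by
    intro x t ht
    have h1 := hnorm x⁻¹ t ht
    simpa using h1
  have inv : ∀ x x' y y' : A, L x = L x' → L y = L y' → c x y = c x' y' := by
    intro x x' y y' hx hy
    have h1 : (x : G)⁻¹ * x' ∈ N := (memN (x⁻¹ * x')).2 (by rw [map_mul, map_inv, hx,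
      inv_mul_cancel])
    have h2 : (y : G)⁻¹ * y' ∈ N := (memN (y⁻¹ * y')).2 (by rw [map_mul, map_inv, hy,
      inv_mul_cancel])
    have h3 := h.mul_right_inv N hN (hnorm x) (hnorm' y) (hnorm y) h1 h2
    rw [mul_inv_cancel_left, mul_inv_cancel_left] at h3
    exact h3.symm
  let r : Q → A := Function.surjInv hL
  have hr : ∀ q, L (r q) = q := Function.surjInv_eq hL
  refine ⟨fun p q => c (r p) (r q), ⟨?_, ?_, ?_⟩, ?_⟩
  · intro p q s
    have e1 : c (r (p * q)) (r s) = c ((r p : G) * r q) (r s) :=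
      inv (r (p * q)) (r p * r q) (r s) (r s) (by rw [hr, map_mul, hr, hr]) rfl
    have e2 : c (r p) (r (q * s)) = c (r p) ((r q : G) * r s) :=
      inv (r p) (r p) (r (q * s)) (r q * r s) rfl (by rw [hr, map_mul, hr, hr])
    simp only [e1, e2]
    exact h.coc _ _ _
  · intro p q
    exact h.bdd _ _
  · intro p m n
    have e1 : c (r (p ^ m)) (r (p ^ n)) = c (((r p ^ m : A) : G)) ((r p ^ n : A) : G) :=
      inv (r (p ^ m)) (r p ^ m) (r (p ^ n)) (r p ^ n) (by rw [hr, map_zpow, hr])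
        (by rw [hr, map_zpow, hr])
    show c (r (p ^ m)) (r (p ^ n)) = 0
    rw [e1, Subgroup.coe_zpow, Subgroup.coe_zpow]
    exact h.hom _ _ _
  · intro x y
    exact inv x (r (L x)) y (r (L y)) (hr _).symm (hr _).symm

end HC

end Pool.Agent.QM59
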