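import Mathlib
import Pool.Agent.Lib.MP_decea1_gt_D.Hat

/-!
# MP_decea1_gt, block D: the calculus of approximations on the group `hatG`

Products and inverses of approximations, for arbitrary elements of `hatG` (with an arbitrarily
small loss `δ`, because exceptional sets have to be closed).
-/

set_option autoImplicit false

open MeasureTheory Set Filter Topology

namespace Pool.Agent.QM59

variable {Γ : Subgroup (Equiv.Perm E3)} {φ : Equiv.Perm E3 → ℝ} {D : ℝ}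

namespace App

/-- symmetry -/
theorem symm {T T' : Equiv.Perm E3} {v : ℝ} (h : App T (fun x => T' x) v) :
    App T' (fun x => T x) v := by
  obtain ⟨K, c, m, e⟩ := h
  exact ⟨K, c, m, fun x hx hn => (e x hx hn).symm⟩

/-- product, general elements of `hatG` -/
theorem hat_mul (hΓ : Good Γ) {T T' S S' : Equiv.Perm E3} {v w δ : ℝ} (hS : S ∈ hatG hΓ)
    (h1 : App T (fun x => T' x) v) (h2 : App S (fun x => S' x) w) (hδ : 0 < δ) :
    App (T * S) (fun x => (T' * S') x) (v + w + δ) := by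
  have hv := h1.pos
  have hw := h2.pos
  obtain ⟨t, ht, K3, c3, m3, e3⟩ := hS δ hδ
  obtain ⟨K, c1, m1, e1⟩ := h1
  obtain ⟨L, c2, m2, e2⟩ := h2
  refine ⟨((fun x => t x) ⁻¹' K ∪ L) ∪ K3,
    ((c1.preimage (hΓ.continuous ht)).union c2).union c3, ?_, ?_⟩
  · rw [union_inter_distrib_right, union_inter_distrib_right]
    refine union_lt (by positivity) hδ (union_lt hv hw ?_ m2) m3
    have : (fun x => t x) ⁻¹' K ∩ Cube = (fun x => t x) ⁻¹' (K ∩ Cube) := by
      ext x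
      simp only [mem_inter_iff, mem_preimage, hΓ.cube_iff ht]
    rw [this, hΓ.vol_preimage ht (c1.measurableSet.inter measurableSet_cube)]
    exact m1
  · intro x hx hn
    simp only [mem_union, not_or, mem_preimage] at hn
    obtain ⟨⟨n1, n2⟩, n3⟩ := hn
    have a1 : t x = S x := e3 x hx n3
    have a2 : S x = S' x := e2 x hx n2
    have a3 : T (t x) = T' (t x) := e1 _ ((hΓ.cube_iff ht x).2 hx) n1
    show T (S x) = T' (S' x)
    rw [← a2, ← a1, a3]

/-- inverse, general elements of `hatG` -/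
theorem hat_inv (hΓ : Good Γ) {T T' : Equiv.Perm E3} {v δ : ℝ} (hT : T ∈ hatG hΓ)
    (h : App T (fun x => T' x) v) (hδ : 0 < δ) :
    App T⁻¹ (fun x => T'⁻¹ x) (v + δ) := by
  have hv := h.pos
  obtain ⟨t, ht, K3, c3, m3, e3⟩ := hT δ hδ
  obtain ⟨K, c1, m1, e1⟩ := h
  have ht' := Γ.inv_mem ht
  refine ⟨(fun x => t⁻¹ x) ⁻¹' (K ∪ K3), (c1.union c3).preimage (hΓ.continuous ht'), ?_, ?_⟩
  · have : (fun x => t⁻¹ x) ⁻¹' (K ∪ K3) ∩ Cube
        = (fun x => t⁻¹ x) ⁻¹' ((K ∩ Cube) ∪ (K3 ∩ Cube)) := by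
      ext x
      simp only [mem_inter_iff, mem_preimage, mem_union, hΓ.cube_iff ht']
      tauto
    rw [this, hΓ.vol_preimage ht' ((c1.measurableSet.inter measurableSet_cube).union
      (c3.measurableSet.inter measurableSet_cube))]
    exact union_lt hv hδ m1 m3
  · intro y hy hn
    simp only [mem_union, not_or, mem_preimage] at hn
    obtain ⟨n1, n3⟩ := hn
    have hC : t⁻¹ y ∈ Cube := (hΓ.cube_iff ht' y).2 hy
    have a1 : t (t⁻¹ y) = T (t⁻¹ y) := e3 _ hC n3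
    have a2 : T (t⁻¹ y) = T' (t⁻¹ y) := e1 _ hC n1
    have a3 : t (t⁻¹ y) = y := by simp
    rw [a3] at a1
    have b1 : T⁻¹ y = t⁻¹ y := by
      have : T⁻¹ y = T⁻¹ (T (t⁻¹ y)) := congrArg _ a1
      rw [this]; simp
    have b2 : T'⁻¹ y = t⁻¹ y := by
      have : T'⁻¹ y = T'⁻¹ (T' (t⁻¹ y)) := congrArg _ (a1.trans a2)
      rw [this]; simp
    rw [b1]; exact b2.symm

/-- a limit of elements of `hatG` is in `hatG` -/
theorem mem_hatG_of_lim (hΓ : Good Γ) {T : Equiv.Perm E3}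
    (h : ∀ v : ℝ, 0 < v → ∃ S ∈ hatG hΓ, App S (fun x => T x) v) : T ∈ hatG hΓ := by
  intro v hv
  obtain ⟨S, hS, h1⟩ := h (v / 2) (half_pos hv)
  obtain ⟨s, hs, h2⟩ := hS (v / 2) (half_pos hv)
  refine ⟨s, hs, ?_⟩
  have := h2.trans h1
  have e : v / 2 + v / 2 = v := by ring
  rwa [e] at this

end App

/-- the coboundary estimate for the second variable only -/
theorem cc_cont_right (hΓ : Good Γ) (hU : UC Γ φ) : ∀ ε : ℝ, 0 < ε → ∃ v : ℝ, 0 < v ∧
    ∀ T S S' : hatG hΓ, App S.1 (fun x => S'.1 x) v →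
      |cc hΓ φ T S - cc hΓ φ T S'| ≤ ε := by
  intro ε hε
  obtain ⟨v, hv, h⟩ := cc_cont hΓ hU ε hε
  exact ⟨v, hv, fun T S S' h1 => h T T S S' (App.refl _ hv) h1⟩

theorem cc_cont_left (hΓ : Good Γ) (hU : UC Γ φ) : ∀ ε : ℝ, 0 < ε → ∃ v : ℝ, 0 < v ∧
    ∀ T T' S : hatG hΓ, App T.1 (fun x => T'.1 x) v →
      |cc hΓ φ T S - cc hΓ φ T' S| ≤ ε := by
  intro ε hε
  obtain ⟨v, hv, h⟩ := cc_cont hΓ hU ε hε
  exact ⟨v, hv, fun T T' S h1 => h T T' S S h1 (App.refl _ hv)⟩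

/-- if `cc` vanishes on pairs arbitrarily close to `(T, S)`, it vanishes at `(T, S)` -/
theorem cc_eq_zero_of_lim (hΓ : Good Γ) (hU : UC Γ φ) (T S : hatG hΓ)
    (h : ∀ v : ℝ, 0 < v → ∃ T' S' : hatG hΓ, App T.1 (fun x => T'.1 x) v ∧
      App S.1 (fun x => S'.1 x) v ∧ cc hΓ φ T' S' = 0) : cc hΓ φ T S = 0 := by
  have h0 : |cc hΓ φ T S| ≤ 0 := by
    apply le_of_eps
    intro ε hε
    obtain ⟨v, hv, h1⟩ := cc_cont hΓ hU ε hε
    obtain ⟨T', S', h2, h3, h4⟩ := h v hv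
    have := h1 T T' S S' h2 h3
    rw [h4, sub_zero] at this
    linarith
  exact abs_nonpos_iff.1 h0

end Pool.Agent.QM59
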