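import Mathlib
import Pool.Agent.Lib.MP_decea1_gt_D.Dyad
import Pool.Agent.Lib.MP_decea1_gt_E.EDefs

/-!
# MP_decea1_gt, block D, module RoA: a family adapted to a map with `RatOff s v`

`B` := complement of the finite union of the closed cubes `QCube (c j) (ρ j)`.  For a.e. `x ∈ Cube`
either `x ∈ B` (open) or `x` is in the interior of some `QCube` (the boundary of a closed ball of
the sup norm is a null set), and there `s` is the rational affine map `(A j).app`, which is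
`aff ⟨(A j).L, (A j).det⟩ (A j).t`.  `dyad` with `p c := oc c ⊆ B ∨ ∃ A : SLQ, ∀ x ∈ oc c, RatAt s A x`.
-/

set_option autoImplicit false

open MeasureTheory Set Filter Topology

namespace Pool.Agent.QM59.D

private theorem RoA_app (A : RatA) (x : E3) : A.app x = aff ⟨A.L, A.det⟩ A.t x := by
  funext i
  simp [RatA.app, aff, rm, rv, Matrix.mulVec, dotProduct]

private theorem RoA_oc_subset {x : E3} {e : ℝ} {c : Cb} (hc2 : (c.2 : ℝ) < e) (he : 0 < e)
    (hx : x ∈ oc c) : oc c ⊆ Metric.ball x e := by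
  intro y hy
  rw [Metric.mem_ball, dist_pi_lt_iff he]
  intro i
  have h1 := hx i
  have h2 := hy i
  rw [Real.dist_eq, abs_lt]
  constructor <;> linarith [h1.1, h1.2, h2.1, h2.2]

theorem ratoff_fam {s : Equiv.Perm E3} {v : ℝ} (hR : RatOff s v) :
    ∃ (F : Set Cb) (g : Cb → SLQ) (B : Set E3), CFam F ∧ IsOpen B ∧
      volume (B ∩ Cube) < ENNReal.ofReal v ∧
      ∀ c ∈ F, oc c ⊆ B ∨ ∀ x ∈ oc c, RatAt (fun y => s y) (g c) x := by
  classical
  obtain ⟨n, c, ρ, A, hρ, -, -, hA, hv⟩ := hR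
  have hB : IsOpen (⋃ j, QCube (c j) (ρ j))ᶜ :=
    (isClosed_iUnion_of_finite fun j => Metric.isClosed_closedBall).isOpen_compl
  have hnull : ∀ᵐ x ∂(volume.restrict Cube), ∀ j, x ∉ Metric.sphere (qpt (c j)) (ρ j : ℝ) := by
    refine ae_restrict_of_ae (ae_all_iff.2 fun j => ?_)
    exact measure_eq_zero_iff_ae_notMem.1 (Measure.addHaar_sphere volume (qpt (c j)) (ρ j : ℝ))
  obtain ⟨F, hF, hp⟩ := dyad (fun d => oc d ⊆ (⋃ j, QCube (c j) (ρ j))ᶜ ∨
    ∃ a : SLQ, ∀ x ∈ oc d, RatAt (fun y => s y) a x) (by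
      filter_upwards [hnull] with x hx
      by_cases hxB : x ∈ (⋃ j, QCube (c j) (ρ j))ᶜ
      · obtain ⟨e, he, hsub⟩ := Metric.isOpen_iff.1 hB x hxB
        exact ⟨e, he, fun d _ hd2 _ hxd => Or.inl ((RoA_oc_subset hd2 he hxd).trans hsub)⟩
      · rw [notMem_compl_iff] at hxB
        obtain ⟨j, hj⟩ := mem_iUnion.1 hxB
        have hj2 : x ∈ Metric.ball (qpt (c j)) (ρ j : ℝ) :=
          lt_of_le_of_ne hj fun h => hx j h
        obtain ⟨e, he, hsub⟩ := Metric.isOpen_iff.1 Metric.isOpen_ball x hj2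
        refine ⟨e, he, fun d _ hd2 _ hxd => Or.inr ⟨⟨(A j).L, (A j).det⟩, fun y hy => ?_⟩⟩
        have hy2 : y ∈ Metric.ball (qpt (c j)) (ρ j : ℝ) := hsub (RoA_oc_subset hd2 he hxd hy)
        refine ⟨(A j).t, ?_⟩
        filter_upwards [Metric.isOpen_ball.mem_nhds hy2] with z hz
        rw [hA j z (Metric.ball_subset_closedBall hz), RoA_app])
  refine ⟨F, fun d => if h : ∃ a : SLQ, ∀ x ∈ oc d, RatAt (fun y => s y) a x then h.choose else 1,
    (⋃ j, QCube (c j) (ρ j))ᶜ, hF, hB, ?_, fun d hd => ?_⟩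
  · rw [inter_comm]
    exact hv
  · rcases hp d hd with h | h
    · exact Or.inl h
    · right
      simp only [h, ↓reduceDIte]
      exact h.choose_spec

end Pool.Agent.QM59.D
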