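import Mathlib
import Pool.Agent.Lib.MP_decea1_gt_D.TT

/-!
# MP_decea1_gt, block D, module GPa: permutations of the grid cubes

`M ≥ 1`.  For `x ∈ H0` let `k i = ⌊M x_i⌋ ∈ {0, …, M-1}` (index of the half-open grid cube of mesh
`1 / M` containing `x`).  For a permutation `π` of the indices let `G π x := x + (π k - k) / M` on
`H0` (in the cube `k`), the identity off `H0`.  `G` is a homomorphism, `G π` is a permutation of
`E3` with inverse `G π⁻¹`, and at every point of the open grid cubes (almost every point of the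
cube) it is a rational translation, so it is in `TTs ⊥`.
-/

set_option autoImplicit false

open MeasureTheory Set Filter Topology

namespace Pool.Agent.QM59.D

/-- `x` lies in the half-open grid cube with the index `k`. -/
private def GPaIn (M : ℕ) (k : Fin 3 → Fin M) (x : E3) : Prop :=
  ∀ i, ((k i : ℕ) : ℝ) ≤ (M : ℝ) * x i ∧ (M : ℝ) * x i < ((k i : ℕ) : ℝ) + 1

/-- The index of the grid cube of `x`. -/
private noncomputable def gpaIdx (M : ℕ) (hM : 0 < M) (x : E3) : Fin 3 → Fin M :=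
  fun i => if h : ⌊(M : ℝ) * x i⌋₊ < M then ⟨⌊(M : ℝ) * x i⌋₊, h⟩ else ⟨0, hM⟩

private theorem gpa_H0 {M : ℕ} (hM : 0 < M) {k : Fin 3 → Fin M} {x : E3} (h : GPaIn M k x) :
    x ∈ H0 := by
  intro i
  obtain ⟨h1, h2⟩ := h i
  have hM' : (0 : ℝ) < M := Nat.cast_pos.2 hM
  have h3 : (0 : ℝ) ≤ ((k i : ℕ) : ℝ) := Nat.cast_nonneg _
  have h4 : ((k i : ℕ) : ℝ) + 1 ≤ M := by exact_mod_cast (k i).2
  constructor
  · by_contra hn
    push Not at hn
    have := mul_neg_of_pos_of_neg hM' hn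
    linarith
  · by_contra hn
    push Not at hn
    have : (M : ℝ) ≤ (M : ℝ) * x i := le_mul_of_one_le_right hM'.le hn
    linarith

private theorem gpa_in {M : ℕ} (hM : 0 < M) {x : E3} (h : x ∈ H0) :
    GPaIn M (gpaIdx M hM x) x := by
  intro i
  obtain ⟨h1, h2⟩ := h i
  have hM' : (0 : ℝ) < M := Nat.cast_pos.2 hM
  have h3 : 0 ≤ (M : ℝ) * x i := mul_nonneg hM'.le h1
  have h4 : ⌊(M : ℝ) * x i⌋₊ < M := by
    rw [Nat.floor_lt h3]
    exact mul_lt_of_lt_one_right hM' h2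
  have h5 : ((gpaIdx M hM x i : Fin M) : ℕ) = ⌊(M : ℝ) * x i⌋₊ := by
    unfold gpaIdx
    rw [dif_pos h4]
  rw [h5]
  exact ⟨Nat.floor_le h3, Nat.lt_floor_add_one _⟩

private theorem gpa_idx {M : ℕ} (hM : 0 < M) {k : Fin 3 → Fin M} {x : E3} (h : GPaIn M k x) :
    gpaIdx M hM x = k := by
  funext i
  apply Fin.ext
  obtain ⟨h1, h2⟩ := h i
  obtain ⟨h3, h4⟩ := gpa_in hM (gpa_H0 hM h) i
  have h5 : ((gpaIdx M hM x i : ℕ) : ℝ) < ((k i : ℕ) : ℝ) + 1 := by linarith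
  have h6 : ((k i : ℕ) : ℝ) < ((gpaIdx M hM x i : ℕ) : ℝ) + 1 := by linarith
  have h7 : (gpaIdx M hM x i : ℕ) < (k i : ℕ) + 1 := by exact_mod_cast h5
  have h8 : (k i : ℕ) < (gpaIdx M hM x i : ℕ) + 1 := by exact_mod_cast h6
  omega

open Classical in
/-- The map which permutes the grid cubes. -/
private noncomputable def gpaMap (M : ℕ) (hM : 0 < M) (π : Equiv.Perm (Fin 3 → Fin M))
    (x : E3) : E3 :=
  if x ∈ H0 then fun i => x i + (((π (gpaIdx M hM x) i : Fin M) : ℕ) -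
    ((gpaIdx M hM x i : ℕ) : ℝ)) / (M : ℝ) else x

private theorem gpa_off {M : ℕ} (hM : 0 < M) (π : Equiv.Perm (Fin 3 → Fin M)) {x : E3}
    (h : x ∉ H0) : gpaMap M hM π x = x := by
  unfold gpaMap
  rw [if_neg h]

private theorem gpa_val {M : ℕ} (hM : 0 < M) (π : Equiv.Perm (Fin 3 → Fin M))
    {k : Fin 3 → Fin M} {x : E3} (h : GPaIn M k x) (i : Fin 3) :
    gpaMap M hM π x i = x i + (((π k i : Fin M) : ℕ) - ((k i : ℕ) : ℝ)) / (M : ℝ) := by
  unfold gpaMap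
  rw [if_pos (gpa_H0 hM h), gpa_idx hM h]

private theorem gpa_map_in {M : ℕ} (hM : 0 < M) (π : Equiv.Perm (Fin 3 → Fin M))
    {k : Fin 3 → Fin M} {x : E3} (h : GPaIn M k x) : GPaIn M (π k) (gpaMap M hM π x) := by
  intro i
  have hM' : (M : ℝ) ≠ 0 := (Nat.cast_pos.2 hM).ne'
  rw [gpa_val hM π h, mul_add, mul_div_cancel₀ _ hM']
  obtain ⟨h1, h2⟩ := h i
  constructor <;> linarith

private theorem gpa_mul {M : ℕ} (hM : 0 < M) (π σ : Equiv.Perm (Fin 3 → Fin M)) (x : E3) :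
    gpaMap M hM (π * σ) x = gpaMap M hM π (gpaMap M hM σ x) := by
  by_cases h : x ∈ H0
  · have h1 := gpa_in hM h
    funext i
    rw [gpa_val hM _ h1, gpa_val hM _ (gpa_map_in hM σ h1), gpa_val hM _ h1,
      Equiv.Perm.mul_apply]
    ring
  · rw [gpa_off hM _ h, gpa_off hM _ h, gpa_off hM _ h]

private theorem gpa_one {M : ℕ} (hM : 0 < M) (x : E3) : gpaMap M hM 1 x = x := by
  by_cases h : x ∈ H0
  · have h1 := gpa_in hM h
    funext i
    rw [gpa_val hM _ h1, Equiv.Perm.one_apply, sub_self, zero_div, add_zero]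
  · exact gpa_off hM _ h

/-- The permutation of `E3`. -/
private noncomputable def gpaPerm (M : ℕ) (hM : 0 < M) (π : Equiv.Perm (Fin 3 → Fin M)) :
    Equiv.Perm E3 where
  toFun := gpaMap M hM π
  invFun := gpaMap M hM π⁻¹
  left_inv x := by rw [← gpa_mul, inv_mul_cancel, gpa_one]
  right_inv x := by rw [← gpa_mul, mul_inv_cancel, gpa_one]

private theorem gpa_reg {M : ℕ} (hM : 0 < M) (π : Equiv.Perm (Fin 3 → Fin M)) :
    ∀ᵐ x ∂(volume.restrict Cube), ∃ A ∈ (⊥ : Subgroup SLQ), RatAt (gpaMap M hM π) A x := by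
  have hM' : (0 : ℝ) < M := Nat.cast_pos.2 hM
  have h0 : ∀ᵐ x ∂(volume : Measure E3), ∀ (i : Fin 3) (j : ℕ), x i ≠ (j : ℝ) / M := by
    rw [ae_all_iff]
    intro i
    rw [ae_all_iff]
    intro j
    exact Measure.ae_eval_ne (fun _ : Fin 3 => (volume : Measure ℝ)) i _
  filter_upwards [ae_restrict_of_ae h0, ae_restrict_mem measurableSet_cube] with x hx hxC
  have h1 := gpa_in hM (cube_sub_H0 hxC)
  set k := gpaIdx M hM x with hk
  have h2 : ∀ i, ((k i : ℕ) : ℝ) < (M : ℝ) * x i := by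
    intro i
    refine lt_of_le_of_ne (h1 i).1 fun h3 => hx i (k i) ?_
    rw [h3, mul_div_cancel_left₀ _ hM'.ne']
  have h3 : ∀ᶠ y in 𝓝 x, GPaIn M k y := by
    unfold GPaIn
    rw [eventually_all]
    intro i
    have hc : Continuous fun y : E3 => (M : ℝ) * y i := continuous_const.mul (continuous_apply i)
    have h4 : ∀ᶠ y in 𝓝 x, ((k i : ℕ) : ℝ) < (M : ℝ) * y i :=
      hc.continuousAt.eventually_const_lt (h2 i)
    have h5 : ∀ᶠ y in 𝓝 x, (M : ℝ) * y i < ((k i : ℕ) : ℝ) + 1 :=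
      hc.continuousAt.eventually_lt_const (h1 i).2
    filter_upwards [h4, h5] with y h6 h7
    exact ⟨h6.le, h7⟩
  refine ⟨1, Subgroup.one_mem _, fun i => (((π k i : Fin M) : ℕ) - ((k i : ℕ) : ℚ)) / (M : ℚ), ?_⟩
  filter_upwards [h3] with y hy
  funext i
  rw [gpa_val hM π hy, aff_one_left, Pi.add_apply]
  unfold rv
  push_cast
  rfl

theorem gp_exists (M : ℕ) (hM : 0 < M) :
    ∃ G : Equiv.Perm (Fin 3 → Fin M) →* Equiv.Perm E3, (∀ π, G π ∈ TTs (⊥ : Subgroup SLQ)) ∧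
      ∀ (π : Equiv.Perm (Fin 3 → Fin M)) (k : Fin 3 → Fin M) (x : E3),
        (∀ i, ((k i : ℕ) : ℝ) ≤ (M : ℝ) * x i ∧ (M : ℝ) * x i < ((k i : ℕ) : ℝ) + 1) →
          ∀ i, G π x i = x i + (((π k i : Fin M) : ℕ) - ((k i : ℕ) : ℝ)) / (M : ℝ) := by
  refine ⟨{ toFun := gpaPerm M hM, map_one' := ?_, map_mul' := ?_ }, fun π => ?_,
    fun π k x hx i => gpa_val hM π hx i⟩
  · ext1 x
    exact gpa_one hM x
  · intro π σ
    ext1 x
    exact gpa_mul hM π σ x
  · exact ⟨fun x hx => gpa_off hM π hx, gpa_reg hM π, gpa_reg hM π⁻¹⟩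

/-- the homomorphism -/
noncomputable def gp (M : ℕ) (hM : 0 < M) : Equiv.Perm (Fin 3 → Fin M) →* Equiv.Perm E3 :=
  Classical.choose (gp_exists M hM)

theorem gp_mem (M : ℕ) (hM : 0 < M) (π : Equiv.Perm (Fin 3 → Fin M)) :
    gp M hM π ∈ TTs (⊥ : Subgroup SLQ) := (Classical.choose_spec (gp_exists M hM)).1 π

theorem gp_apply (M : ℕ) (hM : 0 < M) (π : Equiv.Perm (Fin 3 → Fin M)) (k : Fin 3 → Fin M)
    (x : E3) (hx : ∀ i, ((k i : ℕ) : ℝ) ≤ (M : ℝ) * x i ∧ (M : ℝ) * x i < ((k i : ℕ) : ℝ) + 1)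
    (i : Fin 3) :
    gp M hM π x i = x i + (((π k i : Fin M) : ℕ) - ((k i : ℕ) : ℝ)) / (M : ℝ) :=
  (Classical.choose_spec (gp_exists M hM)).2 π k x hx i

end Pool.Agent.QM59.D
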