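import Mathlib
import Pool.Agent.Lib.MP_decea1_gt_D.GPa
import Pool.Agent.Lib.MP_decea1_gt_D.Dyad

/-!
# MP_decea1_gt, block D, module GPb: (GP) maps which are locally rational translations are close
to permutations of grid cubes

Proof. `dyad` with `p c := (∃ b, ∀ x ∈ oc c, κ x = x + rv b) ∨ oc c ⊆ B` gives a family `F`
(at a point with `RatAt κ 1 x` the map is one translation `x + rv b` on a ball around `x`: use
`aff_one_left`; at a point of the open set `B` small cubes lie in `B`).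
The cubes of the first kind cover `Cube \ B` almost everywhere, so finitely many of them, `S`, have
`volume (Cube \ ⋃ c ∈ S, oc c) < w`.  `M₀` := a common multiple of the denominators of all
coordinates of the corners, of the sides and of the translations `b_c`, `c ∈ S`.
Let `M₀ ∣ M`, `0 < M`.  Let `X` be the set of indices `k` such that the centre
`x_k = (k + 1/2) / M` lies in `oc c` for some `c ∈ S`; then the whole open grid cube `k` lies in
`oc c` (corners and side of `c` are multiples of `1 / M`), and `κ x_k = x_k + b_c` is the centre of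
a grid cube `f k` in `H0` (`κ` maps `H0` to `H0`).  `f` is injective on `X` because `κ` is injective.
Extend `f` to a permutation `π` (`Equiv.extendSubtype`).  For `x ∈ oc c`, `c ∈ S`, let `k` be the
index of the half-open grid cube containing `x`; it has `k ∈ X` (same `c`), so
`gp π x = x + (π k - k) / M = x + b_c = κ x`.  Closed exceptional set: the complement of
`⋃ c ∈ S, oc c`.
-/

set_option autoImplicit false

open MeasureTheory Set Filter Topology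

namespace Pool.Agent.QM59.D

private theorem GPb_oc_subset_ball {c : Cb} {e : ℝ} {x : E3} (hc : 0 < c.2)
    (hce : (c.2 : ℝ) < e) (hx : x ∈ oc c) : oc c ⊆ Metric.ball x e := by
  intro y hy
  rw [Metric.mem_ball, dist_pi_lt_iff (lt_trans (by exact_mod_cast hc) hce)]
  intro i
  have h1 := hx i
  have h2 := hy i
  rw [Real.dist_eq, abs_lt]
  constructor <;> linarith [h1.1, h1.2, h2.1, h2.2]

private theorem GPb_int {q : ℚ} {M : ℕ} (h : q.den ∣ M) : ∃ z : ℤ, (M : ℝ) * (q : ℝ) = (z : ℝ) := by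
  obtain ⟨k, rfl⟩ := h
  refine ⟨k * q.num, ?_⟩
  have h1 : ((q.den : ℚ)) * q = q.num := by
    rw [mul_comm]; exact Rat.mul_den_eq_num q
  have h2 : ((q.den : ℝ)) * (q : ℝ) = (q.num : ℝ) := by exact_mod_cast h1
  push_cast
  rw [← h2]
  ring

private noncomputable def GPb_ctr {M : ℕ} (k : Fin 3 → Fin M) : E3 :=
  fun i => (((k i : ℕ) : ℝ) + 1 / 2) / (M : ℝ)

private theorem GPb_ctr_inj {M : ℕ} (hM : 0 < M) {k l : Fin 3 → Fin M}
    (h : GPb_ctr k = GPb_ctr l) : k = l := by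
  funext i
  have h1 := congrFun h i
  simp only [GPb_ctr] at h1
  have hM' : (0 : ℝ) < M := by exact_mod_cast hM
  rw [div_left_inj' hM'.ne'] at h1
  have h2 : ((k i : ℕ) : ℝ) = ((l i : ℕ) : ℝ) := by linarith
  exact Fin.ext (by exact_mod_cast h2)

/-- step 1: finitely many disjoint cubes on which `κ` is a translation -/
theorem GP_fin {κ : Equiv.Perm E3} (B : Set E3) (hB : IsOpen B)
    (h : ∀ᵐ x ∂(volume.restrict Cube), x ∈ B ∨ RatAt (fun y => κ y) 1 x) (w : ℝ)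
    (hw : volume (B ∩ Cube) < ENNReal.ofReal w) :
    ∃ (S : Finset Cb) (b : Cb → Fin 3 → ℚ), (∀ c ∈ S, 0 < c.2 ∧ hc c ⊆ H0) ∧
      (∀ c ∈ S, ∀ x ∈ oc c, κ x = x + rv (b c)) ∧
      volume (Cube \ ⋃ c ∈ S, oc c) < ENNReal.ofReal w := by
  classical
  obtain ⟨F, hF, hp⟩ := dyad
    (fun c => (∃ b : Fin 3 → ℚ, ∀ x ∈ oc c, κ x = x + rv b) ∨ oc c ⊆ B) (by
      filter_upwards [h] with x hx
      rcases hx with hx | ⟨b, hb⟩
      · obtain ⟨e, he, hball⟩ := Metric.isOpen_iff.mp hB x hx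
        exact ⟨e, he, fun c hc hce _ hxc => Or.inr ((GPb_oc_subset_ball hc hce hxc).trans hball)⟩
      · obtain ⟨e, he, hball⟩ := Metric.eventually_nhds_iff_ball.mp hb
        refine ⟨e, he, fun c hc hce _ hxc => Or.inl ⟨b, fun y hy => ?_⟩⟩
        have h2 : κ y = aff 1 b y := hball y (GPb_oc_subset_ball hc hce hxc hy)
        rw [h2, aff_one_left])
  let p1 : Cb → Prop := fun c => c ∈ F ∧ ∃ b : Fin 3 → ℚ, ∀ x ∈ oc c, κ x = x + rv b
  let F1 : Set Cb := {c | p1 c}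
  have hcov : volume (Cube \ ⋃ c : F1, oc (c : Cb)) < ENNReal.ofReal w := by
    refine lt_of_le_of_lt ?_ hw
    have hfull := hF.full
    rw [ae_restrict_iff' isOpen_cube.measurableSet] at hfull
    refine measure_mono_ae ?_
    filter_upwards [hfull] with x hx hx2
    obtain ⟨hxC, hxU⟩ := hx2
    obtain ⟨c, hc, hxc⟩ := hx hxC
    rcases hp c hc with hb | hb
    · exact absurd (mem_iUnion.mpr ⟨⟨c, hc, hb⟩, hxc⟩) hxU
    · exact ⟨hb hxc, hxC⟩
  let s : Finset F1 → Set E3 := fun S => Cube \ ⋃ c ∈ S, oc (c : Cb)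
  have hanti : Antitone s := fun S T hST =>
    sdiff_subset_sdiff_right (biUnion_subset_biUnion_left hST)
  have hms : ∀ S, NullMeasurableSet (s S) volume := fun S =>
    (isOpen_cube.measurableSet.diff
      (Finset.measurableSet_biUnion S fun c _ => (isOpen_oc _).measurableSet)).nullMeasurableSet
  have hlim := tendsto_measure_iInter_atTop (μ := volume) hms hanti
    ⟨∅, ne_top_of_le_ne_top (by rw [volume_cube]; exact ENNReal.one_ne_top)
      (measure_mono sdiff_subset)⟩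
  have hint : ⋂ S, s S = Cube \ ⋃ c : F1, oc (c : Cb) := by
    ext x
    simp only [s, mem_iInter, Set.mem_sdiff, mem_iUnion, not_exists]
    constructor
    · intro hx
      exact ⟨(hx ∅).1, fun c => (hx {c}).2 c (Finset.mem_singleton_self c)⟩
    · exact fun hx S => ⟨hx.1, fun c _ => hx.2 c⟩
  rw [hint] at hlim
  obtain ⟨S, hS⟩ := (hlim.eventually_lt_const hcov).exists
  refine ⟨S.image Subtype.val,
    fun c => if hc : ∃ b : Fin 3 → ℚ, ∀ x ∈ oc c, κ x = x + rv b then hc.choose else 0, ?_, ?_, ?_⟩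
  · intro c hc
    obtain ⟨⟨c', hc'⟩, _, rfl⟩ := Finset.mem_image.mp hc
    exact ⟨hF.pos _ hc'.1, hF.sub _ hc'.1⟩
  · intro c hc x hx
    obtain ⟨⟨c', hc'⟩, _, rfl⟩ := Finset.mem_image.mp hc
    have h2 : ∃ b : Fin 3 → ℚ, ∀ x ∈ oc c', κ x = x + rv b := hc'.2
    have h3 : (if hc : ∃ b : Fin 3 → ℚ, ∀ x ∈ oc c', κ x = x + rv b then hc.choose else 0) =
        h2.choose := dif_pos h2
    change κ x = x + rv (if hc : ∃ b : Fin 3 → ℚ, ∀ x ∈ oc c', κ x = x + rv b then hc.choose else 0)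
    rw [h3]
    exact h2.choose_spec x hx
  · have e : ⋃ c ∈ S.image Subtype.val, oc c = ⋃ c ∈ S, oc (c : Cb) := by
      ext x
      simp only [mem_iUnion, Finset.mem_image, exists_prop]
      constructor
      · rintro ⟨c, ⟨c', h1, rfl⟩, hx⟩
        exact ⟨c', h1, hx⟩
      · rintro ⟨c, h1, hx⟩
        exact ⟨c, ⟨c, h1, rfl⟩, hx⟩
    rw [e]
    exact hS

/-- step 2 -/
theorem GP_perm {κ : Equiv.Perm E3} (hκ : IdOff H0 κ) (S : Finset Cb) (b : Cb → Fin 3 → ℚ)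
    (hS : ∀ c ∈ S, 0 < c.2 ∧ hc c ⊆ H0) (hb : ∀ c ∈ S, ∀ x ∈ oc c, κ x = x + rv (b c)) :
    ∃ M₀ : ℕ, 0 < M₀ ∧ ∀ (M : ℕ) (hM : 0 < M), M₀ ∣ M →
      ∃ π : Equiv.Perm (Fin 3 → Fin M), ∀ c ∈ S, ∀ x ∈ oc c, gp M hM π x = κ x := by
  classical
  let dn : Cb → ℕ := fun c => (∏ i, (c.1 i).den) * c.2.den * ∏ i, (b c i).den
  have hdn : ∀ c, 0 < dn c := fun c =>
    Nat.mul_pos (Nat.mul_pos (Finset.prod_pos fun i _ => (c.1 i).den_pos) c.2.den_pos)
      (Finset.prod_pos fun i _ => (b c i).den_pos)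
  refine ⟨∏ c ∈ S, dn c, Finset.prod_pos fun c _ => hdn c, ?_⟩
  intro M hM hdvd
  have hM' : (0 : ℝ) < M := by exact_mod_cast hM
  have hdc : ∀ c ∈ S, dn c ∣ M := fun c hc => (Finset.dvd_prod_of_mem dn hc).trans hdvd
  have hI1 : ∀ c ∈ S, ∀ i, ∃ z : ℤ, (M : ℝ) * ((c.1 i : ℚ) : ℝ) = (z : ℝ) := fun c hc i =>
    GPb_int (((Finset.dvd_prod_of_mem (fun i => (c.1 i).den) (Finset.mem_univ i)).trans
      ((dvd_mul_right _ _).trans (dvd_mul_right _ _))).trans (hdc c hc))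
  have hI2 : ∀ c ∈ S, ∃ z : ℤ, (M : ℝ) * ((c.2 : ℚ) : ℝ) = (z : ℝ) := fun c hc =>
    GPb_int (((dvd_mul_left _ _).trans (dvd_mul_right _ _)).trans (hdc c hc))
  have hI3 : ∀ c ∈ S, ∀ i, ∃ z : ℤ, (M : ℝ) * ((b c i : ℚ) : ℝ) = (z : ℝ) := fun c hc i =>
    GPb_int (((Finset.dvd_prod_of_mem (fun i => (b c i).den) (Finset.mem_univ i)).trans
      (dvd_mul_left _ _)).trans (hdc c hc))
  -- images of centres
  have himg : ∀ c ∈ S, ∀ k : Fin 3 → Fin M, GPb_ctr k ∈ oc c →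
      ∃ k' : Fin 3 → Fin M, GPb_ctr k' = κ (GPb_ctr k) := by
    intro c hc k hk
    have h1 : κ (GPb_ctr k) = GPb_ctr k + rv (b c) := hb c hc _ hk
    have h2 : κ (GPb_ctr k) ∈ H0 := by
      have h3 : GPb_ctr k ∈ H0 := (hS c hc).2 (oc_subset_hc c hk)
      exact (H0_iff hκ _).2 h3
    have h3 : ∀ i, ∃ m : Fin M, (((m : ℕ) : ℝ) + 1 / 2) / (M : ℝ) = κ (GPb_ctr k) i := by
      intro i
      obtain ⟨z, hz⟩ := hI3 c hc i
      have h4 := h2 i
      have h5 : κ (GPb_ctr k) i = (((k i : ℕ) : ℝ) + 1 / 2) / (M : ℝ) + (b c i : ℝ) := by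
        rw [h1]; rfl
      have h6 : (M : ℝ) * κ (GPb_ctr k) i = (((k i : ℕ) : ℤ) + z : ℤ) + 1 / 2 := by
        rw [h5, mul_add, hz, mul_div_cancel₀ _ hM'.ne']
        push_cast
        ring
      have h7 : (0 : ℝ) ≤ (M : ℝ) * κ (GPb_ctr k) i := mul_nonneg hM'.le h4.1
      have h8 : (M : ℝ) * κ (GPb_ctr k) i < M := by
        have := mul_lt_mul_of_pos_left h4.2 hM'
        rwa [mul_one] at this
      rw [h6] at h7 h8
      have h9 : (-1 : ℤ) < ((k i : ℕ) : ℤ) + z := by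
        have : (-1 : ℝ) < (((k i : ℕ) : ℤ) + z : ℤ) := by linarith
        exact_mod_cast this
      have h10 : ((k i : ℕ) : ℤ) + z < (M : ℤ) := by
        have : ((((k i : ℕ) : ℤ) + z : ℤ) : ℝ) < ((M : ℤ) : ℝ) := by push_cast at h8 ⊢; linarith
        exact_mod_cast this
      have h11 : 0 ≤ ((k i : ℕ) : ℤ) + z := by omega
      obtain ⟨m, hm⟩ := Int.eq_ofNat_of_zero_le h11
      have hmM : m < M := by omega
      refine ⟨⟨m, hmM⟩, ?_⟩
      rw [hm] at h6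
      rw [div_eq_iff hM'.ne', mul_comm (κ (GPb_ctr k) i), h6]
      push_cast
      rfl
    choose m hm using h3
    exact ⟨m, funext hm⟩
  let X : Set (Fin 3 → Fin M) := {k | ∃ c ∈ S, GPb_ctr k ∈ oc c}
  let f : (Fin 3 → Fin M) → (Fin 3 → Fin M) := fun k =>
    if h : ∃ k' : Fin 3 → Fin M, GPb_ctr k' = κ (GPb_ctr k) then h.choose else k
  have hf : ∀ k ∈ X, GPb_ctr (f k) = κ (GPb_ctr k) := by
    rintro k ⟨c, hc, hk⟩
    have h := himg c hc k hk
    simp only [f]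
    rw [dif_pos h]
    exact h.choose_spec
  have hinj : Set.InjOn f X := by
    intro k hk l hl hkl
    apply GPb_ctr_inj hM
    apply κ.injective
    rw [← hf k hk, ← hf l hl, hkl]
  obtain ⟨g, hg⟩ := Set.MapsTo.exists_equiv_extend_of_card_eq (α := Fin 3 → Fin M)
    (β := Fin 3 → Fin M) (t := Finset.univ) (by rw [Finset.card_univ]) (s := X) (f := f)
    (fun _ _ => Finset.mem_coe.mpr (Finset.mem_univ _)) hinj
  let π : Equiv.Perm (Fin 3 → Fin M) :=
    g.trans (Equiv.subtypeUnivEquiv fun x => Finset.mem_univ x)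
  have hπ : ∀ k ∈ X, π k = f k := fun k hk => hg k hk
  refine ⟨π, fun c hc x hx => ?_⟩
  have hxH : x ∈ H0 := (hS c hc).2 (oc_subset_hc c hx)
  have hk0 : ∀ i, ∃ m : Fin M, ((m : ℕ) : ℝ) ≤ (M : ℝ) * x i ∧ (M : ℝ) * x i < ((m : ℕ) : ℝ) + 1 := by
    intro i
    have h1 := hxH i
    have h2 : 0 ≤ (M : ℝ) * x i := mul_nonneg hM'.le h1.1
    have h3 : (M : ℝ) * x i < M := by
      have := mul_lt_mul_of_pos_left h1.2 hM'
      rwa [mul_one] at this
    refine ⟨⟨⌊(M : ℝ) * x i⌋₊, ?_⟩, Nat.floor_le h2, Nat.lt_floor_add_one _⟩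
    rw [Nat.floor_lt h2]
    exact h3
  choose k hk using hk0
  have hkc : GPb_ctr k ∈ oc c := by
    intro i
    obtain ⟨z1, hz1⟩ := hI1 c hc i
    obtain ⟨z2, hz2⟩ := hI2 c hc
    have hxi := hx i
    have hki := hk i
    have a1 : (M : ℝ) * ((c.1 i : ℚ) : ℝ) < (M : ℝ) * x i := mul_lt_mul_of_pos_left hxi.1 hM'
    have a2 : (M : ℝ) * x i < (M : ℝ) * ((c.1 i : ℝ) + (c.2 : ℝ)) :=
      mul_lt_mul_of_pos_left hxi.2 hM'
    rw [mul_add, hz1, hz2] at a2
    rw [hz1] at a1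
    have b1 : z1 < ((k i : ℕ) : ℤ) + 1 := by
      have : (z1 : ℝ) < ((((k i : ℕ) : ℤ) + 1 : ℤ) : ℝ) := by push_cast; linarith [hki.2]
      exact_mod_cast this
    have b2 : ((k i : ℕ) : ℤ) < z1 + z2 := by
      have : ((((k i : ℕ) : ℤ)) : ℝ) < ((z1 + z2 : ℤ) : ℝ) := by push_cast; linarith [hki.1]
      exact_mod_cast this
    have b3 : (z1 : ℝ) ≤ ((k i : ℕ) : ℝ) := by
      have : z1 ≤ ((k i : ℕ) : ℤ) := by omega
      exact_mod_cast this
    have b4 : ((k i : ℕ) : ℝ) + 1 ≤ (z1 : ℝ) + z2 := by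
      have : ((k i : ℕ) : ℤ) + 1 ≤ z1 + z2 := by omega
      exact_mod_cast this
    simp only [GPb_ctr]
    constructor
    · rw [lt_div_iff₀ hM', mul_comm, hz1]
      linarith
    · rw [div_lt_iff₀ hM', mul_comm, mul_add, hz1, hz2]
      linarith
  have hkX : k ∈ X := ⟨c, hc, hkc⟩
  rw [hb c hc x hx]
  funext i
  rw [gp_apply M hM π k x hk i]
  have h1 := congrFun (hf k hkX) i
  rw [hb c hc _ hkc] at h1
  have h2 : (((f k i : Fin M) : ℕ) + 1 / 2 : ℝ) / (M : ℝ) =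
      (((k i : ℕ) : ℝ) + 1 / 2) / (M : ℝ) + (b c i : ℝ) := h1
  rw [hπ k hkX]
  have h3 : (x + rv (b c)) i = x i + (b c i : ℝ) := rfl
  rw [h3]
  have h4 : (((f k i : Fin M) : ℕ) - ((k i : ℕ) : ℝ)) / (M : ℝ) = (b c i : ℝ) := by
    have : (((f k i : Fin M) : ℕ) - ((k i : ℕ) : ℝ)) / (M : ℝ) =
      (((f k i : Fin M) : ℕ) + 1 / 2 : ℝ) / (M : ℝ) - (((k i : ℕ) : ℝ) + 1 / 2) / (M : ℝ) := by
      rw [← sub_div]; ring
    rw [this, h2]
    ring
  rw [h4]

theorem GP {κ : Equiv.Perm E3} (hκ : IdOff H0 κ) (B : Set E3) (hB : IsOpen B)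
    (h : ∀ᵐ x ∂(volume.restrict Cube), x ∈ B ∨ RatAt (fun y => κ y) 1 x) (w : ℝ)
    (hw : volume (B ∩ Cube) < ENNReal.ofReal w) :
    ∃ M₀ : ℕ, 0 < M₀ ∧ ∀ (M : ℕ) (hM : 0 < M), M₀ ∣ M →
      ∃ π : Equiv.Perm (Fin 3 → Fin M), App κ (fun x => gp M hM π x) w := by
  obtain ⟨S, b, h1, h2, h3⟩ := GP_fin B hB h w hw
  obtain ⟨M₀, h4, h5⟩ := GP_perm hκ S b h1 h2
  refine ⟨M₀, h4, fun M hM hd => ?_⟩
  obtain ⟨π, hπ⟩ := h5 M hM hd
  refine ⟨π, (⋃ c ∈ S, oc c)ᶜ, ?_, ?_, ?_⟩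
  · rw [isClosed_compl_iff]
    exact isOpen_biUnion fun c _ => isOpen_oc c
  · refine lt_of_eq_of_lt ?_ h3
    congr 1
    ext x
    simp [and_comm]
  · intro x _ hx2
    simp only [mem_compl_iff, not_not, mem_iUnion] at hx2
    obtain ⟨c, hc, hx⟩ := hx2
    exact (hπ c hc x hx).symm

end Pool.Agent.QM59.D
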