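import Mathlib
import Pool.Agent.Lib.MP_decea1_gt_D.GPb

/-!
# MP_decea1_gt, block D, module GPc: the cocycle vanishes on `QQG`

Given `ε`, take `v` from `Cont`, `M` = product of the two `M₀` of (GP) (`B = ∅`); both maps are
`v`-close to elements of the range of `gp M`, a finite group, where the cocycle vanishes
(`HC.finite`).  So `|c κ κ'| ≤ ε` for all `ε > 0`.
-/

set_option autoImplicit false

open MeasureTheory Set Filter Topology

namespace Pool.Agent.QM59.D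

private theorem GPc_reg {κ : TG} (hκ : κ ∈ QQG) :
    IdOff H0 κ.1 ∧
      ∀ᵐ x ∂(volume.restrict Cube), x ∈ (∅ : Set E3) ∨ RatAt (fun y => κ.1 y) 1 x := by
  have h : IsTT (⊥ : Subgroup SLQ) κ.1 := Subgroup.mem_subgroupOf.1 hκ
  refine ⟨h.off, ?_⟩
  filter_upwards [h.reg] with x hx
  obtain ⟨A, hA, hr⟩ := hx
  rw [Subgroup.mem_bot] at hA
  rw [hA] at hr
  exact Or.inr hr

/-- `gp M` with values in `TG` -/
private noncomputable def GPc_hom (M : ℕ) (hM : 0 < M) :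
    Equiv.Perm (Fin 3 → Fin M) →* TG :=
  (gp M hM).codRestrict (TTs (⊤ : Subgroup SLQ)) fun π => TTs_mono bot_le (gp_mem M hM π)

theorem QQ_flat {c : TG → TG → ℝ} {D : ℝ} (h : HC TG c D) (hc' : Cont c) :
    ∀ κ ∈ QQG, ∀ κ' ∈ QQG, c κ κ' = 0 := by
  intro κ hκ κ' hκ'
  obtain ⟨o1, r1⟩ := GPc_reg hκ
  obtain ⟨o2, r2⟩ := GPc_reg hκ'
  have key : ∀ ε : ℝ, 0 < ε → |c κ κ'| ≤ 0 + ε := by
    intro ε hε
    obtain ⟨v, hv, hcv⟩ := hc' ε hε
    have hw : volume ((∅ : Set E3) ∩ Cube) < ENNReal.ofReal v := by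
      rw [empty_inter, measure_empty]
      exact ENNReal.ofReal_pos.2 hv
    obtain ⟨M1, hM1, g1⟩ := GP o1 ∅ isOpen_empty r1 v hw
    obtain ⟨M2, hM2, g2⟩ := GP o2 ∅ isOpen_empty r2 v hw
    have hM : 0 < M1 * M2 := Nat.mul_pos hM1 hM2
    obtain ⟨π, hπ⟩ := g1 (M1 * M2) hM (dvd_mul_right _ _)
    obtain ⟨π', hπ'⟩ := g2 (M1 * M2) hM (dvd_mul_left _ _)
    have h1 := hcv κ (GPc_hom (M1 * M2) hM π) κ' (GPc_hom (M1 * M2) hM π') hπ hπ'
    have hfin : Finite (GPc_hom (M1 * M2) hM).range :=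
      Set.finite_range (GPc_hom (M1 * M2) hM)
    have h2 := h.finite (GPc_hom (M1 * M2) hM).range _ ⟨π, rfl⟩ _ ⟨π', rfl⟩
    rw [h2, sub_zero] at h1
    rwa [zero_add]
  exact abs_nonpos_iff.1 (le_of_eps key)

end Pool.Agent.QM59.D
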