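import Mathlib
import Pool.Agent.Lib.MP_decea1_gt_D.FamB

/-!
# MP_decea1_gt, block D, module OneF: maps supported in one cube with constant linear part

Calculus of `OC` (definition in Fam.lean).  `T` maps `hc c` onto itself; a.e. statements by
`ae_comp`, `hc c \ oc c` is a null set.
-/

set_option autoImplicit false

open MeasureTheory Set Filter Topology

namespace Pool.Agent.QM59.D

private theorem idOff_mem {K : Set E3} {f : Equiv.Perm E3} (hf : IdOff K f) {x : E3}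
    (hx : x ∈ K) : f x ∈ K := by
  by_contra hn
  have h1 : f (f x) = f x := hf _ hn
  have h2 : f x = x := f.injective h1
  exact hn (h2.symm ▸ hx)

private theorem idOff_inv {K : Set E3} {f : Equiv.Perm E3} (hf : IdOff K f) : IdOff K f⁻¹ := by
  intro x hx
  rw [Equiv.Perm.inv_eq_iff_eq]
  exact (hf x hx).symm

/-- a.e. statement on `oc c` as an a.e. statement in the cube -/
private theorem ae_imp {c : Cb} {p : E3 → Prop} (h : ∀ᵐ x ∂(volume.restrict (oc c)), p x) :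
    ∀ᵐ x ∂(volume.restrict Cube), x ∈ oc c → p x := by
  rw [ae_restrict_iff' (measurableSet_oc c)] at h
  exact ae_restrict_of_ae h

private theorem ae_not_bd (c : Cb) :
    ∀ᵐ x ∂(volume.restrict Cube), x ∈ hc c → x ∈ oc c := by
  refine ae_restrict_of_ae ?_
  rw [ae_iff]
  refine measure_mono_null ?_ (volume_hc_diff_oc c)
  intro x hx
  simp only [mem_ofPred_eq, Classical.not_imp] at hx
  exact hx

private theorem ae_oc_of_cube {c : Cb} (hp : 0 < c.2) (hs : hc c ⊆ H0) {p : E3 → Prop}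
    (h : ∀ᵐ x ∂(volume.restrict Cube), p x) : ∀ᵐ x ∂(volume.restrict (oc c)), p x :=
  ae_restrict_of_ae_restrict_of_subset (oc_subset_Cube hs hp) h

theorem OC.one (c : Cb) : OC c 1 1 :=
  ⟨fun _ _ => rfl, Eventually.of_forall fun x => RatAt.id x⟩

theorem OC.mul {c : Cb} (hp : 0 < c.2) (hs : hc c ⊆ H0) {A A' : SLQ} {T T' : TG} (h : OC c A T)
    (h' : OC c A' T') : OC c (A * A') (T * T') := by
  refine ⟨fun x hx => ?_, ?_⟩
  · show T.1 (T'.1 x) = x
    rw [h'.1 x hx, h.1 x hx]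
  · have h1 := ae_oc_of_cube hp hs (ae_comp T' (ae_imp h.2))
    have h2 := ae_oc_of_cube hp hs (ae_comp T' (ae_not_bd c))
    filter_upwards [h1, h2, h'.2, ae_restrict_mem (measurableSet_oc c)] with x h3 h4 h5 h6
    have h7 : T'.1 x ∈ oc c := h4 (idOff_mem h'.1 (oc_subset_hc c h6))
    exact RatAt.mul (T := fun y => T.1 y) (S := fun y => T'.1 y) h5 (h3 h7)

theorem OC.inv {c : Cb} (hp : 0 < c.2) (hs : hc c ⊆ H0) {A : SLQ} {T : TG} (h : OC c A T) :
    OC c A⁻¹ T⁻¹ := by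
  refine ⟨idOff_inv h.1, ?_⟩
  have h1 := ae_oc_of_cube hp hs (ae_comp T⁻¹ (ae_imp h.2))
  have h2 := ae_oc_of_cube hp hs (ae_comp T⁻¹ (ae_not_bd c))
  filter_upwards [h1, h2, ae_restrict_mem (measurableSet_oc c)] with x h3 h4 h6
  have h7 : (T⁻¹).1 x ∈ oc c := h4 (idOff_mem (idOff_inv h.1) (oc_subset_hc c h6))
  have h8 := RatAt.inv (h3 h7)
  have e : T.1 ((T⁻¹).1 x) = x := Equiv.apply_symm_apply T.1 x
  rw [e] at h8
  exact h8

theorem OC.unique {c : Cb} (hp : 0 < c.2) {A A' : SLQ} {T : TG} (h : OC c A T)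
    (h' : OC c A' T) : A = A' := by
  have h0 : volume.restrict (oc c) ≠ 0 := by
    rw [Ne, Measure.restrict_eq_zero, volume_oc c hp.le, ENNReal.ofReal_eq_zero, not_le]
    have : (0 : ℝ) < (c.2 : ℝ) := by exact_mod_cast hp
    positivity
  have hne : (ae (volume.restrict (oc c))).NeBot := ae_neBot.2 h0
  obtain ⟨x, hx, hx'⟩ := (h.2.and h'.2).exists
  exact hx.unique hx'

theorem OC.mem_QQG {c : Cb} {T : TG} (h : OC c 1 T) : T ∈ QQG := by
  have hreg : ∀ᵐ x ∂(volume.restrict Cube), RatAt (fun y => T.1 y) 1 x := by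
    have hcl : IsClosed {x : E3 | ∀ i, ((c.1 i : ℚ) : ℝ) ≤ x i ∧
        x i ≤ (c.1 i : ℝ) + (c.2 : ℝ)} := by
      simp only [ofPred_forall, ofPred_and]
      exact isClosed_iInter fun i => (isClosed_le continuous_const (continuous_apply i)).inter
        (isClosed_le (continuous_apply i) continuous_const)
    have hnull : volume {x : E3 | (∀ i, ((c.1 i : ℚ) : ℝ) ≤ x i ∧
        x i ≤ (c.1 i : ℝ) + (c.2 : ℝ)) ∧ x ∉ oc c} = 0 := by
      have hyp : ∀ (i : Fin 3) (r : ℝ), volume {x : E3 | x i = r} = 0 := fun i r => by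
        rw [volume_pi]
        exact Measure.pi_hyperplane (fun _ : Fin 3 => (volume : Measure ℝ)) i r
      refine measure_mono_null (t := ⋃ i : Fin 3, ({x : E3 | x i = ((c.1 i : ℚ) : ℝ)} ∪
        {x : E3 | x i = (c.1 i : ℝ) + (c.2 : ℝ)})) ?_ ?_
      · rintro x ⟨h1, h2⟩
        have h3 : ∃ i, ¬ (((c.1 i : ℚ) : ℝ) < x i ∧ x i < (c.1 i : ℝ) + (c.2 : ℝ)) := by
          by_contra hcon
          push Not at hcon
          exact h2 fun i => hcon i
        obtain ⟨i, hi⟩ := h3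
        refine mem_iUnion.2 ⟨i, ?_⟩
        by_cases h4 : ((c.1 i : ℚ) : ℝ) < x i
        · right
          exact le_antisymm (h1 i).2 (not_lt.1 fun h5 => hi ⟨h4, h5⟩)
        · left
          exact le_antisymm (not_lt.1 h4) (h1 i).1
      · exact measure_iUnion_null fun i => measure_union_null (hyp i _) (hyp i _)
    have h1 : ∀ᵐ x ∂(volume.restrict Cube), ¬ ((∀ i, ((c.1 i : ℚ) : ℝ) ≤ x i ∧
        x i ≤ (c.1 i : ℝ) + (c.2 : ℝ)) ∧ x ∉ oc c) := by
      refine ae_restrict_of_ae ?_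
      rw [ae_iff]
      simpa using hnull
    filter_upwards [ae_imp h.2, h1] with x h2 h3
    by_cases h4 : ∀ i, ((c.1 i : ℚ) : ℝ) ≤ x i ∧ x i ≤ (c.1 i : ℝ) + (c.2 : ℝ)
    · by_cases h5 : x ∈ oc c
      · exact h2 h5
      · exact absurd ⟨h4, h5⟩ h3
    · have h5 : ∀ᶠ y in 𝓝 x, y ∉ {x : E3 | ∀ i, ((c.1 i : ℚ) : ℝ) ≤ x i ∧
          x i ≤ (c.1 i : ℝ) + (c.2 : ℝ)} := hcl.isOpen_compl.mem_nhds h4
      refine (RatAt.id x).congr ?_
      filter_upwards [h5] with y hy
      exact h.1 y fun h6 => hy fun i => ⟨(h6 i).1, (h6 i).2.le⟩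
  have hreg' : ∀ᵐ x ∂(volume.restrict Cube), RatAt (fun y => (T⁻¹).1 y) 1 x := by
    filter_upwards [ae_comp T⁻¹ hreg] with x h1
    have h2 := RatAt.inv h1
    have e : T.1 ((T⁻¹).1 x) = x := Equiv.apply_symm_apply T.1 x
    rw [e, inv_one] at h2
    exact h2
  rw [QQG, Subgroup.mem_subgroupOf, mem_TTs]
  exact ⟨T.2.off, hreg.mono fun x hx => ⟨1, Subgroup.one_mem _, hx⟩,
    hreg'.mono fun x hx => ⟨1, Subgroup.one_mem _, hx⟩⟩

/-- elements supported in disjoint cubes commute -/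
theorem OC.commute {c c' : Cb} (hd : Disjoint (hc c) (hc c')) {A A' : SLQ} {T T' : TG}
    (h : OC c A T) (h' : OC c' A' T') : T * T' = T' * T := by
  apply Subtype.ext
  have hdis : Equiv.Perm.Disjoint T.1 T'.1 := by
    intro x
    by_cases hx : x ∈ hc c
    · exact Or.inr (h'.1 x fun h1 => Set.disjoint_left.1 hd hx h1)
    · exact Or.inl (h.1 x hx)
  exact hdis.commute

end Pool.Agent.QM59.D
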