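import Mathlib
import Pool.Agent.Lib.MP_decea1_gt_D.OneF
import Pool.Agent.Lib.MP_decea1_gt_D.D16

/-!
# MP_decea1_gt, block D, module OneG: the cocycle vanishes on the maps of one cube

`A₀ := {T | ∃ A, OC c0 A T}` is a subgroup (`OC.one/mul/inv`), the linear part `A` is a homomorphism
`A₀ →* SLQ` (`OC.unique`, `Classical.choose`), surjective by `hex`, its kernel lies in `QQG`
(`OC.mem_QQG`), where the cocycle vanishes (`hQ`).  `HC.quot` gives a cocycle on `SLQ`, which is zero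
by THEOREM SL (`hSL`).
-/

set_option autoImplicit false

open MeasureTheory Set Filter Topology

namespace Pool.Agent.QM59.D

theorem one_flat {c : TG → TG → ℝ} {D : ℝ} (h : HC TG c D) (hSL : SLZ)
    (hQ : ∀ κ ∈ QQG, ∀ κ' ∈ QQG, c κ κ' = 0) {c0 : Cb} (hp : 0 < c0.2) (hs : hc c0 ⊆ H0)
    (hex : ∀ A : SLQ, ∃ T : TG, OC c0 A T) {A A' : SLQ} {T T' : TG} (hT : OC c0 A T)
    (hT' : OC c0 A' T') : c T T' = 0 := by
  let A₀ : Subgroup TG :=
    { carrier := {T | ∃ A, OC c0 A T}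
      mul_mem' := by
        rintro T S ⟨A, hA⟩ ⟨B, hB⟩
        exact ⟨A * B, hA.mul hp hs hB⟩
      one_mem' := ⟨1, OC.one c0⟩
      inv_mem' := by
        rintro T ⟨A, hA⟩
        exact ⟨A⁻¹, hA.inv hp hs⟩ }
  have hmem : ∀ T : A₀, ∃ A, OC c0 A (T : TG) := fun T => T.2
  let lf : A₀ → SLQ := fun T => Classical.choose (hmem T)
  have hlf : ∀ T : A₀, OC c0 (lf T) (T : TG) := fun T => Classical.choose_spec (hmem T)
  let L : A₀ →* SLQ :=
    { toFun := lf
      map_one' := OC.unique hp (hlf 1) (OC.one c0)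
      map_mul' := fun x y => OC.unique hp (hlf (x * y)) ((hlf x).mul hp hs (hlf y)) }
  have hL : ∀ T : A₀, OC c0 (L T) (T : TG) := hlf
  have hsur : Function.Surjective L := fun A => by
    obtain ⟨T, hT⟩ := hex A
    exact ⟨⟨T, A, hT⟩, OC.unique hp (hL _) hT⟩
  have hK : ∀ s t : A₀, L s = 1 → L t = 1 → c s t = 0 := by
    intro s t h1 h2
    have e1 := hL s
    have e2 := hL t
    rw [h1] at e1
    rw [h2] at e2
    exact hQ _ e1.mem_QQG _ e2.mem_QQG
  obtain ⟨cb, hcb, e⟩ := h.quot A₀ L hsur hK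
  have e1 := e ⟨T, A, hT⟩ ⟨T', A', hT'⟩
  exact e1.trans (hSL cb D hcb _ _)

end Pool.Agent.QM59.D
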