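import Mathlib
import Pool.Agent.Lib.MP_decea1_gt_D.LblA
import Pool.Agent.Lib.MP_decea1_gt_D.OneF

/-!
# MP_decea1_gt, block D, module PPr: restriction of `L ∈ PP F` to finitely many cubes

`Res S L R` (definition in Fam.lean).  `R` = `Equiv.Perm.ofSubtype (L.subtypePerm _)` for the set
`⋃ c ∈ S, hc c`, which `L` preserves.
-/

set_option autoImplicit false

open MeasureTheory Set Filter Topology

namespace Pool.Agent.QM59.D

variable {F : Set Cb}

private theorem ppr_perm (L : Equiv.Perm E3) (U : Set E3) (h : ∀ x, L x ∈ U ↔ x ∈ U) :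
    ∃ R : Equiv.Perm E3, (∀ x ∈ U, R x = L x) ∧ ∀ x, x ∉ U → R x = x := by
  classical
  have h' : ∀ x, L⁻¹ x ∈ U ↔ x ∈ U := by
    intro x
    have h1 := h (L⁻¹ x)
    rw [← Equiv.Perm.mul_apply, mul_inv_cancel, Equiv.Perm.one_apply] at h1
    exact h1.symm
  refine ⟨⟨fun x => if x ∈ U then L x else x, fun x => if x ∈ U then L⁻¹ x else x, ?_, ?_⟩,
    fun x hx => if_pos hx, fun x hx => if_neg hx⟩
  · intro x
    by_cases hx : x ∈ U
    · simp only [if_pos hx, if_pos ((h x).2 hx)]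
      rw [← Equiv.Perm.mul_apply, inv_mul_cancel, Equiv.Perm.one_apply]
    · simp only [if_neg hx]
  · intro x
    by_cases hx : x ∈ U
    · simp only [if_pos hx, if_pos ((h' x).2 hx)]
      rw [← Equiv.Perm.mul_apply, mul_inv_cancel, Equiv.Perm.one_apply]
    · simp only [if_neg hx]

private theorem ppr_res_inv {L R : Equiv.Perm E3} {S : Finset Cb}
    (hL : ∀ c ∈ S, ∀ x, L x ∈ hc c ↔ x ∈ hc c) (h : Res S L R) : Res S L⁻¹ R⁻¹ := by
  refine ⟨fun c hc x hx => ?_, fun x hx => ?_⟩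
  · rw [Equiv.Perm.inv_eq_iff_eq]
    have h1 : L (L⁻¹ x) = x := by
      rw [← Equiv.Perm.mul_apply, mul_inv_cancel, Equiv.Perm.one_apply]
    have h2 : L⁻¹ x ∈ Pool.Agent.QM59.D.hc c := by
      rw [← hL c hc, h1]
      exact hx
    rw [h.1 c hc _ h2, h1]
  · rw [Equiv.Perm.inv_eq_iff_eq, h.2 x hx]

private theorem ppr_near {L R : Equiv.Perm E3} {S : Finset Cb} (h : Res S L R) {c : Cb}
    (hc : c ∈ S) {x : E3} (hx : x ∈ oc c) : ∀ᶠ y in 𝓝 x, R y = L y := by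
  filter_upwards [(isOpen_oc c).mem_nhds hx] with y hy
  exact h.1 c hc y (oc_subset_hc c hy)

private theorem ppr_notMem (hF : CFam F) {S : Finset Cb} (hS : ↑S ⊆ F) {c : Cb} (hc : c ∈ F)
    (hcS : c ∉ S) {x : E3} (hx : x ∈ Pool.Agent.QM59.D.hc c) :
    ∀ c' ∈ S, x ∉ Pool.Agent.QM59.D.hc c' := by
  intro c' hc' hx'
  have h1 := hF.eq_of_mem hc (hS hc') hx hx'
  rw [h1] at hcS
  exact hcS hc'

private theorem ppr_reg (hF : CFam F) {L R : Equiv.Perm E3} (hL : PP F L) {S : Finset Cb}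
    (hS : ↑S ⊆ F) (h : Res S L R) :
    ∀ᵐ x ∂(volume.restrict Cube), ∃ A ∈ (⊤ : Subgroup SLQ), RatAt (fun y => R y) A x := by
  obtain ⟨⟨g, hg⟩, -, -⟩ := hL
  apply hF.ae
  intro c hc
  by_cases hcS : c ∈ S
  · have h1 : ∀ᵐ x ∂(volume.restrict (oc c)), x ∈ oc c :=
      ae_restrict_mem (measurableSet_oc c)
    filter_upwards [hg c hc, h1] with x h2 h3
    exact ⟨g c, Subgroup.mem_top _, h2.2.congr (ppr_near h hcS h3)⟩
  · have h1 : ∀ᵐ x ∂(volume.restrict (oc c)), x ∈ oc c :=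
      ae_restrict_mem (measurableSet_oc c)
    filter_upwards [h1] with x h3
    refine ⟨1, Subgroup.mem_top _, (RatAt.id x).congr ?_⟩
    filter_upwards [(isOpen_oc c).mem_nhds h3] with y hy
    exact h.2 y (ppr_notMem hF hS hc hcS (oc_subset_hc c hy))

theorem res_exists (hF : CFam F) {L : TG} (hL : PP F L.1) (S : Finset Cb) (hS : ↑S ⊆ F) :
    ∃ R : TG, Res S L.1 R.1 := by
  obtain ⟨R, hR1, hR2⟩ := ppr_perm L.1 {x | ∃ c ∈ S, x ∈ hc c} (by
    intro x
    constructor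
    · rintro ⟨c, hc, hx⟩
      exact ⟨c, hc, (hL.2.1 c (hS hc) x).1 hx⟩
    · rintro ⟨c, hc, hx⟩
      exact ⟨c, hc, (hL.2.1 c (hS hc) x).2 hx⟩)
  have hR : Res S L.1 R := by
    refine ⟨fun c hc x hx => hR1 x ⟨c, hc, hx⟩, fun x hx => hR2 x ?_⟩
    rintro ⟨c, hc, hx'⟩
    exact hx c hc hx'
  have hRi : Res S (L⁻¹).1 R⁻¹ := ppr_res_inv (fun c hc => hL.2.1 c (hS hc)) hR
  refine ⟨⟨R, ?_⟩, hR⟩
  rw [mem_TTs]
  refine ⟨fun x hx => hR.2 x fun c hc hx' => hx (hF.sub c (hS hc) hx'),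
    ppr_reg hF hL hS hR, ppr_reg hF (PP.inv hF hL) hS hRi⟩

theorem res_unique {L R R' : Equiv.Perm E3} {S : Finset Cb} (h : Res S L R) (h' : Res S L R') :
    R = R' := by
  ext1 x
  by_cases hx : ∃ c ∈ S, x ∈ hc c
  · obtain ⟨c, hc, hx⟩ := hx
    rw [h.1 c hc x hx, h'.1 c hc x hx]
  · have hx' : ∀ c ∈ S, x ∉ hc c := fun c hc hxc => hx ⟨c, hc, hxc⟩
    rw [h.2 x hx', h'.2 x hx']

theorem res_empty {L R : Equiv.Perm E3} (h : Res ∅ L R) : R = 1 := by
  ext1 x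
  rw [h.2 x fun c hc => absurd hc (Finset.notMem_empty c), Equiv.Perm.one_apply]

/-- one cube -/
theorem res_single (hF : CFam F) {L : TG} (hL : PP F L.1) {a : Cb} (ha : a ∈ F) {R : TG}
    (h : Res {a} L.1 R.1) : ∃ A : SLQ, OC a A R := by
  obtain ⟨⟨g, hg⟩, -, -⟩ := hL
  refine ⟨g a, fun x hx => h.2 x fun c hc => ?_, ?_⟩
  · rw [Finset.mem_singleton] at hc
    rw [hc]
    exact hx
  · have h1 : ∀ᵐ x ∂(volume.restrict (oc a)), x ∈ oc a :=
      ae_restrict_mem (measurableSet_oc a)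
    filter_upwards [hg a ha, h1] with x h2 h3
    exact h2.2.congr (ppr_near h (Finset.mem_singleton_self a) h3)

theorem res_insert (hF : CFam F) {L : TG} (hL : PP F L.1) {a : Cb} {S : Finset Cb}
    (ha : a ∉ S) (haF : a ∈ F) (hS : ↑S ⊆ F) {R R' R'' : TG} (h : Res {a} L.1 R.1)
    (h' : Res S L.1 R'.1) (h'' : Res (insert a S) L.1 R''.1) : R'' = R * R' := by
  apply Subtype.ext
  ext1 x
  show R''.1 x = R.1 (R'.1 x)
  have e1 : ∀ y, y ∉ hc a → R.1 y = y := fun y hy => h.2 y fun c hc => by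
    rw [Finset.mem_singleton] at hc
    rw [hc]
    exact hy
  by_cases hxa : x ∈ hc a
  · rw [h'.2 x (ppr_notMem hF hS haF ha hxa), h.1 a (Finset.mem_singleton_self a) x hxa,
      h''.1 a (Finset.mem_insert_self a S) x hxa]
  · by_cases hx : ∃ c ∈ S, x ∈ hc c
    · obtain ⟨c, hcS, hxc⟩ := hx
      have h1 : L.1 x ∈ hc c := (hL.2.1 c (hS hcS) x).2 hxc
      have h2 : L.1 x ∉ hc a := fun h3 => ppr_notMem hF hS haF ha h3 c hcS h1
      rw [h'.1 c hcS x hxc, e1 _ h2, h''.1 c (Finset.mem_insert_of_mem hcS) x hxc]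
    · have hx' : ∀ c ∈ S, x ∉ hc c := fun c hc hxc => hx ⟨c, hc, hxc⟩
      rw [h'.2 x hx', e1 x hxa, h''.2 x]
      intro c hc
      rcases Finset.mem_insert.1 hc with h3 | h3
      · rw [h3]
        exact hxa
      · exact hx' c h3

/-- restrictions (of possibly different maps) to disjoint sets of cubes commute -/
theorem res_comm (hF : CFam F) {L L' : TG} (hL : PP F L.1) (hL' : PP F L'.1) {a : Cb}
    {S : Finset Cb} (ha : a ∉ S) (haF : a ∈ F) (hS : ↑S ⊆ F) {R R' : TG} (h : Res {a} L.1 R.1)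
    (h' : Res S L'.1 R'.1) : R * R' = R' * R := by
  apply Subtype.ext
  ext1 x
  show R.1 (R'.1 x) = R'.1 (R.1 x)
  have e1 : ∀ y, y ∉ hc a → R.1 y = y := fun y hy => h.2 y fun c hc => by
    rw [Finset.mem_singleton] at hc
    rw [hc]
    exact hy
  by_cases hxa : x ∈ hc a
  · have h1 : L.1 x ∈ hc a := (hL.2.1 a haF x).2 hxa
    rw [h'.2 x (ppr_notMem hF hS haF ha hxa), h.1 a (Finset.mem_singleton_self a) x hxa,
      h'.2 _ (ppr_notMem hF hS haF ha h1)]
  · by_cases hx : ∃ c ∈ S, x ∈ hc c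
    · obtain ⟨c, hcS, hxc⟩ := hx
      have h1 : L'.1 x ∈ hc c := (hL'.2.1 c (hS hcS) x).2 hxc
      have h2 : L'.1 x ∉ hc a := fun h3 => ppr_notMem hF hS haF ha h3 c hcS h1
      rw [h'.1 c hcS x hxc, e1 _ h2, e1 x hxa, h'.1 c hcS x hxc]
    · have hx' : ∀ c ∈ S, x ∉ hc c := fun c hc hxc => hx ⟨c, hc, hxc⟩
      rw [h'.2 x hx', e1 x hxa, h'.2 x hx']

/-- the restrictions to finitely many cubes approximate `L`: the family has full measure, the
exceptional closed set is the complement of `⋃ c ∈ S, oc c` -/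
theorem res_app (hF : CFam F) (v : ℝ) (hv : 0 < v) :
    ∃ S : Finset Cb, ↑S ⊆ F ∧ ∀ (L R : Equiv.Perm E3), Res S L R → App L (fun x => R x) v := by
  classical
  let s : Finset ↥F → Set E3 := fun t => Cube \ ⋃ c ∈ t, oc c.1
  have hmeas : ∀ t, MeasurableSet (s t) := fun t =>
    isOpen_cube.measurableSet.diff (Finset.measurableSet_biUnion t fun c _ => measurableSet_oc _)
  have hanti : Antitone s := by
    intro t t' htt x hx
    refine ⟨hx.1, fun h1 => hx.2 ?_⟩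
    simp only [mem_iUnion, exists_prop] at h1 ⊢
    obtain ⟨c, hc, hxc⟩ := h1
    exact ⟨c, htt hc, hxc⟩
  have hfin : ∃ t, volume (s t) ≠ ⊤ := by
    refine ⟨∅, ne_top_of_le_ne_top ?_ (measure_mono (t := Cube) fun x hx => hx.1)⟩
    rw [volume_cube]
    exact ENNReal.one_ne_top
  have hlim := tendsto_measure_iInter_atTop (μ := (volume : Measure E3))
    (fun t => (hmeas t).nullMeasurableSet) hanti hfin
  have hzero : volume (⋂ t, s t) = 0 := by
    have h1 := hF.full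
    rw [ae_restrict_iff' isOpen_cube.measurableSet, ae_iff] at h1
    refine measure_mono_null ?_ h1
    intro x hx
    rw [mem_iInter] at hx
    have h2 : x ∈ Cube := (hx ∅).1
    show ¬ (x ∈ Cube → ∃ c ∈ F, x ∈ oc c)
    intro h3
    obtain ⟨c, hc, hxc⟩ := h3 h2
    apply (hx {⟨c, hc⟩}).2
    simp only [mem_iUnion, exists_prop]
    exact ⟨⟨c, hc⟩, Finset.mem_singleton_self _, hxc⟩
  rw [hzero] at hlim
  have hv' : (0 : ENNReal) < ENNReal.ofReal v := ENNReal.ofReal_pos.2 hv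
  obtain ⟨t, ht⟩ := (hlim.eventually (gt_mem_nhds hv')).exists
  refine ⟨t.map ⟨Subtype.val, Subtype.val_injective⟩, ?_, fun L R h => ?_⟩
  · intro c hc
    rw [Finset.mem_coe, Finset.mem_map] at hc
    obtain ⟨c', -, rfl⟩ := hc
    exact c'.2
  · refine ⟨(⋃ c ∈ t, oc c.1)ᶜ, ?_, ?_, ?_⟩
    · rw [isClosed_compl_iff]
      exact isOpen_biUnion fun c _ => isOpen_oc _
    · have h1 : (⋃ c ∈ t, oc c.1)ᶜ ∩ Cube = s t := by
        ext x
        constructor
        · rintro ⟨h1, h2⟩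
          exact ⟨h2, h1⟩
        · rintro ⟨h1, h2⟩
          exact ⟨h2, h1⟩
      rw [h1]
      exact ht
    · intro x _ hx
      rw [notMem_compl_iff] at hx
      simp only [mem_iUnion, exists_prop] at hx
      obtain ⟨c, hct, hxc⟩ := hx
      refine (h.1 c.1 ?_ x (oc_subset_hc _ hxc)).symm
      rw [Finset.mem_map]
      exact ⟨c, hct, rfl⟩

end Pool.Agent.QM59.D
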