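import Mathlib
import Pool.Agent.Lib.MP_decea1_gt_D.Abs
import Pool.Agent.Lib.MP_decea1_gt_D.PPr

/-!
# MP_decea1_gt, block D, module PPf: the cocycle vanishes on `PP F`

Induction on the finite set `S` for restrictions (`HC.prod2`, `res_insert`, `res_comm`), then
continuity (`Cont`, `res_app`).
-/

set_option autoImplicit false

open MeasureTheory Set Filter Topology

namespace Pool.Agent.QM59.D

theorem PP_flat {c : TG → TG → ℝ} {D : ℝ} (h : HC TG c D) (hc' : Cont c)
    (hone : ∀ c0 : Cb, 0 < c0.2 → hc c0 ⊆ H0 → ∀ (A A' : SLQ) (T T' : TG), OC c0 A T →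
      OC c0 A' T' → c T T' = 0)
    {F : Set Cb} (hF : CFam F) {L L' : TG} (hL : PP F L.1) (hL' : PP F L'.1) : c L L' = 0 := by
  have key : ∀ S : Finset Cb, ↑S ⊆ F → ∀ R R' : TG, Res S L.1 R.1 → Res S L'.1 R'.1 →
      c R R' = 0 := by
    intro S
    induction S using Finset.induction_on with
    | empty =>
      intro _ R R' hR _
      have e : R = 1 := Subtype.ext (res_empty hR)
      rw [e, h.one_left]
    | insert a S ha ih =>
      intro hS R R' hR hR'
      have haF : a ∈ F := hS (by simp)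
      have hSF : ↑S ⊆ F := fun x hx => hS (by
        rw [Finset.coe_insert]
        exact Set.mem_insert_of_mem _ hx)
      have haF1 : ↑({a} : Finset Cb) ⊆ F := by
        intro x hx
        rw [Finset.coe_singleton, Set.mem_singleton_iff] at hx
        rw [hx]
        exact haF
      obtain ⟨Ra, hRa⟩ := res_exists hF hL {a} haF1
      obtain ⟨Ra', hRa'⟩ := res_exists hF hL' {a} haF1
      obtain ⟨Rs, hRs⟩ := res_exists hF hL S hSF
      obtain ⟨Rs', hRs'⟩ := res_exists hF hL' S hSF
      have e1 : R = Ra * Rs := res_insert hF hL ha haF hSF hRa hRs hR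
      have e2 : R' = Ra' * Rs' := res_insert hF hL' ha haF hSF hRa' hRs' hR'
      obtain ⟨A, hA⟩ := res_single hF hL haF hRa
      obtain ⟨A', hA'⟩ := res_single hF hL' haF hRa'
      have z1 : c Ra Ra' = 0 := hone a (hF.pos a haF) (hF.sub a haF) A A' Ra Ra' hA hA'
      have z2 : c Rs Rs' = 0 := ih hSF Rs Rs' hRs hRs'
      rw [e1, e2]
      exact h.prod2 (res_comm hF hL hL ha haF hSF hRa hRs)
        (res_comm hF hL hL' ha haF hSF hRa hRs') (res_comm hF hL' hL ha haF hSF hRa' hRs)
        (res_comm hF hL' hL' ha haF hSF hRa' hRs') z1 z2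
  have small : ∀ ε : ℝ, 0 < ε → |c L L'| ≤ ε := by
    intro ε hε
    obtain ⟨v, hv, hcv⟩ := hc' ε hε
    obtain ⟨S, hS, hSa⟩ := res_app hF v hv
    obtain ⟨R, hR⟩ := res_exists hF hL S hS
    obtain ⟨R', hR'⟩ := res_exists hF hL' S hS
    have h1 := hcv L R L' R' (hSa L.1 R.1 hR) (hSa L'.1 R'.1 hR')
    rwa [key S hS R R' hR hR', sub_zero] at h1
  by_contra hne
  have hpos : 0 < |c L L'| := abs_pos.2 hne
  have h2 := small (|c L L'| / 2) (by linarith)
  linarith

end Pool.Agent.QM59.D
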