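import Mathlib
import Pool.Agent.Lib.MP_decea1_gt_D.LblA

/-!
# MP_decea1_gt, block D, module LblB: the label is determined by `κ * L`

`ratAt_QQG_mul`: a.e. `x ∈ oc c`: `RatAt L (g c) x`, and `RatAt κ 1 (L x)` (`ae_comp`), so
`RatAt (κ * L) (g c) x`.
`label_eq`: at almost every point of `oc c` (not empty, positive measure) both `g c` and `g' c` are
the linear part of the same map; `RatAt.unique`.
-/

set_option autoImplicit false

open MeasureTheory Set Filter Topology

namespace Pool.Agent.QM59.D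

theorem ratAt_QQG_mul {F : Set Cb} (hF : CFam F) {g : Cb → SLQ} {κ L : TG} (hκ : κ ∈ QQG)
    (hL : Lbl F g L.1) :
    ∀ c ∈ F, ∀ᵐ x ∂(volume.restrict (oc c)), RatAt (fun y => (κ * L).1 y) (g c) x := by
  intro c hc
  have h0 : IsTT (⊥ : Subgroup SLQ) κ.1 := Subgroup.mem_subgroupOf.1 hκ
  have h1 := hF.ae_oc (ae_comp L h0.reg) hc
  filter_upwards [h1, hL c hc] with x h2 h3
  obtain ⟨A, hA, h4⟩ := h2
  have hA1 : A = 1 := Subgroup.mem_bot.1 hA
  subst hA1
  have h5 := RatAt.mul (T := fun y => κ.1 y) (S := fun y => L.1 y) h3.2 h4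
  rw [one_mul] at h5
  exact h5

theorem label_eq {F : Set Cb} (hF : CFam F) {g g' : Cb → SLQ} {κ κ' L L' : TG} (hκ : κ ∈ QQG)
    (hκ' : κ' ∈ QQG) (hL : Lbl F g L.1) (hL' : Lbl F g' L'.1) (e : κ * L = κ' * L') :
    ∀ c ∈ F, g c = g' c := by
  intro c hc
  have hpos : (0 : ℝ) < (c.2 : ℝ) := by exact_mod_cast hF.pos c hc
  have hne : volume.restrict (oc c) ≠ 0 := by
    intro h0
    rw [Measure.restrict_eq_zero, volume_oc c (hF.pos c hc).le, ENNReal.ofReal_eq_zero] at h0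
    have : 0 < (c.2 : ℝ) ^ 3 := by positivity
    linarith
  have : (ae (volume.restrict (oc c))).NeBot := ae_neBot.2 hne
  have h1 := ratAt_QQG_mul hF hκ hL c hc
  have h2 := ratAt_QQG_mul hF hκ' hL' c hc
  rw [← e] at h2
  obtain ⟨x, h3, h4⟩ := (h1.and h2).exists
  exact h3.unique h4

end Pool.Agent.QM59.D
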