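import Mathlib
import Pool.Agent.Lib.MP_decea1_gt_D.Dyad
import Pool.Agent.Lib.MP_decea1_gt_D.LblA

/-!
# MP_decea1_gt, block D, module ProA: products of labelled maps, geometry

`common_ref`: `dyad` with `p c := (∃ c₁ ∈ F₁, oc c ⊆ oc c₁) ∧ ∃ c₂ ∈ F₂, oc c ⊆ oc c₂`.
`prod_fam`: `dyad` with `p c := (∃ c' ∈ F', oc c ⊆ oc c') ∧ ∃ c₀ ∈ F, ∀ x ∈ oc c, L' x ∈ oc c₀`: for
a.e. `x` there is `A` with `RatAt L' A x` (so `L'` is continuous near `x`), and `L' x ∈ oc c₀` for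
some `c₀ ∈ F` (`ae_comp`), an open condition.
`prod_lab`: for a.e. `x` in `oc c`, `c ∈ F''`: `y := L''⁻¹ x ∈ oc c` (label of `L''⁻¹`), so
`κ' x = L' y ∈ oc (γ c)`; `RatAt L (g (γ c)) (κ' x)` (label of `L` and `ae_comp` for `κ'`), and
`RatAt κ' 1 x`; `RatAt.mul`.
-/

set_option autoImplicit false

open MeasureTheory Set Filter Topology

namespace Pool.Agent.QM59.D

private theorem ProA_small {x : E3} {U : Set E3} (hU : U ∈ 𝓝 x) :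
    ∃ e : ℝ, 0 < e ∧ ∀ c : Cb, (c.2 : ℝ) < e → x ∈ oc c → oc c ⊆ U := by
  obtain ⟨e, he, hb⟩ := Metric.mem_nhds_iff.1 hU
  refine ⟨e, he, fun c hc hx y hy => hb ?_⟩
  rw [Metric.mem_ball, dist_pi_lt_iff he]
  intro i
  have h1 := hx i
  have h2 := hy i
  rw [Real.dist_eq, abs_lt]
  constructor <;> linarith [h1.1, h1.2, h2.1, h2.2]

theorem common_ref {F₁ F₂ : Set Cb} (h₁ : CFam F₁) (h₂ : CFam F₂) :
    ∃ F : Set Cb, CFam F ∧ (∀ c ∈ F, ∃ c' ∈ F₁, oc c ⊆ oc c') ∧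
      ∀ c ∈ F, ∃ c' ∈ F₂, oc c ⊆ oc c' := by
  obtain ⟨F, hF, hp⟩ := dyad (fun c => (∃ c' ∈ F₁, oc c ⊆ oc c') ∧ ∃ c' ∈ F₂, oc c ⊆ oc c') (by
    filter_upwards [h₁.full, h₂.full] with x hx1 hx2
    obtain ⟨c1, hc1, h3⟩ := hx1
    obtain ⟨c2, hc2, h4⟩ := hx2
    obtain ⟨e1, he1, h5⟩ := ProA_small ((isOpen_oc c1).mem_nhds h3)
    obtain ⟨e2, he2, h6⟩ := ProA_small ((isOpen_oc c2).mem_nhds h4)
    refine ⟨min e1 e2, lt_min he1 he2, fun c _ hc _ hx => ⟨⟨c1, hc1, ?_⟩, ⟨c2, hc2, ?_⟩⟩⟩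
    · exact h5 c (lt_of_lt_of_le hc (min_le_left _ _)) hx
    · exact h6 c (lt_of_lt_of_le hc (min_le_right _ _)) hx)
  exact ⟨F, hF, fun c hc => (hp c hc).1, fun c hc => (hp c hc).2⟩

theorem prod_fam {F F' : Set Cb} (hF : CFam F) (hF' : CFam F') (L' : TG) :
    ∃ (F'' : Set Cb) (γ : Cb → Cb), CFam F'' ∧ (∀ c ∈ F'', ∃ c' ∈ F', oc c ⊆ oc c') ∧
      ∀ c ∈ F'', γ c ∈ F ∧ ∀ x ∈ oc c, L'.1 x ∈ oc (γ c) := by
  obtain ⟨F'', hF'', hp⟩ := dyad (fun c => (∃ c' ∈ F', oc c ⊆ oc c') ∧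
      ∃ c₀ ∈ F, ∀ x ∈ oc c, L'.1 x ∈ oc c₀) (by
    filter_upwards [hF'.full, ae_comp L' hF.full, L'.2.reg] with x hx1 hx2 hx3
    obtain ⟨c1, hc1, h3⟩ := hx1
    obtain ⟨c2, hc2, h4⟩ := hx2
    obtain ⟨A, -, hA⟩ := hx3
    obtain ⟨e1, he1, h5⟩ := ProA_small ((isOpen_oc c1).mem_nhds h3)
    obtain ⟨e2, he2, h6⟩ := ProA_small
      (hA.continuousAt.preimage_mem_nhds ((isOpen_oc c2).mem_nhds h4))
    refine ⟨min e1 e2, lt_min he1 he2, fun c _ hc _ hx => ⟨⟨c1, hc1, ?_⟩, ⟨c2, hc2, ?_⟩⟩⟩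
    · exact h5 c (lt_of_lt_of_le hc (min_le_left _ _)) hx
    · exact fun y hy => h6 c (lt_of_lt_of_le hc (min_le_right _ _)) hx hy)
  choose! γ hγ using fun c (hc : c ∈ F'') => (hp c hc).2
  exact ⟨F'', γ, hF'', fun c hc => (hp c hc).1, hγ⟩

theorem prod_lab {F F'' : Set Cb} (hF : CFam F) (hF'' : CFam F'') {γ : Cb → Cb}
    {g g'' : Cb → SLQ} {L L' L'' κ' : TG} (hL : Lbl F g L.1) (hL'' : Lbl F'' g'' L''.1)
    (hκ' : κ' ∈ QQG) (e : L' = κ' * L'') (hγ : ∀ c ∈ F'', γ c ∈ F ∧ ∀ x ∈ oc c, L'.1 x ∈ oc (γ c)) :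
    ∀ c ∈ F'', ∀ᵐ x ∂(volume.restrict (oc c)), RatAt (fun y => (L * κ').1 y) (g (γ c)) x := by
  intro c hc
  have h1 := Lbl.inv hF'' hL'' c hc
  have h2 := hF''.ae_oc (ae_comp κ' (Lbl.ae hF hL)) hc
  have h3 : IsTT (⊥ : Subgroup SLQ) κ'.1 := Subgroup.mem_subgroupOf.1 hκ'
  have h4 := hF''.ae_oc h3.reg hc
  filter_upwards [h1, h2, h4] with x hx1 hx2 hx3
  obtain ⟨c', hc', h5, -, h6⟩ := hx2
  obtain ⟨A, hA, h7⟩ := hx3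
  rw [Subgroup.mem_bot] at hA
  subst hA
  have h8 : κ'.1 x ∈ oc (γ c) := by
    have e1 : κ' = L' * L''⁻¹ := by rw [e, mul_inv_cancel_right]
    have e2 : κ'.1 x = L'.1 ((L''⁻¹).1 x) := by
      rw [e1]
      rfl
    rw [e2]
    exact (hγ c hc).2 _ hx1.1
  have h9 : c' = γ c :=
    hF.eq_of_mem hc' (hγ c hc).1 (oc_subset_hc _ h5) (oc_subset_hc _ h8)
  subst h9
  have h10 := RatAt.mul (T := fun y => L.1 y) (S := fun y => κ'.1 y) h7 h6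
  rw [mul_one] at h10
  exact h10

end Pool.Agent.QM59.D
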