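import Mathlib
import Pool.Agent.Lib.MP_decea1_gt_D.ProA
import Pool.Agent.Lib.MP_decea1_gt_D.Conj5
import Pool.Agent.Lib.MP_decea1_gt_D.LblB

/-!
# MP_decea1_gt, block D, module Prod5: `sg L * sg L'` for `L ∈ PP F`, `L' ∈ PP F'`
-/

set_option autoImplicit false

open MeasureTheory Set Filter Topology

namespace Pool.Agent.QM59.D

open HX

variable {c : TG → TG → ℝ} {D : ℝ}

/-- the lift `sg κ * sg L` only depends on the product `κ * L` -/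
theorem sg_uniq (h : HC TG c D) (hQ : ∀ κ ∈ QQG, ∀ κ' ∈ QQG, c κ κ' = 0) (hgen : Gen)
    {F₁ F₂ : Set Cb} (hF₁ : CFam F₁) (hF₂ : CFam F₂) {κ₁ κ₂ L₁ L₂ : TG} (hκ₁ : κ₁ ∈ QQG)
    (hκ₂ : κ₂ ∈ QQG) (hL₁ : PP F₁ L₁.1) (hL₂ : PP F₂ L₂.1) (e : κ₁ * L₁ = κ₂ * L₂) :
    sg h κ₁ * sg h L₁ = sg h κ₂ * sg h L₂ := by
  obtain ⟨⟨g₁, hg₁⟩, -, -⟩ := hL₁
  obtain ⟨⟨g₂, hg₂⟩, -, -⟩ := hL₂
  obtain ⟨F, hF, hr₁, hr₂⟩ := common_ref hF₁ hF₂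
  obtain ⟨g₃, κ₃, L₃, hκ₃, -, hL₃, -, f1, e1⟩ := split h hQ hgen hF₁ hF hr₁ hg₁
  obtain ⟨g₄, κ₄, L₄, hκ₄, -, hL₄, -, f2, e2⟩ := split h hQ hgen hF₂ hF hr₂ hg₂
  have hκ₃' : κ₃ ∈ QQG := hκ₃.mem_QQG hF₁
  have hκ₄' : κ₄ ∈ QQG := hκ₄.mem_QQG hF₂
  -- the labels of `L₃` and `L₄` agree
  have hlab : ∀ c ∈ F, g₃ c = g₄ c := by
    refine label_eq hF (QQG.mul_mem hκ₁ hκ₃') (QQG.mul_mem hκ₂ hκ₄') hL₃ hL₄ ?_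
    rw [mul_assoc, ← f1, mul_assoc κ₂, ← f2, e]
  have hL₃' : Lbl F g₄ L₃.1 := hL₃.congr hlab
  obtain ⟨h5, e3⟩ := same_label h hQ hF hL₃' hL₄
  have h5' : L₃ * L₄⁻¹ ∈ QQG := h5.mem_QQG hF
  have e4 : κ₁ * κ₃ * (L₃ * L₄⁻¹) = κ₂ * κ₄ := by
    have : κ₁ * κ₃ * L₃ = κ₂ * κ₄ * L₄ := by
      rw [mul_assoc, ← f1, mul_assoc κ₂, ← f2, e]
    calc κ₁ * κ₃ * (L₃ * L₄⁻¹) = (κ₁ * κ₃ * L₃) * L₄⁻¹ := by group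
      _ = κ₂ * κ₄ := by rw [this]; group
  have a1 : sg h (κ₁ * κ₃ * (L₃ * L₄⁻¹)) = sg h κ₁ * sg h κ₃ * sg h (L₃ * L₄⁻¹) := by
    rw [← (sg_mul_iff (h := h) (κ₁ * κ₃) _).2 (hQ _ (QQG.mul_mem hκ₁ hκ₃') _ h5'),
      ← (sg_mul_iff (h := h) κ₁ κ₃).2 (hQ _ hκ₁ _ hκ₃')]
  have a2 : sg h (κ₂ * κ₄) = sg h κ₂ * sg h κ₄ :=
    ((sg_mul_iff (h := h) κ₂ κ₄).2 (hQ _ hκ₂ _ hκ₄')).symm
  rw [e1, e2, e3, ← mul_assoc, ← mul_assoc, ← mul_assoc, ← a1, e4, a2]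

theorem prod5 (h : HC TG c D) (hQ : ∀ κ ∈ QQG, ∀ κ' ∈ QQG, c κ κ' = 0) (hgen : Gen)
    (hP : ∀ F : Set Cb, CFam F → ∀ L L' : TG, PP F L.1 → PP F L'.1 → c L L' = 0)
    {F F' : Set Cb} (hF : CFam F) (hF' : CFam F') {L L' : TG} (hL : PP F L.1)
    (hL' : PP F' L'.1) :
    ∃ (F'' : Set Cb) (κ L'' : TG), CFam F'' ∧ κ ∈ QQG ∧ PP F'' L''.1 ∧
      sg h L * sg h L' = sg h κ * sg h L'' := by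
  obtain ⟨⟨g, hg⟩, -, -⟩ := id hL
  obtain ⟨⟨g', hg'⟩, -, -⟩ := id hL'
  obtain ⟨F'', γ, hF'', hr, hγ⟩ := prod_fam hF hF' L'
  obtain ⟨g'', κ', L'', hκ', hPP'', hL'', -, f1, e1⟩ := split h hQ hgen hF' hF'' hr hg'
  have hκ'' : κ' ∈ QQG := hκ'.mem_QQG hF'
  have hlab := prod_lab hF hF'' hg hL'' hκ'' f1 hγ
  obtain ⟨F₄, κ₄, L₄, hF₄, hκ₄, hL₄, e2⟩ := conj5 h hQ hgen hF hL hκ''
  obtain ⟨L₃, hPP₃, hL₃⟩ := ex_label hgen hF'' (fun c => g (γ c))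
  -- `L * κ'` and `L₃` have the same linear part
  have hκ₃ : L * κ' * L₃⁻¹ ∈ QQG := by
    apply mem_QQG_of_same
    apply hF''.ae
    intro c hc
    filter_upwards [hlab c hc, hL₃ c hc] with x h1 h2
    exact ⟨_, h1, h2.2⟩
  have f2 : κ₄ * L₄ = L * κ' * L₃⁻¹ * L₃ := by
    have := congrArg HX.g e2
    simp only [mul_g, sg_g] at this
    rw [← this]
    group
  have e3 := sg_uniq h hQ hgen hF₄ hF'' hκ₄ hκ₃ hL₄ hPP₃ f2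
  refine ⟨F'', L * κ' * L₃⁻¹, L₃ * L'', hF'', hκ₃, hPP₃.mul hF'' hPP'', ?_⟩
  have e4 : sg h (L₃ * L'') = sg h L₃ * sg h L'' :=
    ((sg_mul_iff (h := h) L₃ L'').2 (hP F'' hF'' _ _ hPP₃ hPP'')).symm
  rw [e4, e1, ← mul_assoc, e2, e3, mul_assoc]

end Pool.Agent.QM59.D
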