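import Mathlib
import Pool.Agent.Lib.MP_decea1_gt_D.Prod5
import Pool.Agent.Lib.MP_decea1_gt_D.OneG
import Pool.Agent.Lib.MP_decea1_gt_D.PPf
import Pool.Agent.Lib.MP_decea1_gt_D.GPc

/-!
# MP_decea1_gt, block D, module Zero: a continuous homogeneous bounded cocycle on `TG` is zero
-/

set_option autoImplicit false

open MeasureTheory Set Filter Topology

namespace Pool.Agent.QM59.D

open HX

/-- every element of `TG` has a constant linear part on the cubes of a suitable family.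
`dyad` with `p c := ∃ A b, ∀ x ∈ oc c, T x = aff A b x`. -/
theorem fam_of (T : TG) : ∃ (F : Set Cb) (g : Cb → SLQ), CFam F ∧
    ∀ c ∈ F, ∀ x ∈ oc c, RatAt (fun y => T.1 y) (g c) x := by
  classical
  obtain ⟨F, hF, hp⟩ := dyad (fun c => ∃ (A : SLQ) (b : Fin 3 → ℚ), ∀ x ∈ oc c,
    T.1 x = aff A b x) (by
      have hT : IsTT ⊤ T.1 := T.2
      filter_upwards [hT.reg] with x hx
      obtain ⟨A, -, b, hb⟩ := hx
      obtain ⟨e, he, hball⟩ := Metric.eventually_nhds_iff.1 hb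
      refine ⟨e, he, fun c hc0 hce _ hxc => ⟨A, b, fun y hy => hball ?_⟩⟩
      rw [dist_pi_lt_iff he]
      intro i
      have h1 := hxc i
      have h2 := hy i
      rw [Real.dist_eq, abs_lt]
      constructor <;> linarith [h1.1, h1.2, h2.1, h2.2])
  refine ⟨F, fun c => if h : ∃ (A : SLQ) (b : Fin 3 → ℚ), ∀ x ∈ oc c, T.1 x = aff A b x then
    Classical.choose h else 1, hF, fun c hc x hx => ?_⟩
  have hpc := hp c hc
  show RatAt (fun y => T.1 y) (if h : ∃ (A : SLQ) (b : Fin 3 → ℚ), ∀ x ∈ oc c,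
    T.1 x = aff A b x then Classical.choose h else 1) x
  rw [dif_pos hpc]
  obtain ⟨b, hb⟩ := Classical.choose_spec hpc
  refine ⟨b, ?_⟩
  filter_upwards [(isOpen_oc c).mem_nhds hx] with y hy
  exact hb y hy

/-- decomposition `T = κ * L` -/
theorem decomp (hgen : Gen) (T : TG) : ∃ (F : Set Cb) (κ L : TG), CFam F ∧ κ ∈ QQG ∧ PP F L.1 ∧
    T = κ * L := by
  obtain ⟨F, g, hF, hg⟩ := fam_of T
  obtain ⟨L, hPP, hL⟩ := ex_label hgen hF g
  refine ⟨F, T * L⁻¹, L, hF, ?_, hPP, by group⟩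
  apply mem_QQG_of_same
  apply hF.ae
  intro c hc
  filter_upwards [hL c hc, ae_restrict_mem (measurableSet_oc c)] with x h1 h2
  exact ⟨_, hg c hc x h2, h1.2⟩

/-- the cube with a map of every linear part -/
theorem ex_OC (hgen : Gen) {c0 : Cb} (hp : 0 < c0.2) (hs : hc c0 ⊆ H0) (A : SLQ) :
    ∃ T : TG, OC c0 A T := by
  obtain ⟨T, h1, h2, -⟩ := ex_cube (ex_unit hgen A) c0 hp hs
  exact ⟨T, h1, h2⟩

theorem TG_zero {c : TG → TG → ℝ} {D : ℝ} (h : HC TG c D) (hc' : Cont c) (hgen : Gen)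
    (hSL : SLZ) : ∀ T T' : TG, c T T' = 0 := by
  have hQ := QQ_flat h hc'
  have hone : ∀ c0 : Cb, 0 < c0.2 → hc c0 ⊆ H0 → ∀ (A A' : SLQ) (T T' : TG), OC c0 A T →
      OC c0 A' T' → c T T' = 0 := fun c0 hp hs A A' T T' h1 h2 =>
    one_flat h hSL hQ hp hs (ex_OC hgen hp hs) h1 h2
  have hP : ∀ F : Set Cb, CFam F → ∀ L L' : TG, PP F L.1 → PP F L'.1 → c L L' = 0 :=
    fun F hF L L' h1 h2 => PP_flat h hc' hone hF h1 h2
  let S : Set (HX h) := {a | ∃ (F : Set Cb) (κ L : TG), CFam F ∧ κ ∈ QQG ∧ PP F L.1 ∧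
    a = sg h κ * sg h L}
  have hS : ∀ a ∈ S, ∀ b ∈ S, a * b ∈ S := by
    rintro a ⟨F, κ, L, hF, hκ, hL, rfl⟩ b ⟨F', κ', L', hF', hκ', hL', rfl⟩
    obtain ⟨F₁, κ₁, L₁, hF₁, hκ₁, hL₁, e1⟩ := conj5 h hQ hgen hF hL hκ'
    obtain ⟨F₂, κ₂, L₂, hF₂, hκ₂, hL₂, e2⟩ := prod5 h hQ hgen hP hF₁ hF' hL₁ hL'
    refine ⟨F₂, κ * κ₁ * κ₂, L₂, hF₂, QQG.mul_mem (QQG.mul_mem hκ hκ₁) hκ₂, hL₂, ?_⟩
    have e3 : sg h (κ * κ₁ * κ₂) = sg h κ * sg h κ₁ * sg h κ₂ := by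
      rw [← (sg_mul_iff (h := h) (κ * κ₁) _).2 (hQ _ (QQG.mul_mem hκ hκ₁) _ hκ₂),
        ← (sg_mul_iff (h := h) κ κ₁).2 (hQ _ hκ _ hκ₁)]
    calc sg h κ * sg h L * (sg h κ' * sg h L')
        = sg h κ * (sg h L * sg h κ') * sg h L' := by group
      _ = sg h κ * sg h κ₁ * (sg h L₁ * sg h L') := by rw [e1]; group
      _ = sg h (κ * κ₁ * κ₂) * sg h L₂ := by rw [e2, e3]; group
  have hB : ∀ a ∈ S, |a.r| ≤ D := by
    rintro a ⟨F, κ, L, hF, hκ, hL, rfl⟩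
    simpa using h.bdd κ L
  have hz := r_zero_of_closed S hS D hB
  have hmem : ∀ T : TG, sg h T ∈ S := by
    intro T
    obtain ⟨F, κ, L, hF, hκ, hL, e⟩ := decomp hgen T
    have h1 : sg h κ * sg h L ∈ S := ⟨F, κ, L, hF, hκ, hL, rfl⟩
    have h2 := hz _ h1
    have h3 : sg h κ * sg h L = sg h T := by
      rw [eq_iff]
      constructor
      · simp [e]
      · rw [h2]; rfl
    rw [← h3]
    exact h1
  intro T T'
  have h1 := hz _ (hS _ (hmem T) _ (hmem T'))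
  simpa using h1

end Pool.Agent.QM59.D
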