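import Mathlib
import Pool.Agent.Lib.MP_decea1_gt_D.Zero
import Pool.Agent.Lib.MP_decea1_gt_D.RoA
import Pool.Agent.Lib.MP_decea1_gt_D.AppR
import Pool.Agent.Lib.MP_decea1_gt_D.HatApp

/-!
# MP_decea1_gt, block D, module Fin: the export of block D
-/

set_option autoImplicit false

open MeasureTheory Set Filter Topology

namespace Pool.Agent.QM59.D

theorem HC_comap {G H : Type*} [Group G] [Group H] {c : G → G → ℝ} {D : ℝ} (h : HC G c D)
    (f : H →* G) : HC H (fun x y => c (f x) (f y)) D := by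
  refine ⟨fun x y z => ?_, fun x y => h.bdd _ _, fun x m n => ?_⟩
  · simpa using h.coc (f x) (f y) (f z)
  · simpa using h.hom (f x) m n

/-- a map which is rational affine off measure `v` is `v`-close to an element of `TT` -/
theorem ratoff_app (hgen : Gen) {s : Equiv.Perm E3} (hs : IdOff H0 s) {v : ℝ}
    (hR : RatOff s v) : ∃ T : TG, App s (fun x => T.1 x) v := by
  obtain ⟨F, g, B, hF, hB, hv, hc⟩ := ratoff_fam hR
  obtain ⟨L, -, hL⟩ := ex_label hgen hF g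
  have hLi := hL.inv hF
  have hκ : IdOff H0 (s * (L⁻¹).1) := by
    intro x hx
    rw [Equiv.Perm.mul_apply, (L⁻¹).2.off x hx, hs x hx]
  have hae : ∀ᵐ x ∂(volume.restrict Cube), x ∈ B ∨
      RatAt (fun y => (s * (L⁻¹).1) y) 1 x := by
    apply hF.ae
    intro c hcF
    filter_upwards [hLi c hcF, ae_restrict_mem (measurableSet_oc c)] with x h1 h2
    rcases hc c hcF with h3 | h3
    · exact Or.inl (h3 h2)
    · right
      have h4 := RatAt.mul (T := fun y => s y) (S := fun y => (L⁻¹).1 y) h1.2 (h3 _ h1.1)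
      simpa using h4
  obtain ⟨M₀, h5, h6⟩ := GP hκ B hB hae v hv
  obtain ⟨π, hπ⟩ := h6 M₀ h5 dvd_rfl
  have hg : gp M₀ h5 π ∈ TTs (⊤ : Subgroup SLQ) := TTs_mono bot_le (gp_mem M₀ h5 π)
  refine ⟨⟨gp M₀ h5 π, hg⟩ * L, ?_⟩
  have h7 := App_comp_TT L hπ
  have e1 : s * (L⁻¹).1 * L.1 = s := by
    rw [show ((L⁻¹ : TG)).1 = (L.1)⁻¹ from rfl]
    group
  rw [e1] at h7
  exact h7

/-- EXPORT OF BLOCK D (with the output of blocks B (`UC`), G (`RL`) and THEOREM SL as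
hypotheses) -/
theorem dFin_of {Γ : Subgroup (Equiv.Perm E3)} {φ : Equiv.Perm E3 → ℝ} {D : ℝ} (hΓ : Good Γ)
    (hφ : HQ Γ φ D) (hU : UC Γ φ) (hRL : TTs (⊤ : Subgroup SLQ) ≤ hatG hΓ) (hgen : Gen)
    (hSL : SLZ) : DFin Γ φ := by
  let f : TG →* hatG hΓ := Subgroup.inclusion hRL
  have h1 : HC TG (fun T T' => cc hΓ φ (f T) (f T')) D := HC_comap (cc_HC hΓ hφ hU) f
  have h2 : Cont (fun T T' => cc hΓ φ (f T) (f T')) := by
    intro ε hε
    obtain ⟨v, hv, h⟩ := cc_cont hΓ hU ε hε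
    exact ⟨v, hv, fun T T' S S' a b => h (f T) (f T') (f S) (f S') a b⟩
  have h3 := TG_zero h1 h2 hgen hSL
  intro ε hε
  obtain ⟨v, hv, h⟩ := cc_near hΓ hU ε hε
  refine ⟨v, hv, fun s hs s' hs' hR hR' => ?_⟩
  have hoff : ∀ t ∈ Γ, IdOff H0 t := by
    intro t ht x hx
    obtain ⟨K, hK, -, hK'⟩ := hΓ.supp t ht
    exact hK' x fun hxK => hx (cube_sub_H0 (hK hxK))
  obtain ⟨T, hT⟩ := ratoff_app hgen (hoff s hs) hR
  obtain ⟨T', hT'⟩ := ratoff_app hgen (hoff s' hs') hR'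
  have h4 := h (f T) (f T') s hs s' hs' hT hT'
  have h5 : cc hΓ φ (f T) (f T') = 0 := h3 T T'
  rwa [h5, sub_zero] at h4

end Pool.Agent.QM59.D
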