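import Pool.Agent.Lib.MP_decea1_gt_D.D13

/-!
# MP_decea1_gt, block D, D1.7: a homogeneous bounded cocycle on `SL₃(ℚ)` vanishes

The cocycle vanishes on the unipotent group `U` and on the monomial group `N`; the sign argument
(conjugation by a diagonal matrix with entries `±1` inverts two opposite root elements) shows that
the section is multiplicative on `x_a(s) x_{-a}(-1/s) x_a(s)`; the Bruhat argument shows that
`sg U · sg N · sg U` is stable under left multiplication by the generators, so that the group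
generated by them is bounded, hence consists of elements `sg x`.
-/

set_option autoImplicit false

namespace Pool.Agent.QM59

namespace SLT

open Matrix

/-- the group -/
abbrev G3 : Type := Matrix.SpecialLinearGroup (Fin 3) ℚ

/-- root elements -/
def X (i j : Fin 3) (h : i ≠ j) (s : ℚ) : G3 := Matrix.SpecialLinearGroup.transvection h s

theorem X_coe (i j : Fin 3) (h : i ≠ j) (s : ℚ) :
    (X i j h s).1 = 1 + Matrix.single i j s := rfl

theorem X_inv (i j : Fin 3) (h : i ≠ j) (s : ℚ) : (X i j h s)⁻¹ = X i j h (-s) :=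
  Matrix.SpecialLinearGroup.transvection_inv h s

theorem X_zero (i j : Fin 3) (h : i ≠ j) : X i j h 0 = 1 :=
  Matrix.SpecialLinearGroup.transvection_coeff_zero h

/-- upper unipotent elements -/
def up (a b c : ℚ) : G3 := ⟨!![1, a, b; 0, 1, c; 0, 0, 1], by simp [Matrix.det_fin_three]⟩

theorem up_mul (a b c a' b' c' : ℚ) :
    up a b c * up a' b' c' = up (a + a') (b' + a * c' + b) (c + c') := by
  apply Subtype.ext
  change !![1, a, b; 0, 1, c; 0, 0, 1] * !![1, a', b'; 0, 1, c'; 0, 0, 1] =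
    !![1, a + a', b' + a * c' + b; 0, 1, c + c'; 0, 0, 1]
  ext i j
  fin_cases i <;> fin_cases j <;> simp [Matrix.mul_apply, Fin.sum_univ_three] <;> ring

theorem up_one : up 0 0 0 = 1 := by
  apply Subtype.ext
  change !![1, 0, 0; 0, 1, 0; 0, 0, 1] = (1 : Matrix (Fin 3) (Fin 3) ℚ)
  ext i j
  fin_cases i <;> fin_cases j <;> simp

theorem up_inv (a b c : ℚ) : (up a b c)⁻¹ = up (-a) (a * c - b) (-c) := by
  apply inv_eq_of_mul_eq_one_left
  rw [up_mul, ← up_one]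
  congr 1 <;> ring

theorem X01 (s : ℚ) : X 0 1 (by decide) s = up s 0 0 := by
  apply Subtype.ext
  rw [X_coe]
  change (1 : Matrix (Fin 3) (Fin 3) ℚ) + Matrix.single 0 1 s = !![1, s, 0; 0, 1, 0; 0, 0, 1]
  ext i j
  fin_cases i <;> fin_cases j <;> simp [Matrix.single_apply]

theorem X02 (s : ℚ) : X 0 2 (by decide) s = up 0 s 0 := by
  apply Subtype.ext
  rw [X_coe]
  change (1 : Matrix (Fin 3) (Fin 3) ℚ) + Matrix.single 0 2 s = !![1, 0, s; 0, 1, 0; 0, 0, 1]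
  ext i j
  fin_cases i <;> fin_cases j <;> simp [Matrix.single_apply]

theorem X12 (s : ℚ) : X 1 2 (by decide) s = up 0 0 s := by
  apply Subtype.ext
  rw [X_coe]
  change (1 : Matrix (Fin 3) (Fin 3) ℚ) + Matrix.single 1 2 s = !![1, 0, 0; 0, 1, s; 0, 0, 1]
  ext i j
  fin_cases i <;> fin_cases j <;> simp [Matrix.single_apply]

/-- the upper unipotent group -/
def U : Subgroup G3 where
  carrier := {x | ∃ a b c, x = up a b c}
  one_mem' := ⟨0, 0, 0, up_one.symm⟩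
  mul_mem' := by
    rintro _ _ ⟨a, b, c, rfl⟩ ⟨a', b', c', rfl⟩
    exact ⟨_, _, _, up_mul _ _ _ _ _ _⟩
  inv_mem' := by
    rintro _ ⟨a, b, c, rfl⟩
    exact ⟨_, _, _, up_inv _ _ _⟩

theorem mem_U (x : G3) : x ∈ U ↔ ∃ a b c, x = up a b c := Iff.rfl

theorem up_mem (a b c : ℚ) : up a b c ∈ U := ⟨a, b, c, rfl⟩

theorem X_mem_U (i j : Fin 3) (h : i < j) (s : ℚ) : X i j h.ne s ∈ U := by
  fin_cases i <;> fin_cases j
  · exact absurd h (by decide)
  · exact ⟨_, _, _, X01 s⟩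
  · exact ⟨_, _, _, X02 s⟩
  · exact absurd h (by decide)
  · exact absurd h (by decide)
  · exact ⟨_, _, _, X12 s⟩
  · exact absurd h (by decide)
  · exact absurd h (by decide)
  · exact absurd h (by decide)

/-- the centre of the upper unipotent group -/
def U2 : Subgroup G3 where
  carrier := {x | ∃ b, x = up 0 b 0}
  one_mem' := ⟨0, up_one.symm⟩
  mul_mem' := by
    rintro _ _ ⟨b, rfl⟩ ⟨b', rfl⟩
    refine ⟨b + b', ?_⟩
    rw [up_mul]
    congr 1 <;> ring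
  inv_mem' := by
    rintro _ ⟨b, rfl⟩
    refine ⟨-b, ?_⟩
    rw [up_inv]
    congr 1 <;> ring

/-! ### Monomial matrices -/

/-- monomial matrices with a given permutation -/
def Mon (σ : Equiv.Perm (Fin 3)) (x : G3) : Prop := ∀ i j, i ≠ σ j → x.1 i j = 0

theorem Mon.one : Mon 1 1 := by
  intro i j h
  exact Matrix.one_apply_ne h

theorem Mon.mul {σ τ : Equiv.Perm (Fin 3)} {x y : G3} (hx : Mon σ x) (hy : Mon τ y) :
    Mon (σ * τ) (x * y) := by
  intro i j h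
  change (x.1 * y.1) i j = 0
  rw [Matrix.mul_apply]
  refine Finset.sum_eq_zero fun k _ => ?_
  by_cases hk : k = τ j
  · have : i ≠ σ k := by rw [hk]; exact h
    rw [hx i k this, zero_mul]
  · rw [hy k j hk, mul_zero]

theorem Mon.apply_mul {σ : Equiv.Perm (Fin 3)} {x : G3} (hx : Mon σ x) (y : G3) (i j : Fin 3) :
    (x * y).1 (σ i) j = x.1 (σ i) i * y.1 i j := by
  change (x.1 * y.1) (σ i) j = _
  rw [Matrix.mul_apply]
  refine Finset.sum_eq_single_of_mem i (Finset.mem_univ _) fun k _ hk => ?_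
  have : σ i ≠ σ k := fun h => hk (σ.injective h).symm
  rw [hx _ _ this, zero_mul]

theorem Mon.ne_zero {σ : Equiv.Perm (Fin 3)} {x : G3} (hx : Mon σ x) (i : Fin 3) :
    x.1 (σ i) i ≠ 0 := by
  intro h
  have h1 := hx.apply_mul x⁻¹ i (σ i)
  rw [mul_inv_cancel, h, zero_mul] at h1
  have h2 : (1 : G3).1 (σ i) (σ i) = 1 := Matrix.one_apply_eq _
  rw [h2] at h1
  exact one_ne_zero h1

theorem Mon.inv {σ : Equiv.Perm (Fin 3)} {x : G3} (hx : Mon σ x) : Mon σ⁻¹ x⁻¹ := by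
  intro i j h
  have h1 := hx.apply_mul x⁻¹ i j
  rw [mul_inv_cancel] at h1
  have h2 : (1 : G3).1 (σ i) j = 0 := by
    apply Matrix.one_apply_ne
    intro h3
    apply h
    rw [← h3]
    simp
  rw [h2] at h1
  rcases mul_eq_zero.1 h1.symm with h3 | h3
  · exact absurd h3 (hx.ne_zero i)
  · exact h3

/-- monomial matrices permute the root groups -/
theorem Mon.conj {σ : Equiv.Perm (Fin 3)} {n : G3} (hn : Mon σ n) (i j : Fin 3) (h : i ≠ j)
    (s : ℚ) : n * X i j h s * n⁻¹ =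
      X (σ i) (σ j) (fun e => h (σ.injective e)) (s * n.1 (σ i) i / n.1 (σ j) j) := by
  rw [mul_inv_eq_iff_eq_mul]
  apply Subtype.ext
  change n.1 * (X i j h s).1 = (X (σ i) (σ j) _ _).1 * n.1
  rw [X_coe, X_coe, mul_add, add_mul, mul_one, one_mul]
  congr 1
  ext a b
  rw [Matrix.mul_apply, Matrix.mul_apply]
  have h1 : ∑ k, n.1 a k * Matrix.single i j s k b = n.1 a i * Matrix.single i j s i b := by
    refine Finset.sum_eq_single_of_mem i (Finset.mem_univ _) fun k _ hk => ?_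
    rw [Matrix.single_apply, if_neg (fun h => hk h.1.symm), mul_zero]
  have h2 : ∑ k, Matrix.single (σ i) (σ j) (s * n.1 (σ i) i / n.1 (σ j) j) a k * n.1 k b =
      Matrix.single (σ i) (σ j) (s * n.1 (σ i) i / n.1 (σ j) j) a (σ j) * n.1 (σ j) b := by
    refine Finset.sum_eq_single_of_mem (σ j) (Finset.mem_univ _) fun k _ hk => ?_
    rw [Matrix.single_apply, if_neg (fun h => hk h.2.symm), zero_mul]
  rw [h1, h2, Matrix.single_apply, Matrix.single_apply]
  by_cases ha : σ i = a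
  · by_cases hb : j = b
    · subst ha hb
      have := hn.ne_zero j
      simp
      field_simp
    · have : n.1 (σ j) b = 0 := hn _ _ fun e => hb (σ.injective e)
      simp [hb, this]
  · have : n.1 a i = 0 := hn _ _ fun e => ha e.symm
    simp [ha, this]

/-- the diagonal group -/
def T3 : Subgroup G3 where
  carrier := {x | Mon 1 x}
  one_mem' := Mon.one
  mul_mem' := fun {x y} hx hy => by simpa using Mon.mul hx hy
  inv_mem' := fun {x} hx => by simpa using Mon.inv hx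

/-- even monomial matrices -/
def N3 : Subgroup G3 where
  carrier := {x | ∃ σ, Equiv.Perm.sign σ = 1 ∧ Mon σ x}
  one_mem' := ⟨1, by simp, Mon.one⟩
  mul_mem' := by
    rintro x y ⟨σ, hs, hx⟩ ⟨τ, ht, hy⟩
    exact ⟨σ * τ, by simp [hs, ht], hx.mul hy⟩
  inv_mem' := by
    rintro x ⟨σ, hs, hx⟩
    exact ⟨σ⁻¹, by simp [hs], hx.inv⟩

/-- monomial matrices -/
def N : Subgroup G3 where
  carrier := {x | ∃ σ, Mon σ x}
  one_mem' := ⟨1, Mon.one⟩
  mul_mem' := by
    rintro x y ⟨σ, hx⟩ ⟨τ, hy⟩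
    exact ⟨σ * τ, hx.mul hy⟩
  inv_mem' := by
    rintro x ⟨σ, hx⟩
    exact ⟨σ⁻¹, hx.inv⟩

theorem T3_comm {x y : G3} (hx : x ∈ T3) (hy : y ∈ T3) : x * y = y * x := by
  have hx' : Mon 1 x := hx
  have hy' : Mon 1 y := hy
  apply Subtype.ext
  ext i j
  have e1 := hx'.apply_mul y i j
  have e2 := hy'.apply_mul x i j
  simp only [Equiv.Perm.coe_one, id_eq] at e1 e2
  rw [e1, e2]
  by_cases h : i = j
  · subst h
    ring
  · rw [hx' i j h, hy' i j h]
    ring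

theorem sign_comm : ∀ σ τ : Equiv.Perm (Fin 3), Equiv.Perm.sign σ = 1 → Equiv.Perm.sign τ = 1 →
    σ * τ * σ⁻¹ * τ⁻¹ = 1 := by
  decide

end SLT

open SLT HX

variable {c : G3 → G3 → ℝ} {D : ℝ}

theorem SL_good_U (h : HC G3 c D) : ∀ x ∈ U, ∀ y ∈ U, c x y = 0 := by
  apply h.comm_quot U U2
  · rintro _ ⟨b, rfl⟩
    exact ⟨_, _, _, rfl⟩
  · rintro _ ⟨b, rfl⟩ _ ⟨b', rfl⟩
    apply h.comm
    rw [up_mul, up_mul]
    congr 1 <;> ring
  · rintro _ ⟨a, b, c', rfl⟩ _ ⟨b', rfl⟩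
    refine ⟨b', ?_⟩
    rw [up_inv, up_mul, up_mul]
    congr 1 <;> ring
  · rintro _ ⟨a, b, c', rfl⟩ _ ⟨a', b', c'', rfl⟩
    refine ⟨a * c'' - a' * c', ?_⟩
    rw [up_inv, up_inv, up_mul, up_mul, up_mul]
    congr 1 <;> ring

theorem SL_good_N (h : HC G3 c D) : ∀ x ∈ N, ∀ y ∈ N, c x y = 0 := by
  have hT : ∀ x ∈ T3, ∀ y ∈ T3, c x y = 0 := fun x hx y hy => h.comm (T3_comm hx hy)
  have hN3 : ∀ x ∈ N3, ∀ y ∈ N3, c x y = 0 := by
    apply h.comm_quot N3 T3
    · intro x hx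
      exact ⟨1, by simp, hx⟩
    · exact hT
    · rintro x ⟨σ, -, hx⟩ t ht
      have := (hx.mul (show Mon 1 t from ht)).mul hx.inv
      rwa [mul_one, mul_inv_cancel] at this
    · rintro x ⟨σ, hs, hx⟩ y ⟨τ, ht, hy⟩
      have := ((hx.mul hy).mul hx.inv).mul hy.inv
      rwa [sign_comm σ τ hs ht] at this
  apply h.comm_quot N N3
  · rintro x ⟨σ, -, hx⟩
    exact ⟨σ, hx⟩
  · exact hN3
  · rintro x ⟨σ, hx⟩ t ⟨τ, ht, hy⟩
    refine ⟨σ * τ * σ⁻¹, ?_, (hx.mul hy).mul hx.inv⟩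
    simp [ht]
  · rintro x ⟨σ, hx⟩ y ⟨τ, hy⟩
    refine ⟨σ * τ * σ⁻¹ * τ⁻¹, ?_, ((hx.mul hy).mul hx.inv).mul hy.inv⟩
    rw [map_mul, map_mul, map_mul, Equiv.Perm.sign_inv, Equiv.Perm.sign_inv]
    rcases Int.units_eq_one_or (Equiv.Perm.sign σ) with h1 | h1 <;>
    rcases Int.units_eq_one_or (Equiv.Perm.sign τ) with h2 | h2 <;> simp [h1, h2]

/-- the real component is a class function -/
theorem HX.SL_conj_r {G : Type*} [Group G] {c : G → G → ℝ} {D : ℝ} {h : HC G c D}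
    (a b : HX h) : (a * b * a⁻¹).r = b.r := by
  apply sub_eq_zero.1
  by_contra hne
  have hpos : 0 < |(a * b * a⁻¹).r - b.r| := abs_pos.2 hne
  obtain ⟨n, hn⟩ := exists_nat_gt (2 * D / |(a * b * a⁻¹).r - b.r|)
  rw [div_lt_iff₀ hpos] at hn
  have h1 : ((a * b * a⁻¹) ^ n).r = (n : ℝ) * (a * b * a⁻¹).r := pow_r _ _
  have h2 : (b ^ n).r = (n : ℝ) * b.r := pow_r _ _
  have h3 : (a * b * a⁻¹) ^ n = a * b ^ n * a⁻¹ := conj_pow
  rw [h3] at h1
  have h4 : (a * b ^ n * a⁻¹).r = (b ^ n).r + c a.g (b ^ n).g + c (a.g * (b ^ n).g) a.g⁻¹ := by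
    simp only [mul_r, inv_r, inv_g, mul_g]
    ring
  have h5 := h.bdd a.g (b ^ n).g
  have h6 := h.bdd (a.g * (b ^ n).g) a.g⁻¹
  have h7 : (n : ℝ) * ((a * b * a⁻¹).r - b.r) =
      c a.g (b ^ n).g + c (a.g * (b ^ n).g) a.g⁻¹ := by
    rw [mul_sub, ← h1, ← h2, h4]
    ring
  have h8 : (n : ℝ) * |(a * b * a⁻¹).r - b.r| ≤ 2 * D := by
    rw [← Nat.abs_cast n, ← abs_mul, h7]
    calc |c a.g (b ^ n).g + c (a.g * (b ^ n).g) a.g⁻¹|
        ≤ |c a.g (b ^ n).g| + |c (a.g * (b ^ n).g) a.g⁻¹| := abs_add_le _ _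
      _ ≤ 2 * D := by linarith
  linarith

/-- (b): if `t` inverts `x` and `y` then the section is multiplicative on `x y x` -/
theorem HX.SL_xyx {G : Type*} [Group G] {c : G → G → ℝ} {D : ℝ} (h : HC G c D) (x y t : G)
    (hx : t * x * t⁻¹ = x⁻¹) (hy : t * y * t⁻¹ = y⁻¹) :
    sg h x * sg h y * sg h x = sg h (x * y * x) := by
  have h1 : (sg h t * (sg h x * sg h y * sg h x) * (sg h t)⁻¹) =
      (sg h x * sg h y * sg h x)⁻¹ := by
    have e1 : sg h t * sg h x * (sg h t)⁻¹ = (sg h x)⁻¹ := by rw [← sg_conj, hx, sg_inv]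
    have e2 : sg h t * sg h y * (sg h t)⁻¹ = (sg h y)⁻¹ := by rw [← sg_conj, hy, sg_inv]
    calc sg h t * (sg h x * sg h y * sg h x) * (sg h t)⁻¹
        = (sg h t * sg h x * (sg h t)⁻¹) * (sg h t * sg h y * (sg h t)⁻¹) *
          (sg h t * sg h x * (sg h t)⁻¹) := by group
      _ = (sg h x * sg h y * sg h x)⁻¹ := by rw [e1, e2]; group
  have h2 := HX.SL_conj_r (sg h t) (sg h x * sg h y * sg h x)
  rw [h1, inv_r] at h2
  have h3 : (sg h x * sg h y * sg h x).r = 0 := by linarith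
  rw [eq_iff]
  exact ⟨by simp, h3⟩

namespace SLT

/-- the sign matrices -/
def dg (a b d : ℚ) (h : a * b * d = 1) : G3 :=
  ⟨!![a, 0, 0; 0, b, 0; 0, 0, d], by simp [Matrix.det_fin_three, h]⟩

theorem dg_mon (a b d : ℚ) (h : a * b * d = 1) : Mon 1 (dg a b d h) := by
  intro i j hij
  change (!![a, 0, 0; 0, b, 0; 0, 0, d] : Matrix (Fin 3) (Fin 3) ℚ) i j = 0
  fin_cases i <;> fin_cases j <;> first | exact absurd rfl hij | rfl

/-- for every pair of indices there is a diagonal matrix inverting the two root groups -/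
theorem exists_inv (i j : Fin 3) (h : i ≠ j) : ∃ t : G3, (∀ s, t * X i j h s * t⁻¹ = (X i j h s)⁻¹) ∧
    ∀ s, t * X j i h.symm s * t⁻¹ = (X j i h.symm s)⁻¹ := by
  -- it suffices that `t i i = - t j j`
  have key : ∀ t : G3, Mon 1 t → t.1 i i = - t.1 j j →
      (∀ s, t * X i j h s * t⁻¹ = (X i j h s)⁻¹) ∧
      ∀ s, t * X j i h.symm s * t⁻¹ = (X j i h.symm s)⁻¹ := by
    intro t ht e
    have hj := ht.ne_zero j
    simp only [Equiv.Perm.coe_one, id_eq] at hj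
    refine ⟨fun s => ?_, fun s => ?_⟩
    · have := ht.conj i j h s
      rw [this, X_inv]
      simp only [Equiv.Perm.coe_one, id_eq]
      congr 1
      rw [e]
      field_simp
    · have := ht.conj j i h.symm s
      rw [this, X_inv]
      simp only [Equiv.Perm.coe_one, id_eq]
      congr 1
      rw [e]
      field_simp
  fin_cases i <;> fin_cases j
  · exact absurd rfl h
  · exact ⟨_, key (dg (-1) 1 (-1) (by norm_num)) (dg_mon _ _ _ _) rfl⟩
  · exact ⟨_, key (dg (-1) (-1) 1 (by norm_num)) (dg_mon _ _ _ _) rfl⟩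
  · exact ⟨_, key (dg (-1) 1 (-1) (by norm_num)) (dg_mon _ _ _ _) (by simp [dg])⟩
  · exact absurd rfl h
  · exact ⟨_, key (dg (-1) (-1) 1 (by norm_num)) (dg_mon _ _ _ _) rfl⟩
  · exact ⟨_, key (dg (-1) (-1) 1 (by norm_num)) (dg_mon _ _ _ _) (by simp [dg])⟩
  · exact ⟨_, key (dg (-1) (-1) 1 (by norm_num)) (dg_mon _ _ _ _) (by simp [dg])⟩
  · exact absurd rfl h

/-- the Weyl elements -/
theorem w_mon (i j : Fin 3) (h : i ≠ j) (s : ℚ) (hs : s ≠ 0) :
    Mon (Equiv.swap i j) (X i j h s * X j i h.symm (-s⁻¹) * X i j h s) := by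
  intro a b hab
  change ((X i j h s).1 * (X j i h.symm (-s⁻¹)).1 * (X i j h s).1) a b = 0
  rw [X_coe, X_coe]
  fin_cases i <;> fin_cases j <;> fin_cases a <;> fin_cases b <;>
  first
  | exact absurd rfl h
  | exact absurd (by decide) hab
  | (simp [Matrix.mul_apply, Fin.sum_univ_three, Matrix.single_apply, Matrix.add_apply, hs])

theorem X_congr {i j i' j' : Fin 3} (h : i ≠ j) (h' : i' ≠ j') {s s' : ℚ} (hi : i = i')
    (hj : j = j') (hs : s = s') : X i j h s = X i' j' h' s' := by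
  subst hi hj hs
  rfl

/-- conjugation by a monomial matrix into the upper unipotent group -/
theorem conj_mem_U {σ : Equiv.Perm (Fin 3)} {n : G3} (hn : Mon σ n) (i j : Fin 3) (h : i ≠ j)
    (hσ : σ i < σ j) (s : ℚ) : n * X i j h s * n⁻¹ ∈ U := by
  rw [hn.conj i j h s]
  exact X_mem_U _ _ hσ _

/-- the simple pairs -/
def Simp (p q : Fin 3) : Prop := (p = 0 ∧ q = 1) ∨ (p = 1 ∧ q = 2)

theorem Simp.lt {p q : Fin 3} (h : Simp p q) : p < q := by
  rcases h with ⟨rfl, rfl⟩ | ⟨rfl, rfl⟩ <;> decide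

/-- splitting off a simple root group -/
theorem split_U {p q : Fin 3} (hpq : Simp p q) {n : G3} (hn : Mon (Equiv.swap p q) n) {u : G3}
    (hu : u ∈ U) : ∃ u1 ∈ U, ∃ s, u = u1 * X p q hpq.lt.ne s ∧ n * u1 * n⁻¹ ∈ U := by
  obtain ⟨a, b, c, rfl⟩ := hu
  have hcj : ∀ x y : G3, n * (x * y) * n⁻¹ = (n * x * n⁻¹) * (n * y * n⁻¹) := fun x y => by group
  rcases hpq with ⟨rfl, rfl⟩ | ⟨rfl, rfl⟩
  · refine ⟨up 0 b c, up_mem _ _ _, a, ?_, ?_⟩
    · rw [X_congr _ (by decide) rfl rfl rfl, X01, up_mul]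
      congr 1 <;> ring
    · have e : up 0 b c = X 0 2 (by decide) b * X 1 2 (by decide) c := by
        rw [X02, X12, up_mul]
        congr 1 <;> ring
      rw [e, hcj]
      exact U.mul_mem (conj_mem_U hn 0 2 (by decide) (by decide) b)
        (conj_mem_U hn 1 2 (by decide) (by decide) c)
  · refine ⟨up a (b - a * c) 0, up_mem _ _ _, c, ?_, ?_⟩
    · rw [X_congr _ (by decide) rfl rfl rfl, X12, up_mul]
      congr 1 <;> ring
    · have e : up a (b - a * c) 0 = X 0 1 (by decide) a * X 0 2 (by decide) (b - a * c) := by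
        rw [X01, X02, up_mul]
        congr 1 <;> ring
      rw [e, hcj]
      exact U.mul_mem (conj_mem_U hn 0 1 (by decide) (by decide) a)
        (conj_mem_U hn 0 2 (by decide) (by decide) _)

theorem exists_mon (p q : Fin 3) (h : p ≠ q) : ∃ n, Mon (Equiv.swap p q) n :=
  ⟨_, w_mon p q h 1 one_ne_zero⟩

/-- generation -/
theorem gen (H : Subgroup G3) (hU : U ≤ H) (h1 : ∀ n, Mon (Equiv.swap 0 1) n → n ∈ H)
    (h2 : ∀ n, Mon (Equiv.swap 1 2) n → n ∈ H) : ∀ x, x ∈ H := by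
  have hcj : ∀ (σ : Equiv.Perm (Fin 3)) (n : G3), Mon σ n → n ∈ H → ∀ (i j : Fin 3) (h : i ≠ j),
      (∀ s, X (σ i) (σ j) (fun e => h (σ.injective e)) s ∈ H) → ∀ s, X i j h s ∈ H := by
    intro σ n hn hnH i j h hX s
    have e : X i j h s = n⁻¹ * (n * X i j h s * n⁻¹) * n := by group
    rw [e, hn.conj i j h s]
    exact H.mul_mem (H.mul_mem (H.inv_mem hnH) (hX _)) hnH
  obtain ⟨n1, hn1⟩ := exists_mon 0 1 (by decide)
  obtain ⟨n2, hn2⟩ := exists_mon 1 2 (by decide)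
  have h10 : ∀ s, X 1 0 (by decide) s ∈ H := hcj _ n1 hn1 (h1 _ hn1) 1 0 (by decide)
    fun s => hU (X_mem_U 0 1 (by decide) s)
  have h21 : ∀ s, X 2 1 (by decide) s ∈ H := hcj _ n2 hn2 (h2 _ hn2) 2 1 (by decide)
    fun s => hU (X_mem_U 1 2 (by decide) s)
  have h20 : ∀ s, X 2 0 (by decide) s ∈ H := hcj _ n1 hn1 (h1 _ hn1) 2 0 (by decide)
    fun s => h21 s
  have hX : ∀ (i j : Fin 3) (h : i ≠ j) (s : ℚ), X i j h s ∈ H := by
    intro i j h s
    rcases lt_or_gt_of_ne h with h' | h'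
    · exact hU (X_mem_U i j h' s)
    · fin_cases i <;> fin_cases j
      · exact absurd rfl h
      · exact absurd h' (by decide)
      · exact absurd h' (by decide)
      · exact h10 s
      · exact absurd rfl h
      · exact absurd h' (by decide)
      · exact h20 s
      · exact h21 s
      · exact absurd rfl h
  have hT : ∀ t, Mon 1 t → t ∈ H := by
    intro t ht
    have e : t = n1 * (n1⁻¹ * t) := by group
    rw [e]
    refine H.mul_mem (h1 _ hn1) (h1 _ ?_)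
    have := hn1.inv.mul ht
    rwa [mul_one, Equiv.swap_inv] at this
  have hL : ∀ L : List (Matrix.TransvectionStruct (Fin 3) ℚ), ∃ g ∈ H,
      g.1 = (L.map Matrix.TransvectionStruct.toMatrix).prod := by
    intro L
    induction L with
    | nil => exact ⟨1, H.one_mem, by simp⟩
    | cons t L ih =>
      obtain ⟨g, hg, e⟩ := ih
      refine ⟨X t.i t.j t.hij t.c * g, H.mul_mem (hX _ _ _ _) hg, ?_⟩
      rw [List.map_cons, List.prod_cons, ← e]
      rfl
  intro x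
  obtain ⟨L, L', d, hM⟩ := Matrix.Pivot.exists_list_transvec_mul_diagonal_mul_list_transvec x.1
  obtain ⟨g, hg, e⟩ := hL L
  obtain ⟨g', hg', e'⟩ := hL L'
  rw [← e, ← e'] at hM
  have hdet : (Matrix.diagonal d).det = 1 := by
    have h3 := congrArg Matrix.det hM
    rw [Matrix.det_mul, Matrix.det_mul, x.2, g.2, g'.2, one_mul, mul_one] at h3
    exact h3.symm
  obtain ⟨dd, hdd⟩ : ∃ dd : G3, dd.1 = Matrix.diagonal d := ⟨⟨Matrix.diagonal d, hdet⟩, rfl⟩
  have hx : x = g * dd * g' := by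
    apply Subtype.ext
    rw [hM, ← hdd]
    rfl
  rw [hx]
  refine H.mul_mem (H.mul_mem hg (hT _ ?_)) hg'
  intro i j hij
  rw [hdd]
  exact Matrix.diagonal_apply_ne _ hij

/-- the Bruhat set -/
def BB (h : HC G3 c D) : Set (HX h) :=
  {g | ∃ u ∈ U, ∃ n ∈ N, ∃ u' ∈ U, g = sg h u * sg h n * sg h u'}

theorem sgU (h : HC G3 c D) {x y : G3} (hx : x ∈ U) (hy : y ∈ U) :
    sg h x * sg h y = sg h (x * y) := (sg_mul_iff x y).2 (SL_good_U h x hx y hy)

theorem sgN (h : HC G3 c D) {x y : G3} (hx : x ∈ N) (hy : y ∈ N) :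
    sg h x * sg h y = sg h (x * y) := (sg_mul_iff x y).2 (SL_good_N h x hx y hy)

theorem sg_move (h : HC G3 c D) (x n : G3) :
    sg h x * sg h n = sg h n * sg h (n⁻¹ * x * n) := by
  have h1 := sg_conj (h := h) n⁻¹ x
  rw [_root_.inv_inv, sg_inv, _root_.inv_inv] at h1
  rw [h1]
  group

theorem BB_one (h : HC G3 c D) : (1 : HX h) ∈ BB h :=
  ⟨1, U.one_mem, 1, N.one_mem, 1, U.one_mem, by simp [sg_one]⟩

theorem BB_left (h : HC G3 c D) {v : G3} (hv : v ∈ U) {g : HX h} (hg : g ∈ BB h) :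
    sg h v * g ∈ BB h := by
  obtain ⟨u, hu, n, hn, u', hu', rfl⟩ := hg
  refine ⟨v * u, U.mul_mem hv hu, n, hn, u', hu', ?_⟩
  rw [← sgU h hv hu]
  group

theorem BB_right (h : HC G3 c D) {v : G3} (hv : v ∈ U) {g : HX h} (hg : g ∈ BB h) :
    g * sg h v ∈ BB h := by
  obtain ⟨u, hu, n, hn, u', hu', rfl⟩ := hg
  refine ⟨u, hu, n, hn, u' * v, U.mul_mem hu' hv, ?_⟩
  rw [← sgU h hu' hv]
  group

/-- (c), the rank one step -/
theorem rank_one (h : HC G3 c D) {p q : Fin 3} (hpq : Simp p q) {n0 : G3}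
    (hn0 : Mon (Equiv.swap p q) n0) {n : G3} (hn : n ∈ N) (s : ℚ) :
    sg h n0 * sg h (X p q hpq.lt.ne s) * sg h n ∈ BB h := by
  have hn0N : n0 ∈ N := ⟨_, hn0⟩
  obtain ⟨σ, hσ⟩ := hn
  have hnN : n ∈ N := ⟨σ, hσ⟩
  by_cases hs : s = 0
  · rw [hs, X_zero, sg_one, mul_one, sgN h hn0N hnN]
    exact ⟨1, U.one_mem, n0 * n, N.mul_mem hn0N hnN, 1, U.one_mem, by simp [sg_one]⟩
  have hne : σ⁻¹ p ≠ σ⁻¹ q := fun e => hpq.lt.ne ((σ⁻¹).injective e)
  rcases lt_or_gt_of_ne hne with hlt | hgt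
  · have e := sg_move h (X p q hpq.lt.ne s) n
    have hm : n⁻¹ * X p q hpq.lt.ne s * n ∈ U := by
      have := conj_mem_U hσ.inv p q hpq.lt.ne hlt s
      rwa [_root_.inv_inv] at this
    rw [mul_assoc, e, ← mul_assoc, sgN h hn0N hnN]
    exact ⟨1, U.one_mem, n0 * n, N.mul_mem hn0N hnN, _, hm, by simp [sg_one]⟩
  · -- the second case
    obtain ⟨s', hs', es'⟩ : ∃ s' : ℚ, s' ≠ 0 ∧
        n0 * X p q hpq.lt.ne s * n0⁻¹ = X q p hpq.lt.ne' s' := by
      refine ⟨_, ?_, (hn0.conj p q hpq.lt.ne s).trans (X_congr _ _ (Equiv.swap_apply_left p q)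
        (Equiv.swap_apply_right p q) rfl)⟩
      exact div_ne_zero (mul_ne_zero hs (hn0.ne_zero p)) (hn0.ne_zero q)
    set r : ℚ := -s'⁻¹ with hr
    have hr0 : r ≠ 0 := by rw [hr]; exact neg_ne_zero.2 (inv_ne_zero hs')
    have hrs : -r⁻¹ = s' := by rw [hr, inv_neg, _root_.inv_inv, neg_neg]
    set w : G3 := X p q hpq.lt.ne r * X q p hpq.lt.ne' s' * X p q hpq.lt.ne r with hw
    have hwM : Mon (Equiv.swap p q) w := by
      have := w_mon p q hpq.lt.ne r hr0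
      rwa [hrs] at this
    have hwN : w ∈ N := ⟨_, hwM⟩
    obtain ⟨t, ht1, ht2⟩ := exists_inv p q hpq.lt.ne
    have hb := HX.SL_xyx h (X p q hpq.lt.ne r) (X q p hpq.lt.ne' s') t (ht1 r) (ht2 s')
    rw [← hw] at hb
    have hb2 : sg h (X q p hpq.lt.ne' s') =
        sg h (X p q hpq.lt.ne (-r)) * sg h w * sg h (X p q hpq.lt.ne (-r)) := by
      rw [← hb, ← X_inv, sg_inv]
      group
    have e1 : sg h n0 * sg h (X p q hpq.lt.ne s) = sg h (X q p hpq.lt.ne' s') * sg h n0 := by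
      rw [← es', sg_conj]
      group
    have hmM : Mon (Equiv.swap p q * σ) (n0 * n) := hn0.mul hσ
    have hmN : n0 * n ∈ N := ⟨_, hmM⟩
    have hm : (n0 * n)⁻¹ * X p q hpq.lt.ne (-r) * (n0 * n) ∈ U := by
      have := conj_mem_U hmM.inv p q hpq.lt.ne (by
        simp only [mul_inv_rev, Equiv.swap_inv, Equiv.Perm.coe_mul, Function.comp_apply,
          Equiv.swap_apply_left, Equiv.swap_apply_right]
        exact hgt) (-r)
      rwa [_root_.inv_inv] at this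
    have e2 : sg h n0 * sg h (X p q hpq.lt.ne s) * sg h n =
        sg h (X p q hpq.lt.ne (-r)) * sg h (w * (n0 * n)) *
          sg h ((n0 * n)⁻¹ * X p q hpq.lt.ne (-r) * (n0 * n)) := by
      rw [e1, hb2, mul_assoc, sgN h hn0N hnN, mul_assoc, sg_move h (X p q hpq.lt.ne (-r)) (n0 * n),
        ← sgN h hwN hmN]
      group
    rw [e2]
    exact ⟨_, X_mem_U p q hpq.lt _, _, N.mul_mem hwN hmN, _, hm, rfl⟩

theorem BB_step (h : HC G3 c D) {p q : Fin 3} (hpq : Simp p q) {n0 : G3}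
    (hn0 : Mon (Equiv.swap p q) n0) {g : HX h} (hg : g ∈ BB h) : sg h n0 * g ∈ BB h := by
  obtain ⟨u, hu, n, hn, u', hu', rfl⟩ := hg
  obtain ⟨u1, hu1, s, rfl, hcU⟩ := split_U hpq hn0 hu
  have e : sg h n0 * (sg h (u1 * X p q hpq.lt.ne s) * sg h n * sg h u') =
      sg h (n0 * u1 * n0⁻¹) * (sg h n0 * sg h (X p q hpq.lt.ne s) * sg h n) * sg h u' := by
    rw [← sgU h hu1 (X_mem_U p q hpq.lt s), sg_conj]
    group
  rw [e]
  exact BB_right h hu' (BB_left h hcU (rank_one h hpq hn0 hn s))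

/-- the generators -/
def S0 (h : HC G3 c D) : Set (HX h) :=
  {g | (∃ u ∈ U, g = sg h u) ∨ ∃ p q, Simp p q ∧ ∃ n, Mon (Equiv.swap p q) n ∧ g = sg h n}

theorem closure_sub (h : HC G3 c D) {g : HX h} (hg : g ∈ Subgroup.closure (S0 h)) : g ∈ BB h := by
  have step : ∀ x ∈ S0 h, ∀ y ∈ BB h, x * y ∈ BB h := by
    rintro x (⟨u, hu, rfl⟩ | ⟨p, q, hpq, n, hn, rfl⟩) y hy
    · exact BB_left h hu hy
    · exact BB_step h hpq hn hy
  have hinv : ∀ x ∈ S0 h, x⁻¹ ∈ S0 h := by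
    rintro x (⟨u, hu, rfl⟩ | ⟨p, q, hpq, n, hn, rfl⟩)
    · exact Or.inl ⟨u⁻¹, U.inv_mem hu, (sg_inv u).symm⟩
    · refine Or.inr ⟨p, q, hpq, n⁻¹, ?_, (sg_inv n).symm⟩
      have := hn.inv
      rwa [Equiv.swap_inv] at this
  induction hg using Subgroup.closure_induction_left with
  | one => exact BB_one h
  | mul_left x hx y _ ih => exact step x hx y ih
  | inv_mul_cancel x hx y _ ih => exact step _ (hinv x hx) y ih

theorem BB_bdd (h : HC G3 c D) {g : HX h} (hg : g ∈ BB h) : |g.r| ≤ 2 * D := by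
  obtain ⟨u, hu, n, hn, u', hu', rfl⟩ := hg
  have h1 := h.bdd u n
  have h2 := h.bdd (u * n) u'
  have e : (sg h u * sg h n * sg h u').r = c u n + c (u * n) u' := by
    simp only [mul_r, sg_r, mul_g, sg_g]
    ring
  rw [e]
  calc |c u n + c (u * n) u'| ≤ |c u n| + |c (u * n) u'| := abs_add_le _ _
    _ ≤ 2 * D := by linarith

end SLT

/-- THEOREM SL -/
theorem HC.SL (h : HC (Matrix.SpecialLinearGroup (Fin 3) ℚ) c D) (x y : G3) : c x y = 0 := by
  have hz : ∀ g ∈ Subgroup.closure (S0 h), g.r = 0 := by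
    intro g hg
    apply r_eq_zero_of_bdd g (2 * D)
    intro n
    exact BB_bdd h (closure_sub h (Subgroup.pow_mem _ hg n))
  have hgen := gen ((Subgroup.closure (S0 h)).map (pr h))
    (fun u hu => ⟨sg h u, Subgroup.subset_closure (Or.inl ⟨u, hu, rfl⟩), rfl⟩)
    (fun n hn => ⟨sg h n, Subgroup.subset_closure
      (Or.inr ⟨0, 1, Or.inl ⟨rfl, rfl⟩, n, hn, rfl⟩), rfl⟩)
    (fun n hn => ⟨sg h n, Subgroup.subset_closure
      (Or.inr ⟨1, 2, Or.inr ⟨rfl, rfl⟩, n, hn, rfl⟩), rfl⟩)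
  have hsg : ∀ x : G3, sg h x ∈ Subgroup.closure (S0 h) := by
    intro x
    obtain ⟨g, hg, e⟩ := hgen x
    have : g = sg h x := by
      rw [eq_iff]
      exact ⟨e, hz g hg⟩
    rw [← this]
    exact hg
  have := hz _ (Subgroup.mul_mem _ (hsg x) (hsg y))
  simpa using this

end Pool.Agent.QM59
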