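import Mathlib
import Pool.Agent.Lib.MP_decea1_gt_D.Fin
import Pool.Agent.Lib.MP_decea1_gt_D.SL
import Pool.Agent.Lib.MP_decea1_gt_G.Elem
import Pool.Agent.Lib.MP_decea1_gt_G.RL
import Pool.Agent.Lib.MP_decea1_gt_B.NAdd

/-!
# MP_decea1_gt, block D, module Final: the export of block D
-/

set_option autoImplicit false

open MeasureTheory Set Filter Topology

namespace Pool.Agent.QM59.D

theorem gen_holds : Gen := by
  rw [Gen, Subgroup.eq_top_iff']
  intro A
  have key : ∀ M : Matrix (Fin 3) (Fin 3) ℚ, M.det = 1 → ∀ B : SLQ, B.1 = M →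
      B ∈ Subgroup.closure {A : SLQ | ∃ (i j : Fin 3) (hij : i ≠ j) (t : ℚ),
        A = Matrix.SpecialLinearGroup.transvection hij t} := by
    intro M hM
    have key2 : M.det = 1 ∧ ∀ B : SLQ, B.1 = M →
      B ∈ Subgroup.closure {A : SLQ | ∃ (i j : Fin 3) (hij : i ≠ j) (t : ℚ),
        A = Matrix.SpecialLinearGroup.transvection hij t} := by
      apply G.det_one_induction (fun M => M.det = 1 ∧ ∀ B : SLQ, B.1 = M →
        B ∈ Subgroup.closure {A : SLQ | ∃ (i j : Fin 3) (hij : i ≠ j) (t : ℚ),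
        A = Matrix.SpecialLinearGroup.transvection hij t}) _ _ _ M hM
      · refine ⟨Matrix.det_one, fun B hB => ?_⟩
        have : B = 1 := Subtype.ext hB
        rw [this]
        exact Subgroup.one_mem _
      · rintro A B ⟨hA, hA'⟩ ⟨hB, hB'⟩
        refine ⟨by rw [Matrix.det_mul, hA, hB, one_mul], fun C hC => ?_⟩
        have : C = (show SLQ from ⟨A, hA⟩) * (show SLQ from ⟨B, hB⟩) := Subtype.ext hC
        rw [this]
        exact Subgroup.mul_mem _ (hA' _ rfl) (hB' _ rfl)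
      · intro i j hij c
        refine ⟨Matrix.det_transvection_of_ne i j hij c, fun B hB => ?_⟩
        have : B = Matrix.SpecialLinearGroup.transvection hij c := Subtype.ext hB
        rw [this]
        exact Subgroup.subset_closure ⟨i, j, hij, c, rfl⟩
    exact key2.2
  exact key A.1 A.2 A rfl

theorem slz_holds : SLZ := fun _ _ h x y => h.SL x y

/-- export of block D, with the conclusion of `NAc` as a hypothesis -/
theorem dFin_UC {Γ : Subgroup (Equiv.Perm E3)} {φ : Equiv.Perm E3 → ℝ} {D : ℝ} (hΓ : Good Γ)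
    (hφ : HQ Γ φ D) (hU : UC Γ φ) : DFin Γ φ :=
  dFin_of hΓ hφ hU (RL hΓ) gen_holds slz_holds

/-- EXPORT OF BLOCK D -/
theorem dFin {Γ : Subgroup (Equiv.Perm E3)} {φ : Equiv.Perm E3 → ℝ} {D : ℝ} (hΓ : Good Γ)
    (hφ : HQ Γ φ D) : DFin Γ φ :=
  dFin_UC hΓ hφ (NAc hΓ hφ)

end Pool.Agent.QM59.D
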